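import Pool.Agent.H83.KH.Cx
import Pool.Agent.H83.Dim.Bidim

/-! # Comparison with projective resolutions (helper83, for MP_216d05_an) -/

namespace Pool.Agent.H83.KH

open Filter Topology Set InnerProductSpace

noncomputable section

set_option linter.unusedSectionVars false

universe u

section lift

variable {A : Type u} [NonUnitalNormedRing A] [NormedSpace ℂ A]

section pullback

variable {P Y Z : Dim.LMod A} (f : Dim.Mor Y Z) (g : Dim.Mor P Z)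

/-- the submodule underlying the pullback -/
def plS : Submodule ℂ (P × Y) :=
  LinearMap.ker ((g.map.comp (ContinuousLinearMap.fst ℂ P Y) -
    f.map.comp (ContinuousLinearMap.snd ℂ P Y)).toLinearMap)

theorem mem_plS (w : P × Y) : w ∈ plS f g ↔ g.map w.1 = f.map w.2 := by
  rw [plS, LinearMap.mem_ker]
  change g.map w.1 - f.map w.2 = 0 ↔ _
  rw [sub_eq_zero]

/-- the pullback module -/
def pl : Dim.LMod A where
  carrier := plS f g
  cpl := (ContinuousLinearMap.isClosed_ker _).completeSpace_coe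
  act := Dim.restrAct (Dim.prodAct P.act Y.act) (plS f g) (by
    intro a w hw
    rw [mem_plS] at hw ⊢
    rw [Dim.prodAct_apply, g.map_act, f.map_act, hw])
  act_mul := fun a b x => Subtype.ext (Prod.ext (P.act_mul a b _) (Y.act_mul a b _))

theorem lift_left (hP : Dim.Projective P) (L : P →L[ℂ] Y) (hL : ∀ p, f.map (L p) = g.map p) :
    ∃ h : Dim.Mor P Y, ∀ p, f.map (h.map p) = g.map p := by
  set q : Dim.Mor (pl f g) P :=
    { map := (ContinuousLinearMap.fst ℂ P Y).comp (plS f g).subtypeL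
      map_act := fun _ _ => rfl } with hq
  obtain ⟨s, hs⟩ := hP (pl f g) q
    ⟨((ContinuousLinearMap.id ℂ P).prod L).codRestrict (plS f g) (fun p => by
      rw [mem_plS]; exact (hL p).symm), fun p => rfl⟩
  refine ⟨⟨(ContinuousLinearMap.snd ℂ P Y).comp ((plS f g).subtypeL.comp s.map),
    fun a x => ?_⟩, fun p => ?_⟩
  · change (show ↥(plS f g) from s.map (P.act a x)).1.2 = _
    rw [s.map_act]; rfl
  · have h1 := (mem_plS f g _).1 (show ↥(plS f g) from s.map p).2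
    change f.map (show ↥(plS f g) from s.map p).1.2 = _
    rw [← h1]
    exact congrArg _ (hs p)

end pullback

/-! ### resolutions as chains -/

variable {X : Dim.LMod A} (R : Dim.Resolution X)

/-- the modules of the resolution, shifted by one -/
def Nk : ℕ → Dim.LMod A
  | 0 => X
  | k + 1 => R.P k

/-- the boundary maps of the resolution -/
def Dk : ∀ k, Dim.Mor (Nk R (k + 1)) (Nk R k)
  | 0 => R.ε
  | k + 1 => R.d k

/-- the homotopy of the resolution -/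
def Sk : ∀ k, (Nk R k).carrier →L[ℂ] (Nk R (k + 1)).carrier
  | 0 => R.s₀
  | k + 1 => R.s k

theorem DD (k : ℕ) (p : Nk R (k + 2)) : (Dk R k).map ((Dk R (k + 1)).map p) = 0 := by
  cases k with
  | zero => exact R.ε_d p
  | succ k => exact R.d_d k p

theorem DS_zero (p : Nk R 0) : (Dk R 0).map (Sk R 0 p) = p := R.ε_s₀ p

theorem DS_succ (k : ℕ) (p : Nk R (k + 1)) :
    (Dk R (k + 1)).map (Sk R (k + 1) p) = p - Sk R k ((Dk R k).map p) := by
  cases k with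
  | zero => exact eq_sub_of_add_eq' (R.split₀ p)
  | succ k => exact eq_sub_of_add_eq' (R.split k p)

end lift

variable {H : Type u} [NormedAddCommGroup H] [InnerProductSpace ℂ H] [CompleteSpace H]
variable {I : Type u}

/-- restriction of an `A`-module to the compact operators -/
def KA {A : Type u} [NonUnitalNormedRing A] [NormedSpace ℂ A] (ι : Kc H →L[ℂ] A)
    (hι : ∀ x y, ι (x * y) = ι x * ι y) (N : Dim.LMod A) : KM H where
  M := N.carrier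
  act := N.act.comp ι
  act_mul := fun a b x => by
    rw [ContinuousLinearMap.comp_apply, hι, N.act_mul]; rfl

/-- all data for the comparison theorem -/
structure Data (H : Type u) [NormedAddCommGroup H] [InnerProductSpace ℂ H] [CompleteSpace H]
    {I : Type u} (e : HilbertBasis I ℂ H) (A : Type u) [NonUnitalNormedRing A]
    [NormedSpace ℂ A] where
  ι : Kc H →L[ℂ] A
  hι : ∀ x y, ι (x * y) = ι x * ι y
  j : A →L[ℂ] Op H
  hj : ∀ x y, j (x * y) = j x * j y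
  hji : ∀ x, j (ι x) = x.op
  C : ℕ → KM H
  X : ∀ k, ES e (C k) (C (k + 1))
  aB : ∀ k, Op H →L[ℂ] (C k).M →L[ℂ] (C k).M
  aB_mul : ∀ k a b x, aB k (a * b) x = aB k a (aB k b x)
  haB : ∀ k (x : Kc H) u, (C k).act x u = aB k x.op u
  hdB : ∀ k b u, dk X k (aB (k + 1) b u) = aB k b (dk X k u)

namespace Data

variable {e : HilbertBasis I ℂ H} {A : Type u} [NonUnitalNormedRing A] [NormedSpace ℂ A]
variable (𝔻 : Data H e A)

/-- the spaces of the complex as `A`-modules -/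
def Cm (k : ℕ) : Dim.LMod A where
  carrier := (𝔻.C k).M
  act := (𝔻.aB k).comp 𝔻.j
  act_mul := fun a b x => by
    rw [ContinuousLinearMap.comp_apply, 𝔻.hj, 𝔻.aB_mul]; rfl

/-- boundary maps as morphisms -/
def dm (k : ℕ) : Dim.Mor (𝔻.Cm (k + 1)) (𝔻.Cm k) where
  map := dk 𝔻.X k
  map_act := fun a x => 𝔻.hdB k (𝔻.j a) x

/-- restriction to the compact operators -/
abbrev ka (N : Dim.LMod A) : KM H := KA 𝔻.ι 𝔻.hι N

theorem Mor_EL {N N' : Dim.LMod A} (f : Dim.Mor N N') :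
    EL e (M := 𝔻.ka N) (M' := 𝔻.ka N') f.map := fun i j x => f.map_act (𝔻.ι (kE e i j)) x

theorem Mor_EL' {N : Dim.LMod A} {k : ℕ} (f : Dim.Mor N (𝔻.Cm k)) :
    EL e (M := 𝔻.ka N) (M' := 𝔻.C k) f.map := fun i j x => by
  have h1 := f.map_act (𝔻.ι (kE e i j)) x
  refine h1.trans ?_
  rw [𝔻.haB, ← 𝔻.hji]
  rfl

variable (R : Dim.Resolution (𝔻.Cm 0))

/-- the maps to the resolution -/
def T : ∀ k, (𝔻.C k).M →L[ℂ] (𝔻.ka (Nk R k)).M
  | 0 => ContinuousLinearMap.id ℂ (𝔻.C 0).M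
  | k + 1 => (𝔻.X k).Ex (𝔻.ka (Nk R (k + 1)))
      ((Sk R k).comp ((T k).comp ((dk 𝔻.X k).comp (𝔻.X k).s)))

theorem T_EL (k : ℕ) : EL e (M := 𝔻.C k) (M' := 𝔻.ka (Nk R k)) (𝔻.T R k) := by
  cases k with
  | zero =>
      intro i j x
      change (𝔻.C 0).act (kE e i j) x = 𝔻.aB 0 (𝔻.j (𝔻.ι (kE e i j))) x
      rw [𝔻.haB, 𝔻.hji]
  | succ k => exact (𝔻.X k).Ex_EL _ _

theorem DT (k : ℕ) : ((Dk R k).map.comp (𝔻.T R (k + 1)) :
    (𝔻.C (k + 1)).M →L[ℂ] (𝔻.ka (Nk R k)).M) = (𝔻.T R k).comp (dk 𝔻.X k) := by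
  induction k with
  | zero =>
      have h1 := (𝔻.X 0).Ex_comp (𝔻.ka (Nk R 1)) (𝔻.ka (Nk R 0))
        ((Sk R 0).comp ((𝔻.T R 0).comp ((dk 𝔻.X 0).comp (𝔻.X 0).s))) (Dk R 0).map
        (𝔻.Mor_EL (Dk R 0))
      refine h1.trans ?_
      refine Eq.trans ?_ ((𝔻.X 0).Ex_comp_s (𝔻.ka (Nk R 0)) ((𝔻.T R 0).comp (dk 𝔻.X 0))
        (EL.comp (𝔻.T_EL R 0) (dk_EL 𝔻.X 0)))
      congr 1
      ext x
      exact DS_zero R _
  | succ k ih =>
      have h1 := (𝔻.X (k + 1)).Ex_comp (𝔻.ka (Nk R (k + 2))) (𝔻.ka (Nk R (k + 1)))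
        ((Sk R (k + 1)).comp ((𝔻.T R (k + 1)).comp ((dk 𝔻.X (k + 1)).comp (𝔻.X (k + 1)).s)))
        (Dk R (k + 1)).map (𝔻.Mor_EL (Dk R (k + 1)))
      refine h1.trans ?_
      refine Eq.trans ?_ ((𝔻.X (k + 1)).Ex_comp_s (𝔻.ka (Nk R (k + 1)))
        ((𝔻.T R (k + 1)).comp (dk 𝔻.X (k + 1)))
        (EL.comp (𝔻.T_EL R (k + 1)) (dk_EL 𝔻.X (k + 1))))
      congr 1
      ext x
      have h2 := DS_succ R k (𝔻.T R (k + 1) (dk 𝔻.X (k + 1) ((𝔻.X (k + 1)).s x)))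
      refine h2.trans ?_
      have h3 : (Dk R k).map (𝔻.T R (k + 1) (dk 𝔻.X (k + 1) ((𝔻.X (k + 1)).s x))) = 0 := by
        have h4 := congrArg (fun f => f (dk 𝔻.X (k + 1) ((𝔻.X (k + 1)).s x))) ih
        refine h4.trans ?_
        change 𝔻.T R k (dk 𝔻.X k (dk 𝔻.X (k + 1) ((𝔻.X (k + 1)).s x))) = 0
        rw [dd, map_zero]
      rw [h3, map_zero, sub_zero]
      rfl

open Classical in
/-- the maps from the resolution -/
def Rk : ∀ k, Dim.Mor (Nk R k) (𝔻.Cm k)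
  | 0 => { map := ContinuousLinearMap.id ℂ (𝔻.C 0).M, map_act := fun _ _ => rfl }
  | k + 1 => if h : ∃ h : Dim.Mor (Nk R (k + 1)) (𝔻.Cm (k + 1)),
      ∀ p, (𝔻.dm k).map (h.map p) = (Rk k).map ((Dk R k).map p) then h.choose
    else { map := 0, map_act := fun a x => by
            rw [_root_.zero_apply, _root_.zero_apply, map_zero] }

theorem Rk_succ_spec (k : ℕ) (h : ∃ h : Dim.Mor (Nk R (k + 1)) (𝔻.Cm (k + 1)),
      ∀ p, (𝔻.dm k).map (h.map p) = (𝔻.Rk R k).map ((Dk R k).map p)) (p : Nk R (k + 1)) :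
    (𝔻.dm k).map ((𝔻.Rk R (k + 1)).map p) = (𝔻.Rk R k).map ((Dk R k).map p) := by
  have h1 : 𝔻.Rk R (k + 1) = h.choose := by
    rw [Rk, dif_pos h]
  rw [h1]
  exact h.choose_spec p

theorem dR (k : ℕ) (p : Nk R (k + 1)) :
    (𝔻.dm k).map ((𝔻.Rk R (k + 1)).map p) = (𝔻.Rk R k).map ((Dk R k).map p) := by
  have hproj : ∀ k, Dim.Projective (Nk R (k + 1)) := fun k => R.projective k
  induction k with
  | zero =>
      refine 𝔻.Rk_succ_spec R 0 ?_ p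
      refine lift_left (𝔻.dm 0)
        { map := (𝔻.Rk R 0).map.comp (Dk R 0).map
          map_act := fun a x => by
            rw [ContinuousLinearMap.comp_apply, (Dk R 0).map_act, (𝔻.Rk R 0).map_act]; rfl }
        (hproj 0) ((𝔻.X 0).s.comp ((𝔻.Rk R 0).map.comp (Dk R 0).map)) (fun p => ?_)
      exact ds_zero 𝔻.X _
  | succ k ih =>
      refine 𝔻.Rk_succ_spec R (k + 1) ?_ p
      refine lift_left (𝔻.dm (k + 1))
        { map := (𝔻.Rk R (k + 1)).map.comp (Dk R (k + 1)).map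
          map_act := fun a x => by
            rw [ContinuousLinearMap.comp_apply, (Dk R (k + 1)).map_act,
              (𝔻.Rk R (k + 1)).map_act]; rfl }
        (hproj (k + 1)) ((𝔻.X (k + 1)).s.comp ((𝔻.Rk R (k + 1)).map.comp (Dk R (k + 1)).map))
        (fun p => ?_)
      have h1 := ds_succ 𝔻.X k ((𝔻.Rk R (k + 1)).map ((Dk R (k + 1)).map p))
      refine h1.trans ?_
      have h2 : dk 𝔻.X k ((𝔻.Rk R (k + 1)).map ((Dk R (k + 1)).map p)) = 0 := by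
        have h3 := ih ((Dk R (k + 1)).map p)
        refine h3.trans ?_
        rw [DD, map_zero]
        rfl
      rw [h2, map_zero, sub_zero]
      rfl

/-- `R T` as an endomorphism -/
def RT (k : ℕ) : (𝔻.C k).M →L[ℂ] (𝔻.C k).M :=
  ((𝔻.Rk R k).map : (𝔻.ka (Nk R k)).M →L[ℂ] (𝔻.C k).M).comp (𝔻.T R k)

theorem RT_EL (k : ℕ) : EL e (𝔻.RT R k) :=
  EL.comp (M := 𝔻.C k) (M' := 𝔻.ka (Nk R k)) (M'' := 𝔻.C k) (𝔻.Mor_EL' (𝔻.Rk R k)) (𝔻.T_EL R k)

/-- the defect -/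
def fk (k : ℕ) (h : (𝔻.C k).M →L[ℂ] (𝔻.C (k + 1)).M) : (𝔻.C (k + 1)).M →L[ℂ] (𝔻.C (k + 1)).M :=
  ContinuousLinearMap.id ℂ _ - 𝔻.RT R (k + 1) - h.comp (dk 𝔻.X k)

/-- the homotopy -/
def hk : ∀ k, (𝔻.C k).M →L[ℂ] (𝔻.C (k + 1)).M
  | 0 => 0
  | k + 1 => (𝔻.X k).Ex (𝔻.C (k + 2)) ((𝔻.X (k + 1)).s.comp ((𝔻.fk R k (hk k)).comp (𝔻.X k).s))

theorem hk_EL (k : ℕ) : EL e (𝔻.hk R k) := by
  cases k with
  | zero => exact EL_zero e _ _
  | succ k => exact (𝔻.X k).Ex_EL _ _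

theorem fk_EL (k : ℕ) : EL e (𝔻.fk R k (𝔻.hk R k)) :=
  EL.sub (EL.sub (EL_id e _) (𝔻.RT_EL R (k + 1))) (EL.comp (𝔻.hk_EL R k) (dk_EL 𝔻.X k))

theorem dRT (k : ℕ) (x : (𝔻.C (k + 1)).M) :
    dk 𝔻.X k (𝔻.RT R (k + 1) x) = 𝔻.RT R k (dk 𝔻.X k x) := by
  have h1 := 𝔻.dR R k (𝔻.T R (k + 1) x)
  refine h1.trans ?_
  have h2 : (Dk R k).map (𝔻.T R (k + 1) x) = 𝔻.T R k (dk 𝔻.X k x) :=
    congrArg (fun f => f x) (𝔻.DT R k)
  rw [h2]
  rfl

theorem dfk_dhk (k : ℕ) : (∀ x, dk 𝔻.X k (𝔻.fk R k (𝔻.hk R k) x) = 0) ∧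
    ∀ x, dk 𝔻.X (k + 1) (𝔻.hk R (k + 1) x) = 𝔻.fk R k (𝔻.hk R k) x := by
  have key : ∀ k, (∀ x, dk 𝔻.X k (𝔻.fk R k (𝔻.hk R k) x) = 0) →
      ∀ x, dk 𝔻.X (k + 1) (𝔻.hk R (k + 1) x) = 𝔻.fk R k (𝔻.hk R k) x := by
    intro k h0
    have h1 := (𝔻.X k).Ex_comp (𝔻.C (k + 2)) (𝔻.C (k + 1))
      ((𝔻.X (k + 1)).s.comp ((𝔻.fk R k (𝔻.hk R k)).comp (𝔻.X k).s)) (dk 𝔻.X (k + 1))
      (dk_EL 𝔻.X (k + 1))
    have h2 := (𝔻.X k).Ex_comp_s (𝔻.C (k + 1)) (𝔻.fk R k (𝔻.hk R k)) (𝔻.fk_EL R k)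
    have h3 : (dk 𝔻.X (k + 1)).comp
        ((𝔻.X (k + 1)).s.comp ((𝔻.fk R k (𝔻.hk R k)).comp (𝔻.X k).s)) =
        (𝔻.fk R k (𝔻.hk R k)).comp (𝔻.X k).s := by
      ext x
      refine (ds_succ 𝔻.X k _).trans ?_
      have h4 := h0 ((𝔻.X k).s x)
      change 𝔻.fk R k (𝔻.hk R k) ((𝔻.X k).s x) -
        (𝔻.X k).s (dk 𝔻.X k (𝔻.fk R k (𝔻.hk R k) ((𝔻.X k).s x))) = _
      rw [h4, map_zero, sub_zero]
      rfl
    rw [h3, h2] at h1
    intro x
    exact congrArg (fun f => f x) h1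
  have h0 : ∀ k, ∀ x, dk 𝔻.X k (𝔻.fk R k (𝔻.hk R k) x) = 0 := by
    intro k
    induction k with
    | zero =>
        intro x
        rw [fk, _root_.sub_apply, _root_.sub_apply, map_sub, map_sub, dRT]
        have h1 : 𝔻.RT R 0 (dk 𝔻.X 0 x) = dk 𝔻.X 0 x := rfl
        have h2 : ((𝔻.hk R 0).comp (dk 𝔻.X 0)) x = 0 := rfl
        rw [h1, h2, map_zero, ContinuousLinearMap.id_apply, sub_self, sub_zero]
    | succ k ih =>
        intro x
        rw [fk, _root_.sub_apply, _root_.sub_apply, map_sub, map_sub, dRT,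
          ContinuousLinearMap.comp_apply, key k ih, fk, _root_.sub_apply, _root_.sub_apply,
          ContinuousLinearMap.comp_apply, dd, map_zero, ContinuousLinearMap.id_apply,
          ContinuousLinearMap.id_apply]
        abel
  exact ⟨h0 k, key k (h0 k)⟩

/-- the comparison theorem -/
theorem exists_EqSec (n : ℕ) (hn : ∀ k, n < k → Subsingleton (R.P k)) : ∃ k, EqSec 𝔻.X k := by
  refine ⟨n + 2, 𝔻.hk R (n + 2), 𝔻.hk_EL R (n + 2), fun z hz => ?_⟩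
  have hz' : dk 𝔻.X (n + 1) z = 0 := hz
  rw [(𝔻.dfk_dhk R (n + 1)).2 z, fk, _root_.sub_apply, _root_.sub_apply,
    ContinuousLinearMap.comp_apply, hz', map_zero, sub_zero, ContinuousLinearMap.id_apply]
  have h1 : 𝔻.RT R (n + 1 + 1) z = 0 := by
    have h2 : Subsingleton (R.P (n + 1)) := hn (n + 1) (Nat.lt_succ_self n)
    have h3 : 𝔻.T R (n + 2) z = (0 : R.P (n + 1)) :=
      Subsingleton.elim (α := (R.P (n + 1)).carrier) _ _
    change (𝔻.Rk R (n + 2)).map (𝔻.T R (n + 2) z) = 0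
    rw [h3]
    exact map_zero (𝔻.Rk R (n + 2)).map
  rw [h1, sub_zero]

end Data

end

end Pool.Agent.H83.KH
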