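import Pool.Agent.H83.KH.Cx

/-! # Averaging (helper83, for MP_216d05_an) -/

namespace Pool.Agent.H83.KH

open Filter Topology Set InnerProductSpace

noncomputable section

set_option linter.unusedSectionVars false

universe u

variable {H : Type u} [NormedAddCommGroup H] [InnerProductSpace ℂ H] [CompleteSpace H]
variable {I : Type u}

/-- pointwise weak limits -/
theorem exists_weak_limit {V ι : Type*} [NormedAddCommGroup V] [NormedSpace ℂ V] (W : RM H)
    (U : Ultrafilter ι) (T : ι → V → W.D) (hT : ∀ i, IsLinearMap ℂ (T i)) {C : ℝ} (hC0 : 0 ≤ C)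
    (hC : ∀ i v, ‖T i v‖ ≤ C * ‖v‖) :
    ∃ S : V →L[ℂ] W.D, ∀ v y, Tendsto (fun i => RM.ap (T i v) y) U (𝓝 (RM.ap (S v) y)) := by
  have h1 : ∀ v, ∃ S : W.Y →L[ℂ] ℂ, (∀ y, Tendsto (fun i => RM.ap (T i v) y) U (𝓝 (S y))) ∧
      ∀ y, ‖S y‖ ≤ (C * ‖v‖) * ‖y‖ := by
    intro v
    refine exists_limit (U : Filter ι) (fun i y => RM.ap (T i v) y)
      (fun i => ⟨fun _ _ => map_add _ _ _, fun _ _ => map_smul _ _ _⟩) (C * ‖v‖) ?_ ?_
    · intro i y
      exact (RM.norm_ap_le _ _).trans (mul_le_mul_of_nonneg_right (hC i v) (norm_nonneg _))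
    · intro y
      have hcpt : IsCompact (Metric.closedBall (0 : ℂ) ((C * ‖v‖) * ‖y‖)) :=
        isCompact_closedBall _ _
      have hmem : ∀ i, RM.ap (T i v) y ∈ Metric.closedBall (0 : ℂ) ((C * ‖v‖) * ‖y‖) := by
        intro i
        rw [mem_closedBall_zero_iff]
        exact (RM.norm_ap_le _ _).trans (mul_le_mul_of_nonneg_right (hC i v) (norm_nonneg _))
      obtain ⟨w, _, hw⟩ := hcpt.ultrafilter_le_nhds (U.map (fun i => RM.ap (T i v) y)) (by
        rw [le_principal_iff]
        exact Filter.mem_map.2 (Filter.Eventually.of_forall hmem))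
      exact ⟨w, hw⟩
  choose S hS1 hS2 using h1
  refine ⟨LinearMap.mkContinuous
    { toFun := fun v => (show W.D from S v)
      map_add' := fun v w => by
        apply RM.D_ext
        intro y
        refine tendsto_nhds_unique (hS1 (v + w) y) ?_
        simp only [(hT _).map_add, RM.ap_add]
        exact (hS1 v y).add (hS1 w y)
      map_smul' := fun c v => by
        apply RM.D_ext
        intro y
        refine tendsto_nhds_unique (hS1 (c • v) y) ?_
        simp only [(hT _).map_smul, RM.ap_smul]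
        exact (hS1 v y).const_mul c } C (fun v => ?_), fun v y => hS1 v y⟩
  exact RM.norm_D_le (by positivity) (fun y => hS2 v y)

namespace RM

variable (W' W : RM H) (e : HilbertBasis I ℂ H)

/-- the averages -/
def bF (φ : W'.ess e →L[ℂ] W.ess e) (F : Finset I) (u : W'.ess e) : W.ess e :=
  (F.card : ℂ)⁻¹ • ∑ i ∈ F, ∑ j ∈ F, W.ea e (E e i j) (φ (W'.ea e (E e j i) u))

theorem isLinearMap_bF (φ : W'.ess e →L[ℂ] W.ess e) (F : Finset I) :
    IsLinearMap ℂ (W'.bF W e φ F) where
  map_add := fun x y => by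
    simp only [bF, map_add, Finset.sum_add_distrib, smul_add]
  map_smul := fun c x => by
    simp only [bF, map_smul, ← Finset.smul_sum]
    rw [smul_comm]

theorem norm_bF_le [DecidableEq I] {φ : W'.ess e →L[ℂ] W.ess e}
    (hφ : DL e (M := W'.K e) (M' := W.K e) φ) (F : Finset I) (u : W'.ess e) :
    ‖W'.bF W e φ F u‖ ≤ ‖φ‖ * ‖u‖ := by
  rcases F.eq_empty_or_nonempty with h | hne
  · rw [bF, h]; simp; positivity
  have : NeZero F.card := ⟨hne.card_pos.ne'⟩
  set ε : F ≃ Fin F.card := F.equivFin with hε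
  set π : Fin F.card → F → F := fun s i => ε.symm (ε i + s) with hπ
  have hπinj : ∀ s, Function.Injective (π s) := by
    intro s i i' h
    have h1 : ε i + s = ε i' + s := ε.symm.injective h
    exact ε.injective (add_right_cancel h1)
  set x : F → F → W.ess e := fun i j => W.ea e (E e i j) (φ (W'.ea e (E e j i) u)) with hx
  set U : Fin F.card → Op H := fun s => ∑ i : F, (1 : ℂ) • E e (i : I) (π s i : I) with hU
  set V : Fin F.card → Op H := fun s => ∑ i : F, (1 : ℂ) • E e (π s i : I) (i : I) with hV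
  have hU1 : ∀ s, ‖U s‖ ≤ 1 := fun s =>
    norm_sum_E_le e (Finset.univ : Finset F) (p := fun i => (i : I)) (q := fun i => (π s i : I))
      (fun i _ j _ h => Subtype.ext h) (fun i _ j _ h => hπinj s (Subtype.ext h)) _
      (fun _ _ => by simp)
  have hV1 : ∀ s, ‖V s‖ ≤ 1 := fun s =>
    norm_sum_E_le e (Finset.univ : Finset F) (p := fun i => (π s i : I)) (q := fun i => (i : I))
      (fun i _ j _ h => hπinj s (Subtype.ext h)) (fun i _ j _ h => Subtype.ext h) _
      (fun _ _ => by simp)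
  have hφ' : ∀ j x, φ (W'.ea e (E e j j) x) = W.ea e (E e j j) (φ x) := hφ
  have hUV : ∀ s, W.ea e (U s) (φ (W'.ea e (V s) u)) = ∑ i : F, x i (π s i) := by
    intro s
    rw [hU, map_sum, _root_.sum_apply]
    refine Finset.sum_congr rfl (fun i _ => ?_)
    rw [one_smul]
    have h1 : E e (i : I) (π s i : I) = E e (i : I) (π s i : I) * E e (π s i : I) (π s i : I) := by
      rw [E_mul, if_pos rfl]
    rw [h1, ea_mul, ← hφ', ← ea_mul]
    congr 2
    rw [hV, Finset.mul_sum, Finset.sum_eq_single i]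
    · rw [one_smul, E_mul, if_pos rfl]
    · intro i' _ hi'
      rw [one_smul, E_mul, if_neg]
      intro h
      exact hi' (hπinj s (Subtype.ext h)).symm
    · intro h; exact absurd (Finset.mem_univ i) h
  have hsum : ∑ i ∈ F, ∑ j ∈ F, W.ea e (E e i j) (φ (W'.ea e (E e j i) u)) =
      ∑ s, W.ea e (U s) (φ (W'.ea e (V s) u)) := by
    rw [Finset.sum_congr rfl (fun s _ => hUV s)]
    refine Eq.trans ?_ Finset.sum_comm
    rw [← Finset.sum_coe_sort F
      (fun i => ∑ j ∈ F, W.ea e (E e i j) (φ (W'.ea e (E e j i) u)))]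
    refine Finset.sum_congr rfl (fun i _ => ?_)
    rw [← Finset.sum_coe_sort F
      (fun j => W.ea e (E e (i : I) j) (φ (W'.ea e (E e j (i : I)) u)))]
    exact (Equiv.sum_comp ((Equiv.addLeft (ε i)).trans ε.symm) (fun j => x i j)).symm
  rw [bF, hsum, norm_smul, norm_inv, Complex.norm_natCast]
  have h1 : ‖∑ s, W.ea e (U s) (φ (W'.ea e (V s) u))‖ ≤ F.card * (‖φ‖ * ‖u‖) := by
    refine (norm_sum_le _ _).trans ?_
    refine (Finset.sum_le_sum (g := fun _ => ‖φ‖ * ‖u‖) (fun s _ => ?_)).trans ?_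
    · calc ‖W.ea e (U s) (φ (W'.ea e (V s) u))‖ ≤ ‖U s‖ * ‖φ (W'.ea e (V s) u)‖ :=
            W.norm_ea_le e _ _
        _ ≤ 1 * (‖φ‖ * (‖V s‖ * ‖u‖)) := by
            refine mul_le_mul (hU1 s) ?_ (norm_nonneg _) zero_le_one
            exact (φ.le_opNorm _).trans
              (mul_le_mul_of_nonneg_left (W'.norm_ea_le e _ _) (norm_nonneg _))
        _ ≤ 1 * (‖φ‖ * (1 * ‖u‖)) := by
            refine mul_le_mul_of_nonneg_left (mul_le_mul_of_nonneg_left
              (mul_le_mul_of_nonneg_right (hV1 s) (norm_nonneg _)) (norm_nonneg φ)) zero_le_one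
        _ = ‖φ‖ * ‖u‖ := by ring
    · rw [Finset.sum_const, Finset.card_univ, Fintype.card_fin, nsmul_eq_mul]
  have h2 : (0 : ℝ) < F.card := by exact_mod_cast hne.card_pos
  calc (F.card : ℝ)⁻¹ * ‖∑ s, W.ea e (U s) (φ (W'.ea e (V s) u))‖
      ≤ (F.card : ℝ)⁻¹ * (F.card * (‖φ‖ * ‖u‖)) :=
        mul_le_mul_of_nonneg_left h1 (by positivity)
    _ = ‖φ‖ * ‖u‖ := by rw [← mul_assoc, inv_mul_cancel₀ h2.ne', one_mul]

theorem bF_act [DecidableEq I] (φ : W'.ess e →L[ℂ] W.ess e) {F : Finset I} {k l : I}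
    (hk : k ∈ F) (hl : l ∈ F) (u : W'.ess e) :
    W'.bF W e φ F (W'.ea e (E e k l) u) = W.ea e (E e k l) (W'.bF W e φ F u) := by
  rw [bF, bF, map_smul]
  congr 1
  have h1 : ∑ i ∈ F, ∑ j ∈ F, W.ea e (E e i j) (φ (W'.ea e (E e j i) (W'.ea e (E e k l) u))) =
      ∑ j ∈ F, W.ea e (E e k j) (φ (W'.ea e (E e j l) u)) := by
    rw [Finset.sum_eq_single k]
    · refine Finset.sum_congr rfl (fun j _ => ?_)
      rw [← ea_mul, E_mul, if_pos rfl]
    · intro i _ hik
      refine Finset.sum_eq_zero (fun j _ => ?_)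
      rw [← ea_mul, E_mul, if_neg hik, map_zero, _root_.zero_apply, map_zero, map_zero]
    · intro h; exact absurd hk h
  have h2 : W.ea e (E e k l) (∑ i ∈ F, ∑ j ∈ F, W.ea e (E e i j) (φ (W'.ea e (E e j i) u))) =
      ∑ j ∈ F, W.ea e (E e k j) (φ (W'.ea e (E e j l) u)) := by
    rw [map_sum, Finset.sum_eq_single l]
    · rw [map_sum]
      refine Finset.sum_congr rfl (fun j _ => ?_)
      rw [← ea_mul, E_mul, if_pos rfl]
    · intro i _ hil
      rw [map_sum]
      refine Finset.sum_eq_zero (fun j _ => ?_)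
      rw [← ea_mul, E_mul, if_neg (Ne.symm hil), map_zero, _root_.zero_apply]
    · intro h; exact absurd hl h
  rw [h1, h2]

theorem bF_of [DecidableEq I] (φ : W'.ess e →L[ℂ] W.ess e) {F : Finset I} (hF : F.Nonempty)
    {z : W'.ess e} (hz : ∀ i j, φ (W'.ea e (E e i j) z) = W.ea e (E e i j) (φ z)) :
    W'.bF W e φ F z = W.ea e (P e F) (φ z) := by
  rw [bF]
  have h1 : ∀ i ∈ F, ∑ j ∈ F, W.ea e (E e i j) (φ (W'.ea e (E e j i) z)) =
      (F.card : ℂ) • W.ea e (E e i i) (φ z) := by
    intro i _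
    have : ∀ j ∈ F, W.ea e (E e i j) (φ (W'.ea e (E e j i) z)) = W.ea e (E e i i) (φ z) := by
      intro j _
      rw [hz, ← ea_mul, E_mul, if_pos rfl]
    rw [Finset.sum_congr rfl this, Finset.sum_const]
    exact (Nat.cast_smul_eq_nsmul ℂ _ _).symm
  rw [Finset.sum_congr rfl h1, ← Finset.smul_sum, smul_smul, inv_mul_cancel₀, one_smul, P, map_sum,
    _root_.sum_apply]
  exact_mod_cast hF.card_pos.ne'

theorem exists_avg [Nonempty I] {φ : W'.ess e →L[ℂ] W.ess e}
    (hφ : DL e (M := W'.K e) (M' := W.K e) φ) :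
    ∃ b : W'.ess e →L[ℂ] W.ess e, EL e (M := W'.K e) (M' := W.K e) b ∧
      ∀ z, (∀ i j, φ (W'.ea e (E e i j) z) = W.ea e (E e i j) (φ z)) → b z = φ z := by
  classical
  set U : Ultrafilter (Finset I) := Ultrafilter.of atTop with hU
  have hUle : (U : Filter (Finset I)) ≤ atTop := Ultrafilter.of_le _
  obtain ⟨S, hS⟩ := exists_weak_limit (V := W'.ess e) W U
    (fun F u => (W'.bF W e φ F u : W.D))
    (fun F => ⟨fun x y => by
        have := (W'.isLinearMap_bF W e φ F).map_add x y
        exact congrArg Subtype.val this,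
      fun c x => by
        have := (W'.isLinearMap_bF W e φ F).map_smul c x
        exact congrArg Subtype.val this⟩)
    (norm_nonneg φ) (fun F u => W'.norm_bF_le W e hφ F u)
  have hSE : ∀ k l u, S (W'.ea e (E e k l) u) = W.act (E e k l) (S u) := by
    intro k l u
    apply D_ext
    intro y
    refine tendsto_nhds_unique (hS (W'.ea e (E e k l) u) y) ?_
    have h1 := hS u (W.r (E e k l) y)
    refine h1.congr' ?_
    have h2 : ∀ᶠ F in (U : Filter (Finset I)), ({k, l} : Finset I) ≤ F :=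
      hUle (eventually_ge_atTop _)
    filter_upwards [h2] with F hF
    rw [W'.bF_act W e φ (hF (by simp)) (hF (by simp))]
    rfl
  have hmem : ∀ u, S u ∈ W.ess e := by
    intro u
    have h1 : ∀ F, S (W'.ea e (P e F) u) ∈ W.ess e := by
      intro F
      have : S (W'.ea e (P e F) u) = W.act (1 * P e F) (S u) := by
        rw [one_mul, P, map_sum, map_sum, _root_.sum_apply, _root_.sum_apply, map_sum]
        exact Finset.sum_congr rfl (fun i _ => hSE i i u)
      rw [this]
      exact W.act_mul_P_mem 1 F _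
    have h2 : Tendsto (fun F => S (W'.ea e (P e F) u)) atTop (𝓝 (S u)) :=
      (S.continuous.tendsto _).comp (W'.tendsto_ea_P e u)
    exact (W.isClosed_ess e).mem_of_tendsto h2 (Eventually.of_forall h1)
  refine ⟨S.codRestrict _ hmem, ?_, ?_⟩
  · intro i j x
    exact Subtype.ext (hSE i j x)
  · intro z hz
    apply Subtype.ext
    change S z = φ z
    apply D_ext
    intro y
    refine tendsto_nhds_unique (hS z y) ?_
    have h1 : Tendsto (fun F => ap ((W.ea e (P e F) (φ z) : W.ess e) : W.D) y) atTop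
        (𝓝 (ap ((φ z : W.ess e) : W.D) y)) := by
      have h2 : Continuous (fun x : W.ess e => ap (x : W.D) y) := by
        have h3 : Continuous (fun x : W.D => ap x y) :=
          (ContinuousLinearMap.apply ℂ ℂ y).continuous
        exact h3.comp continuous_subtype_val
      exact (h2.tendsto _).comp (W.tendsto_ea_P e (φ z))
    refine (h1.mono_left hUle).congr' ?_
    obtain ⟨i0⟩ := ‹Nonempty I›
    have h2 : ∀ᶠ F in (U : Filter (Finset I)), ({i0} : Finset I) ≤ F :=
      hUle (eventually_ge_atTop _)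
    filter_upwards [h2] with F hF
    rw [W'.bF_of W e φ ⟨i0, hF (by simp)⟩ hz]

end RM

end

end Pool.Agent.H83.KH
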