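import Pool.Agent.H83.KH.Desc
import Pool.Agent.H83.Dim.Ell1

/-! # The base case (helper83, for MP_216d05_an) -/

namespace Pool.Agent.H83.KH

open Filter Topology Set InnerProductSpace

noncomputable section

set_option linter.unusedSectionVars false

universe u

variable {H : Type u} [NormedAddCommGroup H] [InnerProductSpace ℂ H] [CompleteSpace H]
variable {I : Type u}

/-- the action on `ℓ¹(ℕ; H*)` -/
def r0 : Op H →L[ℂ] Dim.Ell ℕ (H →L[ℂ] ℂ) →L[ℂ] Dim.Ell ℕ (H →L[ℂ] ℂ) :=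
  LinearMap.mkContinuous₂
    (LinearMap.mk₂ ℂ (fun (b : Op H) (y : Dim.Ell ℕ (H →L[ℂ] ℂ)) =>
        Dim.Ell.mk (fun n => (y n).comp b) (by
          refine Summable.of_nonneg_of_le (fun n => norm_nonneg _)
            (fun n => (y n).opNorm_comp_le b) ?_
          exact (Dim.Ell.summable y).mul_right _))
      (fun a b y => Dim.Ell.ext (fun n => by
        change (y n).comp (a + b) = (y n).comp a + (y n).comp b
        ext x; simp))
      (fun c a y => Dim.Ell.ext (fun n => by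
        change (y n).comp (c • a) = c • (y n).comp a
        ext x; simp))
      (fun a y y' => Dim.Ell.ext (fun n => by
        change (y n + y' n).comp a = (y n).comp a + (y' n).comp a
        ext x; simp))
      (fun c a y => Dim.Ell.ext (fun n => by
        change (c • y n).comp a = c • (y n).comp a
        ext x; simp))) 1
    (fun b y => by
      rw [one_mul, LinearMap.mk₂_apply, Dim.Ell.norm_eq, Dim.Ell.norm_eq, ← tsum_mul_left]
      refine Summable.tsum_le_tsum (fun n => ?_) ?_ ((Dim.Ell.summable y).mul_left _)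
      · rw [Dim.Ell.mk_apply, mul_comm]
        exact (y n).opNorm_comp_le b
      · refine Summable.of_nonneg_of_le (fun n => norm_nonneg _)
            (fun n => (y n).opNorm_comp_le b) ?_
        exact (Dim.Ell.summable y).mul_right _)

theorem r0_apply (b : Op H) (y : Dim.Ell ℕ (H →L[ℂ] ℂ)) (n : ℕ) : r0 b y n = (y n).comp b := rfl

variable (H) in
/-- the right module `ℓ¹(ℕ; H*)` -/
def Y0 : RM H where
  Y := Dim.Ell ℕ (H →L[ℂ] ℂ)
  r := r0
  r_mul := fun a b y => Dim.Ell.ext (fun n => rfl)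
  r_one := fun y => Dim.Ell.ext (fun n => rfl)
  norm_r := fun b y => by
    rw [Dim.Ell.norm_eq, Dim.Ell.norm_eq, ← tsum_mul_left]
    refine Summable.tsum_le_tsum (fun n => ?_) ?_ ((Dim.Ell.summable y).mul_left _)
    · rw [r0_apply, mul_comm]
      exact (y n).opNorm_comp_le b
    · refine Summable.of_nonneg_of_le (fun n => norm_nonneg _)
          (fun n => (y n).opNorm_comp_le b) ?_
      exact (Dim.Ell.summable y).mul_right _

/-- an element of the module supported at one place -/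
def dl (a : ℕ) (f : H →L[ℂ] ℂ) : (Y0 H).Y := Dim.sgl a f

/-- view an element of the module as a sequence -/
def sq (y : (Y0 H).Y) : Dim.Ell ℕ (H →L[ℂ] ℂ) := y

theorem sq_add (y y' : (Y0 H).Y) (n : ℕ) : sq (y + y') n = sq y n + sq y' n := rfl
theorem sq_smul (c : ℂ) (y : (Y0 H).Y) (n : ℕ) : sq (c • y) n = c • sq y n := rfl
theorem sq_dl (a : ℕ) (f : H →L[ℂ] ℂ) (n : ℕ) : sq (dl a f) n = if n = a then f else 0 :=
  Dim.sgl_apply a f n
theorem sq_r (b : Op H) (y : (Y0 H).Y) (n : ℕ) : sq ((Y0 H).r b y) n = (sq y n).comp b := rfl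

theorem norm_dl (a : ℕ) (f : H →L[ℂ] ℂ) : ‖dl a f‖ = ‖f‖ := Dim.norm_sgl a f

theorem sq_ext {y y' : (Y0 H).Y} (h : ∀ n, sq y n = sq y' n) : y = y' := Dim.Ell.ext h

theorem r_dl (b : Op H) (a : ℕ) (f : H →L[ℂ] ℂ) : (Y0 H).r b (dl a f) = dl a (f.comp b) := by
  apply sq_ext
  intro n
  rw [sq_r, sq_dl, sq_dl]
  split_ifs
  · rfl
  · ext x; simp

theorem dl_smul (a : ℕ) (c : ℂ) (f : H →L[ℂ] ℂ) : dl a (c • f) = c • dl a f :=
  map_smul (Dim.sgl a) c f

theorem dl_zero (a : ℕ) : dl a (0 : H →L[ℂ] ℂ) = 0 := map_zero (Dim.sgl a)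

theorem dl_sum {S : Type*} (s : Finset S) (a : ℕ) (f : S → (H →L[ℂ] ℂ)) :
    dl a (∑ t ∈ s, f t) = ∑ t ∈ s, dl a (f t) := map_sum (Dim.sgl a) f s

theorem norm_sq_le (y : (Y0 H).Y) (n : ℕ) : ‖sq y n‖ ≤ ‖y‖ :=
  lp.norm_apply_le_norm (by norm_num) (sq y) n

theorem sum_norm_sq_le (y : (Y0 H).Y) (s : Finset ℕ) : ∑ n ∈ s, ‖sq y n‖ ≤ ‖y‖ := by
  have h := (Dim.Ell.hasSum_norm (sq y))
  exact sum_le_hasSum s (fun _ _ => norm_nonneg _) h

variable (e : HilbertBasis I ℂ H)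

/-- the elements `e_i ⊗ δ_a` of the dual -/
def xe (i : I) (a : ℕ) : (Y0 H).D :=
  (LinearMap.mkContinuous
    { toFun := fun y : (Y0 H).Y => sq y a (e i)
      map_add' := fun y y' => by rw [sq_add]; rfl
      map_smul' := fun c y => by rw [sq_smul]; rfl } 1 (fun y => by
      change ‖sq y a (e i)‖ ≤ _
      refine ((sq y a).le_opNorm _).trans ?_
      rw [norm_e, mul_one, one_mul]
      exact norm_sq_le y a) : (Y0 H).Y →L[ℂ] ℂ)

@[simp] theorem xe_apply (i : I) (a : ℕ) (y : (Y0 H).Y) : RM.ap (xe e i a) y = sq y a (e i) := rfl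

theorem act_E_xe [DecidableEq I] (k l i : I) (a : ℕ) :
    (Y0 H).act (E e k l) (xe e i a) = if l = i then xe e k a else 0 := by
  apply RM.D_ext
  intro y
  rw [RM.act_apply, xe_apply, sq_r, ContinuousLinearMap.comp_apply, E_e]
  split_ifs
  · rfl
  · rw [map_zero]; rfl

theorem xe_mem (i : I) (a : ℕ) : xe e i a ∈ (Y0 H).ess e := by
  classical
  refine (Y0 H).mem_ess_of_P (F := {i}) ?_
  rw [P, Finset.sum_singleton, act_E_xe, if_pos rfl]

/-- `xe` as an element of the essential part -/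
def xs (i : I) (a : ℕ) : (Y0 H).ess e := ⟨xe e i a, xe_mem e i a⟩

theorem ea_xs [DecidableEq I] (k l i : I) (a : ℕ) :
    (Y0 H).ea e (E e k l) (xs e i a) = if l = i then xs e k a else 0 := by
  apply Subtype.ext
  change (Y0 H).act (E e k l) (xe e i a) = _
  rw [act_E_xe]
  split_ifs <;> rfl

theorem norm_sum_xs_le {S : Type*} [DecidableEq S] (s : Finset S) (i : S → I) (a : S → ℕ)
    (ha : Set.InjOn a s) (lam : S → ℂ) (hl : ∀ t ∈ s, ‖lam t‖ ≤ 1) :
    ‖∑ t ∈ s, lam t • xs e (i t) (a t)‖ ≤ 1 := by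
  classical
  have h0 : ((∑ t ∈ s, lam t • xs e (i t) (a t) : (Y0 H).ess e) : (Y0 H).D) =
      ∑ t ∈ s, lam t • xe e (i t) (a t) := by
    rw [Submodule.coe_sum]; rfl
  have h1 : ‖∑ t ∈ s, lam t • xe e (i t) (a t)‖ ≤ 1 := by
    refine RM.norm_D_le zero_le_one (fun y => ?_)
    rw [RM.ap_sum, one_mul]
    calc ‖∑ t ∈ s, RM.ap (lam t • xe e (i t) (a t)) y‖ ≤ ∑ t ∈ s, ‖sq y (a t)‖ := by
          refine (norm_sum_le _ _).trans (Finset.sum_le_sum (fun t ht => ?_))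
          rw [RM.ap_smul, xe_apply, norm_mul]
          calc ‖lam t‖ * ‖sq y (a t) (e (i t))‖ ≤ 1 * (‖sq y (a t)‖ * ‖e (i t)‖) :=
                mul_le_mul (hl t ht) ((sq y (a t)).le_opNorm _) (norm_nonneg _) zero_le_one
            _ = ‖sq y (a t)‖ := by rw [norm_e, one_mul, mul_one]
      _ = ∑ n ∈ s.image a, ‖sq y n‖ := (Finset.sum_image (f := fun n => ‖sq y n‖) ha).symm
      _ ≤ ‖y‖ := sum_norm_sq_le y _
  calc ‖∑ t ∈ s, lam t • xs e (i t) (a t)‖ = ‖∑ t ∈ s, lam t • xe e (i t) (a t)‖ := by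
        rw [← h0]; rfl
    _ ≤ 1 := h1

theorem norm_sum_cf_le (J : Finset I) (β : I → ℂ) :
    ‖∑ j ∈ J, β j • RM.cf e j‖ ≤ Real.sqrt (∑ j ∈ J, ‖β j‖ ^ 2) := by
  refine ContinuousLinearMap.opNorm_le_bound _ (Real.sqrt_nonneg _) (fun x => ?_)
  rw [_root_.sum_apply]
  calc ‖∑ j ∈ J, (β j • RM.cf e j) x‖ ≤ ∑ j ∈ J, ‖β j‖ * ‖inner ℂ (e j) x‖ := by
        refine (norm_sum_le _ _).trans (le_of_eq ?_)
        refine Finset.sum_congr rfl (fun j _ => ?_)
        rw [_root_.smul_apply, RM.cf_apply, smul_eq_mul, norm_mul]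
    _ ≤ Real.sqrt (∑ j ∈ J, ‖β j‖ ^ 2) *
        Real.sqrt (∑ j ∈ J, ‖inner ℂ (e j) x‖ ^ 2) := Real.sum_mul_le_sqrt_mul_sqrt _ _ _
    _ ≤ Real.sqrt (∑ j ∈ J, ‖β j‖ ^ 2) * ‖x‖ := by
        refine mul_le_mul_of_nonneg_left ?_ (Real.sqrt_nonneg _)
        rw [Real.sqrt_le_left (norm_nonneg _)]
        exact e.orthonormal.sum_inner_products_le x

/-- test elements -/
def tst (i : I) (a : ℕ) (j : I) : ((Y0 H).B e).Y := (Y0 H).gen e (RM.cf e i) j (dl a (RM.cf e j))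

theorem mp_tst (i : I) (a : ℕ) (j : I) (b : Op H) :
    RM.mp (tst e i a j) b = dl a (inner ℂ (e i) (b (e j)) • RM.cf e j) := by
  classical
  rw [tst, RM.mp_gen, r_dl, RM.cf_comp_E, if_pos rfl, RM.cf_apply, dl_smul]

/-- norm of a sum of test elements -/
theorem norm_sum_tst_le {S : Type*} [DecidableEq S] (s : Finset S) (i : S → I) (a : S → ℕ)
    (J : S → Finset I) (lam : S → ℂ) (hl : ∀ t ∈ s, ‖lam t‖ ≤ 1) {Q : ℝ} (hQ : 0 ≤ Q)
    (hq : ∀ b : Op H, ∑ t ∈ s, ∑ j ∈ J t, ‖inner ℂ (e (i t)) (b (e j))‖ ^ 2 ≤ Q * ‖b‖ ^ 2) :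
    ‖∑ t ∈ s, lam t • ∑ j ∈ J t, tst e (i t) (a t) j‖ ≤ Real.sqrt (s.card * Q) := by
  refine (Y0 H).norm_B_le e (Real.sqrt_nonneg _) (fun b => ?_)
  rw [RM.mp_sum]
  set q : S → ℝ := fun t => Real.sqrt (∑ j ∈ J t, ‖inner ℂ (e (i t)) (b (e j))‖ ^ 2) with hq'
  have h1 : ∀ t ∈ s, ‖RM.mp (lam t • ∑ j ∈ J t, tst e (i t) (a t) j) b‖ ≤ 1 * q t := by
    intro t ht
    rw [RM.mp_smul, RM.mp_sum, norm_smul]
    refine mul_le_mul (hl t ht) ?_ (norm_nonneg _) zero_le_one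
    simp only [mp_tst]
    rw [← dl_sum, norm_dl]
    exact norm_sum_cf_le e (J t) (fun j => inner ℂ (e (i t)) (b (e j)))
  calc ‖∑ t ∈ s, RM.mp (lam t • ∑ j ∈ J t, tst e (i t) (a t) j) b‖ ≤ ∑ t ∈ s, 1 * q t :=
        (norm_sum_le _ _).trans (Finset.sum_le_sum h1)
    _ ≤ Real.sqrt (∑ t ∈ s, (1 : ℝ) ^ 2) * Real.sqrt (∑ t ∈ s, q t ^ 2) :=
        Real.sum_mul_le_sqrt_mul_sqrt _ _ _
    _ ≤ Real.sqrt s.card * Real.sqrt (Q * ‖b‖ ^ 2) := by
        rw [one_pow, Finset.sum_const, nsmul_eq_mul, mul_one]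
        refine mul_le_mul_of_nonneg_left (Real.sqrt_le_sqrt ?_) (Real.sqrt_nonneg _)
        have h2 : ∀ t, q t ^ 2 = ∑ j ∈ J t, ‖inner ℂ (e (i t)) (b (e j))‖ ^ 2 := fun t =>
          Real.sq_sqrt (Finset.sum_nonneg (fun _ _ => by positivity))
        simp only [h2]
        exact hq b
    _ = Real.sqrt (s.card * Q) * ‖b‖ := by
        rw [Real.sqrt_mul hQ, Real.sqrt_sq (norm_nonneg _), Real.sqrt_mul (Nat.cast_nonneg _)]
        ring

section sec

variable (σ : (Ck (Y0 H) e 0).M →L[ℂ] (Ck (Y0 H) e 1).M)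

/-- the section as a map of essential parts -/
def sg' : (Y0 H).ess e →L[ℂ] ((Y0 H).B e).ess e := σ

/-- matrix entries -/
def mt (i k : I) (a b : ℕ) (j : I) : ℂ := RM.ap (sg' e σ (xs e i a) : ((Y0 H).B e).D) (tst e k b j)

variable {σ} (hσ : EL e σ)

include hσ

theorem sg'_E (k l : I) (x : (Y0 H).ess e) :
    sg' e σ ((Y0 H).ea e (E e k l) x) = ((Y0 H).B e).ea e (E e k l) (sg' e σ x) := hσ k l x

theorem mt_eq [DecidableEq I] (i k : I) (a b : ℕ) (j : I) : mt e σ i i a b j = mt e σ k k a b j := by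
  have h1 : xs e i a = (Y0 H).ea e (E e i k) (xs e k a) := by rw [ea_xs, if_pos rfl]
  rw [mt, mt, h1, sg'_E e hσ, RM.coe_ea, RM.act_apply, tst, RM.r_gen, RM.cf_comp_E, if_pos rfl]
  rfl

theorem mt_ne [DecidableEq I] {i k : I} (hik : i ≠ k) (a b : ℕ) (j : I) :
    mt e σ i k a b j = 0 := by
  have h1 : xs e i a = (Y0 H).ea e (E e i i) (xs e i a) := by rw [ea_xs, if_pos rfl]
  rw [mt, h1, sg'_E e hσ, RM.coe_ea, RM.act_apply, tst, RM.r_gen, RM.cf_comp_E,
    if_neg (Ne.symm hik), RM.gen_zero, map_zero]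

theorem tendsto_mt (hd : ∀ x, dk (Xk (Y0 H) e) 0 (σ x) = x) (i : I) (a : ℕ) :
    Tendsto (fun F : Finset I => ∑ j ∈ F, mt e σ i i a a j) atTop (𝓝 1) := by
  classical
  have h1 := (Y0 H).tendsto_Ex e ((Y0 H).K e) (ContinuousLinearMap.id ℂ _) (sg' e σ (xs e i a))
  have h2 : (Y0 H).Ex e ((Y0 H).K e) (ContinuousLinearMap.id ℂ _) (sg' e σ (xs e i a)) =
      xs e i a := hd (xs e i a)
  rw [h2] at h1
  have h3 : Continuous (fun x : (Y0 H).ess e => RM.ap (x : (Y0 H).D) (dl a (RM.cf e i))) := by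
    have h3 : Continuous (fun x : (Y0 H).D => RM.ap x (dl a (RM.cf e i))) :=
      (ContinuousLinearMap.apply ℂ ℂ (dl a (RM.cf e i))).continuous
    exact h3.comp continuous_subtype_val
  have h4 := (h3.tendsto (xs e i a)).comp h1
  have h5 : RM.ap ((xs e i a : (Y0 H).ess e) : (Y0 H).D) (dl a (RM.cf e i)) = 1 := by
    change RM.ap (xe e i a) (dl a (RM.cf e i)) = 1
    rw [xe_apply, sq_dl, if_pos rfl, RM.cf_apply, inner_e, if_pos rfl]
  rw [h5] at h4
  refine h4.congr' ?_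
  filter_upwards [eventually_ge_atTop ({i} : Finset I)] with F hF
  set u := sg' e σ (xs e i a) with hu
  change RM.ap (((∑ k ∈ F, ∑ j ∈ F, (Y0 H).ea e (E e k j) ((Y0 H).X e k j (u : ((Y0 H).B e).D)) :
    (Y0 H).ess e) : (Y0 H).ess e) : (Y0 H).D) (dl a (RM.cf e i)) = _
  rw [Submodule.coe_sum, RM.ap_sum, Finset.sum_eq_single i]
  · rw [Submodule.coe_sum, RM.ap_sum]
    refine Finset.sum_congr rfl (fun j _ => ?_)
    rw [RM.coe_ea, RM.act_apply, r_dl, RM.cf_comp_E, if_pos rfl]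
    rfl
  · intro k _ hk
    rw [Submodule.coe_sum, RM.ap_sum]
    refine Finset.sum_eq_zero (fun j _ => ?_)
    rw [RM.coe_ea, RM.act_apply, r_dl, RM.cf_comp_E, if_neg (Ne.symm hk), dl_zero, map_zero]
  · intro h
    exact absurd (hF (by simp)) h

/-- Bound 1 -/
theorem bound1 (ι : ℕ → I) (hι : Function.Injective ι) (S : Finset ℕ) (J : Finset I) :
    ∑ a ∈ S, ‖∑ j ∈ J, mt e σ (ι a) (ι a) a a j‖ ≤
      ‖sg' e σ‖ * Real.sqrt (S.card * J.card) := by
  classical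
  choose lam hl1 hl2 using exists_phase
  set Cc : ℕ → ℂ := fun a => ∑ j ∈ J, mt e σ (ι a) (ι a) a a j with hCc
  set x : (Y0 H).ess e := ∑ a ∈ S, lam (Cc a) • xs e (ι a) a with hx
  set Ψ : ((Y0 H).B e).Y := ∑ b ∈ S, (1 : ℂ) • ∑ j ∈ J, tst e (ι b) b j with hΨ
  have hx1 : ‖x‖ ≤ 1 := norm_sum_xs_le e S ι id (fun _ _ _ _ h => h) _ (fun t _ => hl1 _)
  have hΨ1 : ‖Ψ‖ ≤ Real.sqrt (S.card * J.card) := by
    refine norm_sum_tst_le e S ι id (fun _ => J) _ (fun _ _ => by simp) (Nat.cast_nonneg _)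
      (fun b => ?_)
    rw [Finset.sum_comm]
    have h1 : ∀ j ∈ J, ∑ a ∈ S, ‖inner ℂ (e (ι a)) (b (e j))‖ ^ 2 ≤ ‖b‖ ^ 2 := by
      intro j _
      have h2 := col_sq_le e (S.image ι) b j
      rwa [Finset.sum_image hι.injOn] at h2
    refine (Finset.sum_le_sum h1).trans ?_
    rw [Finset.sum_const, nsmul_eq_mul]
  have hx2 : (sg' e σ x : ((Y0 H).B e).D) =
      ∑ a ∈ S, lam (Cc a) • (sg' e σ (xs e (ι a) a) : ((Y0 H).B e).D) := by
    rw [hx, map_sum, Submodule.coe_sum]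
    refine Finset.sum_congr rfl (fun a _ => ?_)
    rw [map_smul, Submodule.coe_smul]
  have hval : RM.ap (sg' e σ x : ((Y0 H).B e).D) Ψ = ((∑ a ∈ S, ‖Cc a‖ : ℝ) : ℂ) := by
    rw [hx2, RM.ap_sum]
    push_cast
    refine Finset.sum_congr rfl (fun a ha => ?_)
    rw [RM.ap_smul, ← hl2 (Cc a)]
    congr 1
    rw [hΨ, map_sum, Finset.sum_eq_single a]
    · rw [map_smul, one_smul, map_sum]
      rfl
    · intro b _ hb
      rw [one_smul, map_sum]
      refine Finset.sum_eq_zero (fun j _ => ?_)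
      exact mt_ne e hσ (fun h => hb (hι h).symm) a b j
    · intro h; exact absurd ha h
  have h9 : ∑ a ∈ S, ‖Cc a‖ = ‖RM.ap (sg' e σ x : ((Y0 H).B e).D) Ψ‖ := by
    rw [hval, Complex.norm_real, Real.norm_eq_abs,
      abs_of_nonneg (Finset.sum_nonneg (fun _ _ => norm_nonneg _))]
  rw [h9]
  calc ‖RM.ap (sg' e σ x : ((Y0 H).B e).D) Ψ‖ ≤ ‖(sg' e σ x : ((Y0 H).B e).D)‖ * ‖Ψ‖ :=
        RM.norm_ap_le _ _
    _ ≤ (‖sg' e σ‖ * 1) * Real.sqrt (S.card * J.card) := by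
        refine mul_le_mul ?_ hΨ1 (norm_nonneg _) (by positivity)
        exact ((sg' e σ).le_opNorm x).trans (mul_le_mul_of_nonneg_left hx1 (norm_nonneg _))
    _ = _ := by rw [mul_one]

/-- consequence of Bound 1 -/
theorem finite_big [Infinite I] (i : I) (J : Finset I) {δ : ℝ} (hδ : 0 < δ) :
    {a : ℕ | δ ≤ ‖∑ j ∈ J, mt e σ i i a a j‖}.Finite := by
  classical
  by_contra hinf
  obtain ⟨N, hN⟩ := exists_nat_gt ((‖sg' e σ‖ * Real.sqrt J.card / δ) ^ 2)
  obtain ⟨S, hS1, hS2⟩ := (show Set.Infinite _ from hinf).exists_subset_card_eq (N + 1)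
  have h1 := bound1 e hσ (Infinite.natEmbedding I) (Infinite.natEmbedding I).injective S J
  have h2 : (N + 1 : ℝ) * δ ≤ ∑ a ∈ S, ‖∑ j ∈ J, mt e σ (Infinite.natEmbedding I a)
      (Infinite.natEmbedding I a) a a j‖ := by
    have : (N + 1 : ℝ) * δ = ∑ a ∈ S, δ := by
      rw [Finset.sum_const, hS2, nsmul_eq_mul]; push_cast; rfl
    rw [this]
    refine Finset.sum_le_sum (fun a ha => ?_)
    have h3 := hS1 ha
    simp only [Set.mem_ofPred_eq] at h3
    simp only [mt_eq e hσ (Infinite.natEmbedding I a) i]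
    exact h3
  have h3 := h2.trans h1
  rw [hS2] at h3
  push_cast at h3
  rw [Real.sqrt_mul (by positivity)] at h3
  have hN0 : (0 : ℝ) < (N : ℝ) + 1 := by positivity
  have h4 : Real.sqrt (N + 1) * δ ≤ ‖sg' e σ‖ * Real.sqrt J.card := by
    have h5 : Real.sqrt (N + 1) * (Real.sqrt (N + 1) * δ) ≤
        Real.sqrt (N + 1) * (‖sg' e σ‖ * Real.sqrt J.card) := by
      rw [← mul_assoc, Real.mul_self_sqrt hN0.le]
      linarith
    exact le_of_mul_le_mul_left h5 (Real.sqrt_pos.2 hN0)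
  have h5 : Real.sqrt (N + 1) ≤ ‖sg' e σ‖ * Real.sqrt J.card / δ := by
    rw [le_div_iff₀ hδ]; exact h4
  have h6 : (N + 1 : ℝ) ≤ (‖sg' e σ‖ * Real.sqrt J.card / δ) ^ 2 := by
    have := pow_le_pow_left₀ (Real.sqrt_nonneg _) h5 2
    rwa [Real.sq_sqrt hN0.le] at this
  linarith

/-- Bound 2 -/
theorem bound2 (i : I) (K : ℕ) (a : ℕ → ℕ) (ha : Function.Injective a) (J : ℕ → Finset I)
    (hJ : ∀ k l, k ≠ l → Disjoint (J k) (J l)) :
    ‖∑ k ∈ Finset.range K, ∑ j ∈ J k, mt e σ i i (a k) (a k) j‖ ≤ ‖sg' e σ‖ * Real.sqrt K := by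
  classical
  refine norm_diag_le (Finset.range K) (fun k l => ∑ j ∈ J l, mt e σ i i (a k) (a l) j)
    (fun S => ?_)
  set x : (Y0 H).ess e := ∑ k ∈ Finset.range K, sg S k • xs e i (a k) with hx
  set Ψ : ((Y0 H).B e).Y := ∑ l ∈ Finset.range K, sg S l • ∑ j ∈ J l, tst e i (a l) j with hΨ
  have hx1 : ‖x‖ ≤ 1 := norm_sum_xs_le e _ (fun _ => i) a ha.injOn _ (fun t _ => (norm_sg S t).le)
  have hΨ1 : ‖Ψ‖ ≤ Real.sqrt K := by
    have h0 := norm_sum_tst_le e (Finset.range K) (fun _ => i) a J _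
      (fun t _ => (norm_sg S t).le) zero_le_one (fun b => by
        rw [one_mul, ← Finset.sum_biUnion]
        · exact row_sq_le e _ b i
        · intro k _ l _ hkl
          exact hJ k l hkl)
    rwa [Finset.card_range, mul_one] at h0
  have hval : ∑ k ∈ Finset.range K, ∑ l ∈ Finset.range K,
      (sg S k * sg S l) • ∑ j ∈ J l, mt e σ i i (a k) (a l) j =
      RM.ap (sg' e σ x : ((Y0 H).B e).D) Ψ := by
    have hx2 : (sg' e σ x : ((Y0 H).B e).D) =
        ∑ k ∈ Finset.range K, sg S k • (sg' e σ (xs e i (a k)) : ((Y0 H).B e).D) := by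
      rw [hx, map_sum, Submodule.coe_sum]
      refine Finset.sum_congr rfl (fun a _ => ?_)
      rw [map_smul, Submodule.coe_smul]
    rw [hx2, RM.ap_sum]
    refine Finset.sum_congr rfl (fun k _ => ?_)
    rw [RM.ap_smul, hΨ, map_sum, Finset.mul_sum]
    refine Finset.sum_congr rfl (fun l _ => ?_)
    rw [map_smul, map_sum, smul_eq_mul, smul_eq_mul, mul_assoc]
    rfl
  rw [hval]
  calc ‖RM.ap (sg' e σ x : ((Y0 H).B e).D) Ψ‖ ≤ ‖(sg' e σ x : ((Y0 H).B e).D)‖ * ‖Ψ‖ :=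
        RM.norm_ap_le _ _
    _ ≤ (‖sg' e σ‖ * 1) * Real.sqrt K := by
        refine mul_le_mul ?_ hΨ1 (norm_nonneg _) (by positivity)
        exact ((sg' e σ).le_opNorm x).trans (mul_le_mul_of_nonneg_left hx1 (norm_nonneg _))
    _ = _ := by rw [mul_one]

theorem no_section [Infinite I] (hd : ∀ x, dk (Xk (Y0 H) e) 0 (σ x) = x) : False := by
  classical
  obtain ⟨i⟩ : Nonempty I := inferInstance
  -- one step of the construction
  have step : ∀ (J' : Finset I) (A' : Finset ℕ), ∃ (a : ℕ) (J : Finset I), a ∉ A' ∧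
      Disjoint J' J ∧ ‖∑ j ∈ J, mt e σ i i a a j - 1‖ ≤ 1 / 2 := by
    intro J' A'
    have h1 := finite_big e hσ i J' (show (0 : ℝ) < 1 / 4 by norm_num)
    obtain ⟨a, ha⟩ := (h1.union A'.finite_toSet).infinite_compl.nonempty
    rw [mem_compl_iff, mem_union, not_or] at ha
    obtain ⟨ha1, ha2⟩ := ha
    simp only [mem_ofPred_eq, not_le] at ha1
    have h2 := tendsto_mt e hσ hd i a
    rw [Metric.tendsto_nhds] at h2
    obtain ⟨F, hF1, hF2⟩ := ((h2 (1 / 4) (by norm_num)).and (eventually_ge_atTop J')).exists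
    rw [dist_eq_norm] at hF1
    refine ⟨a, F \ J', ha2, Finset.disjoint_sdiff, ?_⟩
    have h3 := Finset.sum_sdiff (f := fun j => mt e σ i i a a j) hF2
    have h4 : ∑ j ∈ F \ J', mt e σ i i a a j - 1 =
        (∑ j ∈ F, mt e σ i i a a j - 1) - ∑ j ∈ J', mt e σ i i a a j := by
      rw [← h3]; ring
    rw [h4]
    refine (norm_sub_le _ _).trans ?_
    linarith
  choose f g hf1 hg1 hg2 using step
  set st : ℕ → Finset I × Finset ℕ := fun k => Nat.rec (∅, ∅)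
    (fun _ p => (p.1 ∪ g p.1 p.2, insert (f p.1 p.2) p.2)) k with hst
  have hst1 : ∀ k, (st (k + 1)).1 = (st k).1 ∪ g (st k).1 (st k).2 := fun k => rfl
  have hst2 : ∀ k, (st (k + 1)).2 = insert (f (st k).1 (st k).2) (st k).2 := fun k => rfl
  have hm1 : Monotone (fun k => (st k).1) := monotone_nat_of_le_succ (fun k => by
    rw [hst1]; exact Finset.subset_union_left)
  have hm2 : Monotone (fun k => (st k).2) := monotone_nat_of_le_succ (fun k => by
    rw [hst2]; exact Finset.subset_insert _ _)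
  set a : ℕ → ℕ := fun k => f (st k).1 (st k).2 with ha
  set J : ℕ → Finset I := fun k => g (st k).1 (st k).2 with hJ
  have hlt1 : ∀ k l, k < l → Disjoint (J k) (J l) := by
    intro k l hkl
    refine Finset.disjoint_of_subset_left ?_ (hg1 (st l).1 (st l).2)
    refine Finset.Subset.trans ?_ (hm1 (Nat.succ_le_of_lt hkl))
    change _ ⊆ (st (k + 1)).1
    rw [hst1]
    exact Finset.subset_union_right
  have hlt2 : ∀ k l, k < l → a k ≠ a l := by
    intro k l hkl h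
    have h1 : a k ∈ (st l).2 := by
      refine hm2 (Nat.succ_le_of_lt hkl) ?_
      change a k ∈ (st (k + 1)).2
      rw [hst2]
      exact Finset.mem_insert_self _ _
    rw [h] at h1
    exact hf1 (st l).1 (st l).2 h1
  have hainj : Function.Injective a := by
    intro k l h
    by_contra hne
    rcases lt_or_gt_of_ne hne with h1 | h1
    · exact hlt2 k l h1 h
    · exact hlt2 l k h1 h.symm
  obtain ⟨K, hK⟩ := exists_nat_gt ((2 * ‖sg' e σ‖) ^ 2)
  have hK0 : (0 : ℝ) < K := lt_of_le_of_lt (sq_nonneg _) hK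
  have h1 := bound2 e hσ i K a hainj J (fun k l hkl => by
    rcases lt_or_gt_of_ne hkl with h | h
    · exact hlt1 k l h
    · exact (hlt1 l k h).symm)
  have h2 : (K : ℝ) / 2 ≤ ‖∑ k ∈ Finset.range K, ∑ j ∈ J k, mt e σ i i (a k) (a k) j‖ := by
    have h3 : ‖(∑ k ∈ Finset.range K, ∑ j ∈ J k, mt e σ i i (a k) (a k) j) - (K : ℂ)‖ ≤
        K * (1 / 2) := by
      have h4 : (∑ k ∈ Finset.range K, ∑ j ∈ J k, mt e σ i i (a k) (a k) j) - (K : ℂ) =
          ∑ k ∈ Finset.range K, (∑ j ∈ J k, mt e σ i i (a k) (a k) j - 1) := by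
        rw [Finset.sum_sub_distrib, Finset.sum_const, Finset.card_range, nsmul_eq_mul, mul_one]
      rw [h4]
      refine (norm_sum_le _ _).trans ?_
      refine (Finset.sum_le_sum (fun k _ => hg2 (st k).1 (st k).2)).trans ?_
      rw [Finset.sum_const, Finset.card_range, nsmul_eq_mul]
    have h5 : ‖(K : ℂ)‖ ≤ ‖∑ k ∈ Finset.range K, ∑ j ∈ J k, mt e σ i i (a k) (a k) j‖ +
        ‖(∑ k ∈ Finset.range K, ∑ j ∈ J k, mt e σ i i (a k) (a k) j) - (K : ℂ)‖ := by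
      have h6 := norm_sub_le (∑ k ∈ Finset.range K, ∑ j ∈ J k, mt e σ i i (a k) (a k) j)
        ((∑ k ∈ Finset.range K, ∑ j ∈ J k, mt e σ i i (a k) (a k) j) - (K : ℂ))
      rwa [sub_sub_cancel] at h6
    rw [Complex.norm_natCast] at h5
    linarith
  have h3 : Real.sqrt K * (1 / 2) ≤ ‖sg' e σ‖ := by
    have h4 : Real.sqrt K * (Real.sqrt K * (1 / 2)) ≤ Real.sqrt K * ‖sg' e σ‖ := by
      rw [← mul_assoc, Real.mul_self_sqrt hK0.le]
      linarith
    exact le_of_mul_le_mul_left h4 (Real.sqrt_pos.2 hK0)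
  have h4 : Real.sqrt K ≤ 2 * ‖sg' e σ‖ := by linarith
  have h5 : (K : ℝ) ≤ (2 * ‖sg' e σ‖) ^ 2 := by
    have := pow_le_pow_left₀ (Real.sqrt_nonneg _) h4 2
    rwa [Real.sq_sqrt hK0.le] at this
  linarith

end sec

theorem not_EqSec [Infinite I] (k : ℕ) : ¬ EqSec (Xk (Y0 H) e) k := by
  intro h
  obtain ⟨σ, hσ, hσ2⟩ := EqSec_zero (Y0 H) e k h
  exact no_section e hσ (fun x => hσ2 x trivial)

end

end Pool.Agent.H83.KH
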