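import Mathlib

/-! # The Banach algebra of compact operators (helper83, for MP_216d05_an) -/

namespace Pool.Agent.H83.KH

noncomputable section

universe u

variable (H : Type u) [NormedAddCommGroup H] [InnerProductSpace ℂ H]

/-- The algebra `K(H)` of compact operators on `H`, as a subalgebra of `B(H)`. -/
def compacts : NonUnitalSubalgebra ℂ (H →L[ℂ] H) where
  carrier := {T | IsCompactOperator T}
  add_mem' := fun hS hT => hS.add hT
  zero_mem' := isCompactOperator_zero
  mul_mem' := fun {_ T} hS _ => hS.comp_clm T
  smul_mem' := fun c _ hT => hT.smul c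

/-- `K(H)` as a type, with the operator norm and the composition of operators -/
def Kc : Type u := ↥(compacts H)

variable {H} in
/-- the operator given by an element of `K(H)` -/
def Kc.op (x : Kc H) : H →L[ℂ] H := (show ↥(compacts H) from x).1

instance : NonUnitalNormedRing (Kc H) := inferInstanceAs (NonUnitalNormedRing ↥(compacts H))

/-- `K(H)` with the operator norm is a normed space -/
instance : NormedSpace ℂ (Kc H) where
  toModule := inferInstanceAs (Module ℂ ↥(compacts H))
  norm_smul_le := fun c x => norm_smul_le c (x.op : H →L[ℂ] H)

instance : IsScalarTower ℂ (Kc H) (Kc H) := inferInstanceAs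
  (IsScalarTower ℂ ↥(compacts H) ↥(compacts H))

instance : SMulCommClass ℂ (Kc H) (Kc H) := inferInstanceAs
  (SMulCommClass ℂ ↥(compacts H) ↥(compacts H))

instance [CompleteSpace H] : CompleteSpace (Kc H) := by
  have h : IsClosed (compacts H : Set (H →L[ℂ] H)) := by
    have := isClosed_setOfPred_isCompactOperator (σ₁₂ := RingHom.id ℂ) (M₁ := H) (M₂ := H)
    exact this
  exact h.completeSpace_coe

end

end Pool.Agent.H83.KH
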