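import Pool.Agent.H83.KH.Rnp
import Pool.Agent.H83.KH.Kalg

/-! # The algebra of compact operators (helper83, for MP_216d05_an) -/

namespace Pool.Agent.H83.KH

open Filter Topology Set InnerProductSpace

noncomputable section

set_option linter.unusedSectionVars false

universe u

section alg

variable (H : Type u) [NormedAddCommGroup H] [InnerProductSpace ℂ H]

/-- inclusion of the compact operators -/
def inc : Kc H →L[ℂ] Op H :=
  LinearMap.mkContinuous
    { toFun := fun x => x.op
      map_add' := fun _ _ => rfl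
      map_smul' := fun _ _ => rfl } 1 (fun x => by rw [one_mul]; rfl)

end alg

variable {H : Type u} [NormedAddCommGroup H] [InnerProductSpace ℂ H]
variable {I : Type u}

theorem Kc.ext' {x y : Kc H} (h : x.op = y.op) : x = y := Subtype.ext h

@[simp] theorem inc_apply (x : Kc H) : inc H x = x.op := rfl

theorem norm_inc_le : ‖inc H‖ ≤ 1 := LinearMap.mkContinuous_norm_le _ zero_le_one _

theorem norm_op (x : Kc H) : ‖x.op‖ = ‖x‖ := rfl

@[simp] theorem op_mul (x y : Kc H) : (x * y).op = x.op * y.op := rfl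
@[simp] theorem op_add (x y : Kc H) : (x + y).op = x.op + y.op := rfl
@[simp] theorem op_smul (c : ℂ) (x : Kc H) : (c • x).op = c • x.op := rfl
@[simp] theorem op_zero : (0 : Kc H).op = 0 := rfl

theorem isCompactOperator_rankOne (v w : H) : IsCompactOperator (rankOne ℂ v w : H →L[ℂ] H) := by
  have h1 : IsCompactOperator (innerSL ℂ w : H →L[ℂ] ℂ) :=
    (isCompactOperator_id (E := ℂ)).comp_clm (innerSL ℂ w)
  exact h1.clm_comp (ContinuousLinearMap.toSpanSingleton ℂ v)

variable (e : HilbertBasis I ℂ H)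

theorem mul_E_mem (b : Op H) (i j : I) : b * E e i j ∈ compacts H := by
  rw [mul_E]
  exact isCompactOperator_rankOne _ _

theorem E_mem (i j : I) : E e i j ∈ compacts H := isCompactOperator_rankOne _ _

/-- matrix units as compact operators -/
def kE (i j : I) : Kc H := (⟨E e i j, E_mem e i j⟩ : ↥(compacts H))

/-- `b E_ij` as a compact operator -/
def kb (b : Op H) (i j : I) : Kc H := (⟨b * E e i j, mul_E_mem e b i j⟩ : ↥(compacts H))

@[simp] theorem op_kE (i j : I) : (kE e i j).op = E e i j := rfl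
@[simp] theorem op_kb (b : Op H) (i j : I) : (kb e b i j).op = b * E e i j := rfl

theorem kE_mul [DecidableEq I] (i j k l : I) :
    kE e i j * kE e k l = if j = k then kE e i l else 0 := by
  apply Kc.ext'
  rw [op_mul, op_kE, op_kE, E_mul]
  split_ifs <;> rfl

theorem op_sum {S : Type*} (s : Finset S) (x : S → Kc H) :
    (∑ t ∈ s, x t : Kc H).op = ∑ t ∈ s, (x t).op :=
  map_sum (inc H) x s

/-! ### sign averaging -/

/-- signs -/
def sg [DecidableEq I] (S : Finset I) (j : I) : ℂ := if j ∈ S then 1 else -1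

theorem sg_mul_self [DecidableEq I] (S : Finset I) (j : I) : sg S j * sg S j = 1 := by
  rw [sg]; split_ifs <;> simp

theorem norm_sg [DecidableEq I] (S : Finset I) (j : I) : ‖sg S j‖ = 1 := by
  rw [sg]; split_ifs <;> simp

theorem sum_sg [DecidableEq I] (F : Finset I) {j l : I} (hj : j ∈ F) (hjl : j ≠ l) :
    ∑ S ∈ F.powerset, sg S j * sg S l = 0 := by
  refine Finset.sum_involution (fun S _ => symmDiff S {j}) ?_ ?_ ?_ ?_
  · intro S _
    have h1 : sg (symmDiff S {j}) j = - sg S j := by
      rw [sg, sg]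
      by_cases h : j ∈ S
      · rw [if_pos h, if_neg]
        simp [Finset.mem_symmDiff, h]
      · rw [if_neg h, if_pos]
        · simp
        · simp [Finset.mem_symmDiff, h]
    have h2 : sg (symmDiff S {j}) l = sg S l := by
      rw [sg, sg]
      congr 1
      simp [Finset.mem_symmDiff, Ne.symm hjl]
    rw [h1, h2]; ring
  · intro S _ _ h
    have h3 : j ∈ symmDiff S {j} ↔ j ∈ S := by rw [h]
    simp [Finset.mem_symmDiff] at h3
  · intro S hS
    rw [Finset.mem_powerset] at hS ⊢
    intro x hx
    rw [Finset.mem_symmDiff, Finset.mem_singleton] at hx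
    rcases hx with ⟨h, _⟩ | ⟨h, _⟩
    · exact hS h
    · rw [h]; exact hj
  · intro S _
    rw [symmDiff_assoc, symmDiff_self]
    simp

theorem sum_sg' [DecidableEq I] (F : Finset I) {j l : I} (hj : j ∈ F) :
    ∑ S ∈ F.powerset, sg S j * sg S l = if j = l then (2 : ℂ) ^ F.card else 0 := by
  split_ifs with h
  · subst h
    simp only [sg_mul_self]
    rw [Finset.sum_const, Finset.card_powerset]
    simp
  · exact sum_sg F hj h

theorem sign_avg [DecidableEq I] {M : Type*} [AddCommGroup M] [Module ℂ M] (F : Finset I)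
    (b : I → I → M) :
    ∑ S ∈ F.powerset, ∑ j ∈ F, ∑ l ∈ F, (sg S j * sg S l) • b j l =
      ((2 : ℂ) ^ F.card) • ∑ j ∈ F, b j j := by
  rw [Finset.sum_comm]
  rw [Finset.smul_sum]
  refine Finset.sum_congr rfl (fun j hj => ?_)
  rw [Finset.sum_comm]
  simp only [← Finset.sum_smul]
  rw [Finset.sum_eq_single j]
  · rw [sum_sg' F hj, if_pos rfl]
  · intro l _ hl
    rw [sum_sg' F hj, if_neg (Ne.symm hl), zero_smul]
  · intro h; exact absurd hj h

/-- the consequence used: a bound for all signs gives a bound for the diagonal -/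
theorem norm_diag_le [DecidableEq I] {M : Type*} [NormedAddCommGroup M] [NormedSpace ℂ M]
    (F : Finset I) (b : I → I → M) {C : ℝ}
    (h : ∀ S : Finset I, ‖∑ j ∈ F, ∑ l ∈ F, (sg S j * sg S l) • b j l‖ ≤ C) :
    ‖∑ j ∈ F, b j j‖ ≤ C := by
  have h1 := sign_avg F b
  have h2 : ‖((2 : ℂ) ^ F.card) • ∑ j ∈ F, b j j‖ ≤ 2 ^ F.card * C := by
    rw [← h1]
    refine (norm_sum_le _ _).trans ?_
    refine (Finset.sum_le_sum (fun S _ => h S)).trans ?_
    rw [Finset.sum_const, Finset.card_powerset, nsmul_eq_mul]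
    push_cast
    exact le_rfl
  rw [norm_smul, norm_pow, Complex.norm_ofNat] at h2
  exact le_of_mul_le_mul_left h2 (by positivity)

/-- diagonal sign operators -/
def Dg [DecidableEq I] (F S : Finset I) : Op H := ∑ j ∈ F, sg S j • E e j j

theorem norm_Dg_le [DecidableEq I] (F S : Finset I) : ‖Dg e F S‖ ≤ 1 :=
  norm_sum_E_le e F (p := id) (q := id) (injOn_id _) (injOn_id _) _ (fun j _ => (norm_sg S j).le)

end

end Pool.Agent.H83.KH
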