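import Pool.Agent.H83.KH.Ext3

/-! # The complex (helper83, for MP_216d05_an) -/

namespace Pool.Agent.H83.KH

open Filter Topology Set InnerProductSpace

noncomputable section

set_option linter.unusedSectionVars false

universe u

variable {H : Type u} [NormedAddCommGroup H] [InnerProductSpace ℂ H] [CompleteSpace H]
variable {I : Type u}

/-- an extension system: the abstract properties of the extension operator -/
structure ES (e : HilbertBasis I ℂ H) (K0 K1 : KM H) where
  /-- the linear map `s` -/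
  s : K0.M →L[ℂ] K1.M
  s_DL : DL e s
  /-- the extension operator -/
  Ex : ∀ M : KM H, (K0.M →L[ℂ] M.M) → (K1.M →L[ℂ] M.M)
  Ex_EL : ∀ (M : KM H) (g : K0.M →L[ℂ] M.M), EL e (Ex M g)
  Ex_comp : ∀ (M M' : KM H) (g : K0.M →L[ℂ] M.M) (f : M.M →L[ℂ] M'.M), EL e f →
    f.comp (Ex M g) = Ex M' (f.comp g)
  Ex_comp_s : ∀ (M : KM H) (f : K1.M →L[ℂ] M.M), EL e f → Ex M (f.comp s) = f
  Ex_s : ∀ (M : KM H) (g : K0.M →L[ℂ] M.M), DL e g → ∀ x, Ex M g (s x) = g x

/-- the extension system of a right module -/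
def RM.es (W : RM H) (e : HilbertBasis I ℂ H) : ES e (W.K e) ((W.B e).K e) where
  s := W.s e
  s_DL := W.s_DL e
  Ex := W.Ex e
  Ex_EL := W.Ex_EL e
  Ex_comp := W.Ex_comp e
  Ex_comp_s := W.Ex_comp_s e
  Ex_s := W.Ex_s e

section cx

variable (e : HilbertBasis I ℂ H) (C : ℕ → KM H) (X : ∀ k, ES e (C k) (C (k + 1)))

theorem EL_zero (M M' : KM H) : EL e (0 : M.M →L[ℂ] M'.M) := by
  intro i j x
  rw [_root_.zero_apply, _root_.zero_apply, map_zero]

variable {e} in
theorem ES.Ex_zero {K0 K1 : KM H} (S : ES e K0 K1) (M : KM H) : S.Ex M 0 = 0 := by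
  have h := S.Ex_comp_s M 0 (EL_zero e K1 M)
  rwa [ContinuousLinearMap.zero_comp] at h

variable {e C}

/-- the boundary maps -/
def dk : ∀ k : ℕ, (C (k + 1)).M →L[ℂ] (C k).M
  | 0 => (X 0).Ex (C 0) (ContinuousLinearMap.id ℂ _)
  | k + 1 => (X (k + 1)).Ex (C (k + 1)) (ContinuousLinearMap.id ℂ _ - (X k).s.comp (dk k))

theorem dk_EL (k : ℕ) : EL e (dk X k) := by
  cases k with
  | zero => exact (X 0).Ex_EL (C 0) _
  | succ k => exact (X (k + 1)).Ex_EL (C (k + 1)) _

theorem ds_zero (x : (C 0).M) : dk X 0 ((X 0).s x) = x :=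
  (X 0).Ex_s (C 0) _ (EL_id e _).DL x

theorem ds_succ (k : ℕ) (x : (C (k + 1)).M) :
    dk X (k + 1) ((X (k + 1)).s x) = x - (X k).s (dk X k x) :=
  (X (k + 1)).Ex_s (C (k + 1)) _ (DL.sub (EL_id e _).DL (DL.comp (X k).s_DL (dk_EL X k).DL)) x

theorem dd' (k : ℕ) : (dk X k).comp (dk X (k + 1)) = 0 := by
  induction k with
  | zero =>
      have h1 := (X 1).Ex_comp (C 1) (C 0)
        (ContinuousLinearMap.id ℂ _ - (X 0).s.comp (dk X 0)) (dk X 0) (dk_EL X 0)
      refine h1.trans ?_
      refine Eq.trans ?_ ((X 1).Ex_zero (C 0))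
      congr 1
      ext x
      rw [ContinuousLinearMap.comp_apply, _root_.sub_apply, map_sub,
        ContinuousLinearMap.comp_apply, ds_zero]
      exact sub_self _
  | succ k ih =>
      have h1 := (X (k + 2)).Ex_comp (C (k + 2)) (C (k + 1))
        (ContinuousLinearMap.id ℂ _ - (X (k + 1)).s.comp (dk X (k + 1))) (dk X (k + 1))
          (dk_EL X (k + 1))
      refine h1.trans ?_
      refine Eq.trans ?_ ((X (k + 2)).Ex_zero (C (k + 1)))
      congr 1
      ext x
      rw [ContinuousLinearMap.comp_apply, _root_.sub_apply, map_sub,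
        ContinuousLinearMap.comp_apply, ds_succ, ContinuousLinearMap.id_apply]
      have h2 : dk X k (dk X (k + 1) x) = 0 := congrArg (fun f => f x) ih
      rw [h2, map_zero, sub_zero, sub_self]
      rfl

theorem dd (k : ℕ) (x : (C (k + 2)).M) : dk X k (dk X (k + 1) x) = 0 :=
  congrArg (fun f => f x) (dd' X k)

/-! ### sections of the complex -/

/-- cycles -/
def Cyc : ∀ k : ℕ, (C k).M → Prop
  | 0 => fun _ => True
  | k + 1 => fun z => dk X k z = 0

/-- there is a module map which is a section of `d_k` on the cycles -/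
def EqSec (k : ℕ) : Prop :=
  ∃ σ : (C k).M →L[ℂ] (C (k + 1)).M, EL e σ ∧ ∀ z, Cyc X k z → dk X k (σ z) = z

/-- the projection `d_k s_k` onto the cycles -/
def pk (k : ℕ) : (C k).M →L[ℂ] (C k).M := (dk X k).comp (X k).s

theorem pk_DL (k : ℕ) : DL e (pk X k) := DL.comp (dk_EL X k).DL (X k).s_DL

theorem cyc_pk (k : ℕ) (x : (C k).M) : Cyc X k (pk X k x) := by
  cases k with
  | zero => trivial
  | succ k => exact dd X k _

theorem pk_of_cyc {k : ℕ} {z : (C k).M} (h : Cyc X k z) : pk X k z = z := by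
  cases k with
  | zero => exact ds_zero X z
  | succ k =>
      change dk X (k + 1) ((X (k + 1)).s z) = z
      have h' : dk X k z = 0 := h
      rw [ds_succ, h', map_zero, sub_zero]

theorem cyc_act {k : ℕ} {z : (C k).M} (h : Cyc X k z) (i j : I) :
    Cyc X k ((C k).act (kE e i j) z) := by
  cases k with
  | zero => trivial
  | succ k =>
      have h' : dk X k z = 0 := h
      change dk X k _ = 0
      rw [dk_EL X k i j z, h', map_zero]

end cx

end

end Pool.Agent.H83.KH
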