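import Pool.Agent.H83.KH.Avg

/-! # Descent (helper83, for MP_216d05_an) -/

namespace Pool.Agent.H83.KH

open Filter Topology Set InnerProductSpace

noncomputable section

set_option linter.unusedSectionVars false

universe u

variable {H : Type u} [NormedAddCommGroup H] [InnerProductSpace ℂ H] [CompleteSpace H]
variable {I : Type u}

variable (Y0 : RM H) (e : HilbertBasis I ℂ H)

/-- the iterated right modules -/
def Yk : ℕ → RM H
  | 0 => Y0
  | k + 1 => (Yk k).B e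

/-- the modules of the complex -/
def Ck (k : ℕ) : KM H := (Yk Y0 e k).K e

/-- the extension systems of the complex -/
def Xk (k : ℕ) : ES e (Ck Y0 e k) (Ck Y0 e (k + 1)) := (Yk Y0 e k).es e

theorem avg_Ck [Nonempty I] (k : ℕ) {φ : (Ck Y0 e k).M →L[ℂ] (Ck Y0 e (k + 1)).M}
    (hφ : DL e φ) : ∃ b : (Ck Y0 e k).M →L[ℂ] (Ck Y0 e (k + 1)).M, EL e b ∧
      ∀ z, (∀ i j, φ ((Ck Y0 e k).act (kE e i j) z) = (Ck Y0 e (k + 1)).act (kE e i j) (φ z)) →
        b z = φ z :=
  (Yk Y0 e k).exists_avg (Yk Y0 e (k + 1)) e (φ := φ) hφ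

theorem EqSec_desc [Nonempty I] (k : ℕ) (h : EqSec (Xk Y0 e) (k + 1)) : EqSec (Xk Y0 e) k := by
  obtain ⟨σ, hσ, hσ2⟩ := h
  set X := Xk Y0 e with hX
  set τ : (Ck Y0 e k).M →L[ℂ] (Ck Y0 e (k + 1)).M :=
    (X k).s - (dk X (k + 1)).comp (σ.comp (X k).s) with hτ
  set φ : (Ck Y0 e k).M →L[ℂ] (Ck Y0 e (k + 1)).M := τ.comp (pk X k) with hφ
  have hφDL : DL e φ := by
    refine DL.comp (DL.sub (X k).s_DL ?_) (pk_DL X k)
    exact DL.comp (dk_EL X (k + 1)).DL (DL.comp hσ.DL (X k).s_DL)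
  have hτE : ∀ z, Cyc X k z → ∀ i j, τ ((Ck Y0 e k).act (kE e i j) z) =
      (Ck Y0 e (k + 1)).act (kE e i j) (τ z) := by
    intro z hz i j
    set w := (X k).s ((Ck Y0 e k).act (kE e i j) z) -
      (Ck Y0 e (k + 1)).act (kE e i j) ((X k).s z) with hw
    have h1 : dk X k w = 0 := by
      rw [hw, map_sub]
      have h2 : dk X k ((X k).s ((Ck Y0 e k).act (kE e i j) z)) =
        (Ck Y0 e k).act (kE e i j) z := pk_of_cyc X (cyc_act X hz i j)
      have h3 : dk X k ((X k).s z) = z := pk_of_cyc X hz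
      rw [h2, dk_EL X k i j, h3, sub_self]
    have h2 : dk X (k + 1) (σ w) = w := hσ2 w h1
    have h3 : (X k).s ((Ck Y0 e k).act (kE e i j) z) =
        w + (Ck Y0 e (k + 1)).act (kE e i j) ((X k).s z) := by rw [hw]; abel
    rw [hτ, _root_.sub_apply, _root_.sub_apply, ContinuousLinearMap.comp_apply,
      ContinuousLinearMap.comp_apply, ContinuousLinearMap.comp_apply,
      ContinuousLinearMap.comp_apply, h3, map_add, map_add, h2, hσ i j, dk_EL X (k + 1) i j,
      map_sub]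
    abel
  obtain ⟨b, hb1, hb2⟩ := avg_Ck Y0 e k hφDL
  refine ⟨b, hb1, fun z hz => ?_⟩
  have h1 : ∀ z, Cyc X k z → φ z = τ z := fun z hz => congrArg τ (pk_of_cyc X hz)
  have h2 : b z = φ z := by
    refine hb2 z (fun i j => ?_)
    rw [h1 _ (cyc_act X hz i j), hτE z hz i j, ← h1 z hz]
  rw [h2, h1 z hz, hτ, _root_.sub_apply, map_sub, ContinuousLinearMap.comp_apply,
    dd, sub_zero]
  exact pk_of_cyc X hz

theorem EqSec_zero [Nonempty I] (k : ℕ) (h : EqSec (Xk Y0 e) k) : EqSec (Xk Y0 e) 0 := by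
  induction k with
  | zero => exact h
  | succ k ih => exact ih (EqSec_desc Y0 e k h)

end

end Pool.Agent.H83.KH
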