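import Pool.Agent.H83.KH.RM

/-! # Column truncations converge on essential elements (helper83, for MP_216d05_an) -/

namespace Pool.Agent.H83.KH

open Filter Topology Set InnerProductSpace

noncomputable section

set_option linter.unusedSectionVars false

universe u

variable {H : Type u} [NormedAddCommGroup H] [InnerProductSpace ℂ H]
variable {I : Type u}

/-- the row estimate -/
theorem norm_E_mul_P_le (e : HilbertBasis I ℂ H) (a : Op H) (i : I) (J : Finset I) :
    ‖E e i i * a * P e J‖ ≤ Real.sqrt (∑ j ∈ J, ‖inner ℂ (e i) (a (e j))‖ ^ 2) := by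
  refine ContinuousLinearMap.opNorm_le_bound _ (Real.sqrt_nonneg _) (fun x => ?_)
  have h1 : (E e i i * a * P e J) x =
      (∑ j ∈ J, inner ℂ (e j) x * inner ℂ (e i) (a (e j))) • e i := by
    change inner ℂ (e i) (a (P e J x)) • e i = _
    rw [P_apply, map_sum, inner_sum]
    congr 1
    refine Finset.sum_congr rfl (fun j _ => ?_)
    rw [map_smul, inner_smul_right]
  rw [h1, norm_smul, norm_e, mul_one]
  calc ‖∑ j ∈ J, inner ℂ (e j) x * inner ℂ (e i) (a (e j))‖
      ≤ ∑ j ∈ J, ‖inner ℂ (e i) (a (e j))‖ * ‖inner ℂ (e j) x‖ := by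
        refine (norm_sum_le _ _).trans (le_of_eq ?_)
        refine Finset.sum_congr rfl (fun j _ => ?_)
        rw [norm_mul, mul_comm]
    _ ≤ Real.sqrt (∑ j ∈ J, ‖inner ℂ (e i) (a (e j))‖ ^ 2) *
        Real.sqrt (∑ j ∈ J, ‖inner ℂ (e j) x‖ ^ 2) := Real.sum_mul_le_sqrt_mul_sqrt _ _ _
    _ ≤ Real.sqrt (∑ j ∈ J, ‖inner ℂ (e i) (a (e j))‖ ^ 2) * ‖x‖ := by
        refine mul_le_mul_of_nonneg_left ?_ (Real.sqrt_nonneg _)
        rw [Real.sqrt_le_left (norm_nonneg _)]
        exact e.orthonormal.sum_inner_products_le x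

namespace RM

variable (W : RM H) (e : HilbertBasis I ℂ H)

/-- column truncation -/
def cB (J : Finset I) : (W.B e).Y →L[ℂ] (W.B e).Y :=
  LinearMap.mkContinuous
    { toFun := fun ψ => (⟨(W.r (P e J)).comp (mp ψ), by
        classical
        induction ψ using B_induction with
        | h1 f j y =>
            have : (W.r (P e J)).comp (mp (W.gen e f j y)) =
                if j ∈ J then W.psi e f j y else 0 := by
              apply Z_ext
              intro a
              change W.r (P e J) (mp (W.gen e f j y) a) = _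
              rw [mp_gen, map_smul, ← W.r_mul, E_mul_P]
              split_ifs with h
              · rfl
              · rw [map_zero, _root_.zero_apply, smul_zero]; rfl
            rw [this]
            split_ifs with h
            · exact W.psi_mem e _ _ _
            · exact Submodule.zero_mem _
        | h0 =>
            have : (W.r (P e J)).comp (mp (0 : (W.B e).Y)) = (0 : W.Z) := by
              apply Z_ext
              intro a
              change W.r (P e J) (mp (0 : (W.B e).Y) a) = 0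
              rw [mp_zero, map_zero]
            rw [this]
            exact Submodule.zero_mem _
        | ha x y hx hy =>
            have : (W.r (P e J)).comp (mp (x + y)) = (show W.Z from (W.r (P e J)).comp (mp x)) +
                (show W.Z from (W.r (P e J)).comp (mp y)) := by
              apply Z_ext
              intro a
              change W.r (P e J) (mp (x + y) a) = W.r (P e J) (mp x a) + W.r (P e J) (mp y a)
              rw [mp_add, map_add]
            rw [this]
            exact Submodule.add_mem _ hx hy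
        | hs c x hx =>
            have : (W.r (P e J)).comp (mp (c • x)) =
                c • (show W.Z from (W.r (P e J)).comp (mp x)) := by
              apply Z_ext
              intro a
              change W.r (P e J) (mp (c • x) a) = c • W.r (P e J) (mp x a)
              rw [mp_smul, map_smul]
            rw [this]
            exact Submodule.smul_mem _ _ hx⟩ : W.BS e)
      map_add' := fun x y => mp_ext (fun a => map_add (W.r (P e J)) _ _)
      map_smul' := fun c x => mp_ext (fun a => map_smul (W.r (P e J)) _ _) }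
    1 (fun ψ => by
      refine W.norm_B_le e (by positivity) (fun a => ?_)
      change ‖W.r (P e J) (mp ψ a)‖ ≤ _
      refine (W.norm_r _ _).trans ?_
      rw [one_mul]
      refine (mul_le_of_le_one_left (norm_nonneg _) (norm_P_le e J)).trans ?_
      exact W.norm_mp_le e ψ a)

@[simp] theorem mp_cB (J : Finset I) (ψ : (W.B e).Y) (a : Op H) :
    mp (W.cB e J ψ) a = W.r (P e J) (mp ψ a) := rfl

theorem mp_cB' (J : Finset I) (ψ : (W.B e).Y) (a : Op H) :
    mp (W.cB e J ψ) a = mp ψ (a * P e J) := by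
  classical
  rw [mp_cB, bal_P]

theorem norm_cB_le (J : Finset I) (ψ : (W.B e).Y) : ‖W.cB e J ψ‖ ≤ ‖ψ‖ := by
  refine W.norm_B_le e (norm_nonneg _) (fun a => ?_)
  rw [mp_cB]
  refine (W.norm_r _ _).trans ?_
  refine (mul_le_of_le_one_left (norm_nonneg _) (norm_P_le e J)).trans ?_
  exact W.norm_mp_le e ψ a

theorem cB_gen [DecidableEq I] (J : Finset I) (f : H →L[ℂ] ℂ) (j : I) (y : W.Y) :
    W.cB e J (W.gen e f j y) = if j ∈ J then W.gen e f j y else 0 := by
  apply mp_ext
  intro a
  rw [mp_cB, mp_gen, map_smul, ← W.r_mul, E_mul_P]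
  split_ifs with h
  · rfl
  · rw [map_zero, _root_.zero_apply, smul_zero]; rfl

theorem cB_cB [DecidableEq I] (J K : Finset I) (ψ : (W.B e).Y) :
    W.cB e J (W.cB e K ψ) = W.cB e (J ∩ K) ψ := by
  apply mp_ext
  intro a
  rw [mp_cB, mp_cB, mp_cB, ← W.r_mul, P_mul_P, Finset.inter_comm]

theorem cB_sdiff [DecidableEq I] {J K : Finset I} (h : J ⊆ K) (ψ : (W.B e).Y) :
    W.cB e K ψ - W.cB e J ψ = W.cB e (K \ J) ψ := by
  apply mp_ext
  intro a
  rw [mp_sub, mp_cB, mp_cB, mp_cB]
  have : P e K = P e (K \ J) + P e J := by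
    rw [P, P, P, Finset.sum_sdiff h]
  rw [this, map_add, _root_.add_apply, add_sub_cancel_right]

theorem exists_supp (ψ : (W.B e).Y) : ∃ J0 : Finset I, ∀ J, J0 ⊆ J → W.cB e J ψ = ψ := by
  classical
  induction ψ using B_induction with
  | h1 f j y =>
      refine ⟨{j}, fun J hJ => ?_⟩
      rw [cB_gen, if_pos (hJ (Finset.mem_singleton_self j))]
  | h0 => exact ⟨∅, fun J _ => map_zero _⟩
  | ha x y hx hy =>
      obtain ⟨J1, h1⟩ := hx
      obtain ⟨J2, h2⟩ := hy
      refine ⟨J1 ∪ J2, fun J hJ => ?_⟩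
      rw [map_add, h1 J (Finset.union_subset_left hJ), h2 J (Finset.union_subset_right hJ)]
  | hs c x hx =>
      obtain ⟨J1, h1⟩ := hx
      exact ⟨J1, fun J hJ => by rw [map_smul, h1 J hJ]⟩

/-- column truncation on the dual -/
def cD (J : Finset I) : (W.B e).D →L[ℂ] (W.B e).D :=
  (ContinuousLinearMap.compL ℂ _ _ ℂ).flip (W.cB e J)

@[simp] theorem cD_apply (J : Finset I) (u : (W.B e).D) (ψ : (W.B e).Y) :
    ap (W.cD e J u) ψ = ap u (W.cB e J ψ) := rfl

theorem norm_cD_le (J : Finset I) (u : (W.B e).D) : ‖W.cD e J u‖ ≤ ‖u‖ := by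
  refine norm_D_le (norm_nonneg _) (fun ψ => ?_)
  rw [cD_apply]
  exact (norm_ap_le _ _).trans (mul_le_mul_of_nonneg_left (W.norm_cB_le e J ψ) (norm_nonneg _))

theorem cB_r (J : Finset I) (b : Op H) (ψ : (W.B e).Y) :
    W.cB e J ((W.B e).r b ψ) = (W.B e).r b (W.cB e J ψ) := rfl

theorem act_cD (J : Finset I) (b : Op H) (u : (W.B e).D) :
    (W.B e).act b (W.cD e J u) = W.cD e J ((W.B e).act b u) := rfl

section block

variable [CompleteSpace H]

/-- the block estimate -/
theorem block_le (u : (W.B e).D) (i : I) {δ : ℝ} (hδ : 0 ≤ δ) (K : ℕ) (L : ℕ → Finset I)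
    (hL : ∀ k < K, ∀ l < K, k ≠ l → Disjoint (L k) (L l))
    (hq : ∀ k < K, δ < ‖W.cD e (L k) ((W.B e).act (E e i i) u)‖) :
    K * δ ≤ Real.sqrt K * ‖u‖ := by
  classical
  have h1 : ∀ k, ∃ ψ : (W.B e).Y, k < K → ‖ψ‖ ≤ 1 ∧
      δ < ‖ap u ((W.B e).r (E e i i) (W.cB e (L k) ψ))‖ := by
    intro k
    by_cases hk : k < K
    · obtain ⟨ψ, h2, h3⟩ := ContinuousLinearMap.exists_lt_apply_of_lt_opNorm
        (ap (W.cD e (L k) ((W.B e).act (E e i i) u))) (hq k hk)
      exact ⟨ψ, fun _ => ⟨h2.le, h3⟩⟩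
    · exact ⟨0, fun h => absurd h hk⟩
  choose ψ hψ using h1
  set z : ℕ → ℂ := fun k => ap u ((W.B e).r (E e i i) (W.cB e (L k) (ψ k))) with hz
  have hlam : ∀ w : ℂ, ∃ l : ℂ, ‖l‖ ≤ 1 ∧ l * w = ‖w‖ := by
    intro w
    by_cases hw : w = 0
    · exact ⟨0, by simp, by simp [hw]⟩
    · refine ⟨(starRingEnd ℂ) w / ‖w‖, ?_, ?_⟩
      · rw [norm_div, RCLike.norm_conj, Complex.norm_real, norm_norm, div_self]
        exact norm_ne_zero_iff.2 hw
      · have h4 : (‖w‖ : ℂ) ≠ 0 := by
          exact_mod_cast norm_ne_zero_iff.2 hw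
        rw [div_mul_eq_mul_div, div_eq_iff h4, ← Complex.normSq_eq_conj_mul_self,
          Complex.normSq_eq_norm_sq]
        push_cast
        ring
  choose lam hlam1 hlam2 using hlam
  set Ψ : (W.B e).Y := ∑ k ∈ Finset.range K, lam (z k) • (W.B e).r (E e i i) (W.cB e (L k) (ψ k))
    with hΨ
  have hnorm : ‖Ψ‖ ≤ Real.sqrt K := by
    refine W.norm_B_le e (Real.sqrt_nonneg _) (fun a => ?_)
    rw [hΨ, mp_sum]
    set β : ℕ → ℝ := fun k => Real.sqrt (∑ j ∈ L k, ‖inner ℂ (e i) (a (e j))‖ ^ 2) with hβ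
    have h5 : ∀ k ∈ Finset.range K,
        ‖mp (lam (z k) • (W.B e).r (E e i i) (W.cB e (L k) (ψ k))) a‖ ≤ 1 * β k := by
      intro k hk
      rw [mp_smul, mp_r, mp_cB', norm_smul]
      have h6 := hψ k (Finset.mem_range.1 hk)
      calc ‖lam (z k)‖ * ‖mp (ψ k) (E e i i * a * P e (L k))‖
          ≤ 1 * (‖ψ k‖ * ‖E e i i * a * P e (L k)‖) :=
            mul_le_mul (hlam1 _) (W.norm_mp_le e _ _) (norm_nonneg _) zero_le_one
        _ ≤ 1 * (1 * β k) := by
            refine mul_le_mul_of_nonneg_left ?_ zero_le_one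
            exact mul_le_mul h6.1 (norm_E_mul_P_le e a i (L k)) (norm_nonneg _) zero_le_one
        _ = 1 * β k := by ring
    calc ‖∑ k ∈ Finset.range K, mp (lam (z k) • (W.B e).r (E e i i) (W.cB e (L k) (ψ k))) a‖
        ≤ ∑ k ∈ Finset.range K, 1 * β k := (norm_sum_le _ _).trans (Finset.sum_le_sum h5)
      _ ≤ Real.sqrt (∑ k ∈ Finset.range K, (1 : ℝ) ^ 2) *
          Real.sqrt (∑ k ∈ Finset.range K, β k ^ 2) := Real.sum_mul_le_sqrt_mul_sqrt _ _ _
      _ ≤ Real.sqrt K * ‖a‖ := by
          rw [one_pow, Finset.sum_const, Finset.card_range, nsmul_eq_mul, mul_one]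
          refine mul_le_mul_of_nonneg_left ?_ (Real.sqrt_nonneg _)
          rw [Real.sqrt_le_left (norm_nonneg _)]
          have h7 : ∀ k, β k ^ 2 = ∑ j ∈ L k, ‖inner ℂ (e i) (a (e j))‖ ^ 2 := by
            intro k
            rw [hβ]
            exact Real.sq_sqrt (Finset.sum_nonneg (fun _ _ => by positivity))
          simp only [h7]
          rw [← Finset.sum_biUnion]
          · exact row_sq_le e _ a i
          · intro k hk l hl hkl
            simp only [Finset.coe_range, mem_Iio] at hk hl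
            exact hL k hk l hl hkl
  have hval : ap u Ψ = ((∑ k ∈ Finset.range K, ‖z k‖ : ℝ) : ℂ) := by
    rw [hΨ, map_sum]
    push_cast
    refine Finset.sum_congr rfl (fun k _ => ?_)
    rw [map_smul, smul_eq_mul]
    exact hlam2 (z k)
  have h8 : (K : ℝ) * δ ≤ ∑ k ∈ Finset.range K, ‖z k‖ := by
    have : (K : ℝ) * δ = ∑ k ∈ Finset.range K, δ := by
      rw [Finset.sum_const, Finset.card_range, nsmul_eq_mul]
    rw [this]
    refine Finset.sum_le_sum (fun k hk => ?_)
    exact (hψ k (Finset.mem_range.1 hk)).2.le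
  have h9 : ∑ k ∈ Finset.range K, ‖z k‖ = ‖ap u Ψ‖ := by
    rw [hval, Complex.norm_real, Real.norm_eq_abs,
      abs_of_nonneg (Finset.sum_nonneg (fun _ _ => norm_nonneg _))]
  calc (K : ℝ) * δ ≤ ‖ap u Ψ‖ := h9 ▸ h8
    _ ≤ ‖u‖ * ‖Ψ‖ := norm_ap_le _ _
    _ ≤ ‖u‖ * Real.sqrt K := mul_le_mul_of_nonneg_left hnorm (norm_nonneg _)
    _ = Real.sqrt K * ‖u‖ := mul_comm _ _

theorem exists_small (u : (W.B e).D) (i : I) {δ : ℝ} (hδ : 0 < δ) :
    ∃ J0 : Finset I, ∀ J, Disjoint J0 J → ‖W.cD e J ((W.B e).act (E e i i) u)‖ ≤ δ := by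
  classical
  by_contra hcon
  push Not at hcon
  choose f hf1 hf2 using hcon
  -- the sequence
  set U : ℕ → Finset I := fun k => Nat.rec ∅ (fun _ V => V ∪ f V) k with hU
  have hUs : ∀ k, U (k + 1) = U k ∪ f (U k) := fun k => rfl
  have hmono : Monotone U := monotone_nat_of_le_succ (fun k => by
    rw [hUs]; exact Finset.subset_union_left)
  have hdis : ∀ k l, k < l → Disjoint (f (U k)) (f (U l)) := by
    intro k l hkl
    refine Finset.disjoint_of_subset_left ?_ (hf1 (U l))
    refine Finset.Subset.trans ?_ (hmono (Nat.succ_le_of_lt hkl))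
    rw [Nat.succ_eq_add_one, hUs]
    exact Finset.subset_union_right
  obtain ⟨K, hK⟩ := exists_nat_gt ((‖u‖ / δ) ^ 2)
  have h1 := W.block_le e u i hδ.le K (fun k => f (U k)) (fun k _ l _ hkl => by
    rcases lt_or_gt_of_ne hkl with h | h
    · exact hdis k l h
    · exact (hdis l k h).symm) (fun k _ => hf2 (U k))
  have hK0 : (0 : ℝ) < K := lt_of_le_of_lt (sq_nonneg _) hK
  have h2 : Real.sqrt K * δ ≤ ‖u‖ := by
    have h3 : Real.sqrt K * (Real.sqrt K * δ) ≤ Real.sqrt K * ‖u‖ := by
      rw [← mul_assoc, Real.mul_self_sqrt hK0.le]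
      exact h1
    exact le_of_mul_le_mul_left h3 (Real.sqrt_pos.2 hK0)
  have h4 : Real.sqrt K ≤ ‖u‖ / δ := by
    rw [le_div_iff₀ hδ]; exact h2
  have h5 : (K : ℝ) ≤ (‖u‖ / δ) ^ 2 := by
    have := pow_le_pow_left₀ (Real.sqrt_nonneg _) h4 2
    rwa [Real.sq_sqrt hK0.le] at this
  linarith

theorem tendsto_cD_E (u : (W.B e).D) (i : I) :
    Tendsto (fun J => W.cD e J ((W.B e).act (E e i i) u)) atTop
      (𝓝 ((W.B e).act (E e i i) u)) := by
  classical
  rw [Metric.tendsto_nhds]
  intro ε hε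
  obtain ⟨J0, hJ0⟩ := W.exists_small e u i (half_pos hε)
  filter_upwards [eventually_ge_atTop J0] with J hJ
  rw [dist_eq_norm]
  refine lt_of_le_of_lt ?_ (half_lt_self hε)
  refine norm_D_le (by positivity) (fun ψ => ?_)
  obtain ⟨J1, hJ1⟩ := W.exists_supp e ψ
  set w := (W.B e).act (E e i i) u with hw
  have h1 : W.cB e (J ∪ J1) ψ = ψ := hJ1 _ Finset.subset_union_right
  have h2 : ap (W.cD e J w - w) ψ = - ap (W.cD e ((J ∪ J1) \ J) w) ψ := by
    rw [ap_sub, cD_apply, cD_apply, ← cB_sdiff W e Finset.subset_union_left, map_sub, h1]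
    ring
  rw [h2, norm_neg]
  refine (norm_ap_le _ _).trans (mul_le_mul_of_nonneg_right ?_ (norm_nonneg _))
  refine hJ0 _ ?_
  exact Finset.disjoint_of_subset_left hJ Finset.disjoint_sdiff

/-- truncation in both indices -/
def tD (F : Finset I) : (W.B e).D →L[ℂ] (W.B e).D := (W.cD e F).comp ((W.B e).act (P e F))

theorem tD_apply (F : Finset I) (u : (W.B e).D) :
    W.tD e F u = W.cD e F ((W.B e).act (P e F) u) := rfl

theorem norm_tD_le (F : Finset I) (u : (W.B e).D) : ‖W.tD e F u‖ ≤ ‖u‖ :=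
  (W.norm_cD_le e F _).trans ((W.B e).norm_act_P_le e F u)

theorem tendsto_cD_P (u : (W.B e).D) (F : Finset I) :
    Tendsto (fun J => W.cD e J ((W.B e).act (P e F) u)) atTop
      (𝓝 ((W.B e).act (P e F) u)) := by
  have h : (W.B e).act (P e F) u = ∑ i ∈ F, (W.B e).act (E e i i) u := by
    rw [P, map_sum, _root_.sum_apply]
  simp only [h, map_sum]
  exact tendsto_finsetSum _ (fun i _ => W.tendsto_cD_E e u i)

theorem tendsto_tD (u : (W.B e).ess e) :
    Tendsto (fun F => W.tD e F (u : (W.B e).D)) atTop (𝓝 (u : (W.B e).D)) := by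
  classical
  rw [Metric.tendsto_nhds]
  intro ε hε
  have h1 : Tendsto (fun F => (W.B e).act (P e F) (u : (W.B e).D)) atTop (𝓝 (u : (W.B e).D)) := u.2
  rw [Metric.tendsto_nhds] at h1
  obtain ⟨F0, hF0⟩ := (h1 (ε / 4) (by positivity)).exists
  have h2 := W.tendsto_cD_P e (u : (W.B e).D) F0
  rw [Metric.tendsto_nhds] at h2
  filter_upwards [h2 (ε / 4) (by positivity), eventually_ge_atTop F0] with F h3 h4
  rw [dist_eq_norm] at hF0 h3 ⊢
  set v := (W.B e).act (P e F0) (u : (W.B e).D) with hv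
  have h5 : (W.B e).act (P e F) v = v := by
    rw [hv, ← act_mul, P_mul_P, Finset.inter_eq_right.2 h4]
  have h6 : W.tD e F (u : (W.B e).D) - u =
      -(W.tD e F (v - u)) + (W.cD e F v - v) + (v - u) := by
    rw [map_sub]
    have : W.tD e F v = W.cD e F v := by rw [tD_apply, h5]
    rw [this]
    abel
  rw [h6]
  calc ‖-(W.tD e F (v - u)) + (W.cD e F v - v) + (v - u)‖
      ≤ ‖-(W.tD e F (v - u))‖ + ‖W.cD e F v - v‖ + ‖v - u‖ := norm_add₃_le
    _ < ε := by
        rw [norm_neg]
        have := W.norm_tD_le e F (v - u)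
        linarith

end block

end RM

end

end Pool.Agent.H83.KH
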