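import Pool.Agent.H83.KH.Comp
import Pool.Agent.H83.KH.Rnp

/-! # The extension operator (helper83, for MP_216d05_an) -/

namespace Pool.Agent.H83.KH

open Filter Topology Set InnerProductSpace

noncomputable section

set_option linter.unusedSectionVars false

universe u

/-- a left Banach module over `K(H)` -/
structure KM (H : Type u) [NormedAddCommGroup H] [InnerProductSpace ℂ H] where
  /-- the underlying space -/
  M : Type u
  [grp : NormedAddCommGroup M]
  [spc : NormedSpace ℂ M]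
  [cpl : CompleteSpace M]
  /-- the action -/
  act : Kc H →L[ℂ] M →L[ℂ] M
  act_mul : ∀ a b x, act (a * b) x = act a (act b x)

attribute [instance] KM.grp KM.spc KM.cpl

variable {H : Type u} [NormedAddCommGroup H] [InnerProductSpace ℂ H]
variable {I : Type u}

/-- the essential part as a module over `K(H)` -/
def KM.ofEss (W : RM H) (e : HilbertBasis I ℂ H) : KM H where
  M := W.ess e
  act := (W.ea e).comp (inc H)
  act_mul := fun a b x => W.ea_mul e a.op b.op x

@[simp] theorem KM.ofEss_act (W : RM H) (e : HilbertBasis I ℂ H) (a : Kc H) (x : W.ess e) :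
    (KM.ofEss W e).act a x = W.ea e a.op x := rfl

/-! ### generalities -/

/-- pointwise limits of bounded nets of operators -/
theorem exists_limit {V M ι : Type*} [NormedAddCommGroup V] [NormedSpace ℂ V]
    [NormedAddCommGroup M] [NormedSpace ℂ M] (l : Filter ι) [l.NeBot] (T : ι → V → M)
    (hT : ∀ i, IsLinearMap ℂ (T i)) (C : ℝ)
    (hC : ∀ i v, ‖T i v‖ ≤ C * ‖v‖) (h : ∀ v, ∃ w, Tendsto (fun i => T i v) l (𝓝 w)) :
    ∃ S : V →L[ℂ] M, (∀ v, Tendsto (fun i => T i v) l (𝓝 (S v))) ∧ ∀ v, ‖S v‖ ≤ C * ‖v‖ := by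
  choose f hf using h
  have hb : ∀ v, ‖f v‖ ≤ C * ‖v‖ := fun v =>
    le_of_tendsto (hf v).norm (Eventually.of_forall (fun i => hC i v))
  refine ⟨LinearMap.mkContinuous
    { toFun := f
      map_add' := fun v w => by
        refine tendsto_nhds_unique (hf (v + w)) ?_
        simp only [(hT _).map_add]
        exact (hf v).add (hf w)
      map_smul' := fun c v => by
        refine tendsto_nhds_unique (hf (c • v)) ?_
        simp only [(hT _).map_smul]
        exact (hf v).const_smul c } C hb, fun v => hf v, hb⟩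

theorem exists_dominated {V N : Type*} [NormedAddCommGroup V] [NormedSpace ℂ V]
    [NormedAddCommGroup N] [NormedSpace ℂ N] (L : V →L[ℂ] N) (w : V →L[ℂ] ℂ) {C : ℝ}
    (hC : 0 ≤ C) (h : ∀ v, ‖w v‖ ≤ C * ‖L v‖) :
    ∃ f : N →L[ℂ] ℂ, ‖f‖ ≤ C ∧ ∀ v, w v = f (L v) := by
  classical
  set p : Submodule ℂ N := LinearMap.range (L : V →ₗ[ℂ] N) with hp
  have hmem : ∀ x : p, ∃ v, L v = x := fun x => by
    obtain ⟨v, hv⟩ := LinearMap.mem_range.1 x.2
    exact ⟨v, hv⟩
  choose g hg using hmem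
  have hw : ∀ v v', L v = L v' → w v = w v' := by
    intro v v' hvv
    have h1 := h (v - v')
    rw [map_sub L, hvv, sub_self, norm_zero, mul_zero, norm_le_zero_iff, map_sub, sub_eq_zero] at h1
    exact h1
  set f0 : p →L[ℂ] ℂ := LinearMap.mkContinuous
    { toFun := fun x => w (g x)
      map_add' := fun x y => by
        rw [← map_add]
        refine hw _ _ ?_
        rw [map_add, hg, hg, hg]; rfl
      map_smul' := fun c x => by
        rw [RingHom.id_apply, ← map_smul]
        refine hw _ _ ?_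
        rw [map_smul, hg, hg]; rfl } C (fun x => by
      change ‖w (g x)‖ ≤ _
      refine (h _).trans ?_
      rw [hg]; rfl) with hf0
  obtain ⟨f, hf1, hf2⟩ := exists_extension_norm_eq p f0
  refine ⟨f, ?_, fun v => ?_⟩
  · rw [hf2]
    exact LinearMap.mkContinuous_norm_le _ hC _
  · have h1 := hf1 ⟨L v, LinearMap.mem_range.2 ⟨v, rfl⟩⟩
    have h2 : f (L v) = w (g ⟨L v, LinearMap.mem_range.2 ⟨v, rfl⟩⟩) := h1
    rw [h2]
    exact hw _ _ (hg (⟨L v, LinearMap.mem_range.2 ⟨v, rfl⟩⟩ : p)).symm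

theorem exists_phase (w : ℂ) : ∃ l : ℂ, ‖l‖ ≤ 1 ∧ l * w = ‖w‖ := by
  by_cases hw : w = 0
  · exact ⟨0, by simp, by simp [hw]⟩
  · refine ⟨(starRingEnd ℂ) w / ‖w‖, ?_, ?_⟩
    · rw [norm_div, RCLike.norm_conj, Complex.norm_real, norm_norm, div_self]
      exact norm_ne_zero_iff.2 hw
    · have h4 : (‖w‖ : ℂ) ≠ 0 := by
        exact_mod_cast norm_ne_zero_iff.2 hw
      rw [div_mul_eq_mul_div, div_eq_iff h4, ← Complex.normSq_eq_conj_mul_self,
        Complex.normSq_eq_norm_sq]
      push_cast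
      ring

theorem sum_norm_le_of_pi {S N : Type*} [Fintype S] [DecidableEq S] [NormedAddCommGroup N]
    [NormedSpace ℂ N] (f : (S → N) →L[ℂ] ℂ) :
    ∑ a, ‖f.comp (ContinuousLinearMap.single ℂ (fun _ : S => N) a)‖ ≤ ‖f‖ := by
  refine le_of_forall_pos_le_add (fun ε hε => ?_)
  set δ : ℝ := ε / (Fintype.card S + 1) with hδ
  have hδ0 : 0 < δ := by positivity
  have h1 : ∀ a, ∃ y : N, ‖y‖ ≤ 1 ∧
      ‖f.comp (ContinuousLinearMap.single ℂ (fun _ : S => N) a)‖ - δ ≤
        ‖f.comp (ContinuousLinearMap.single ℂ (fun _ : S => N) a) y‖ := by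
    intro a
    by_cases h : 0 ≤ ‖f.comp (ContinuousLinearMap.single ℂ (fun _ : S => N) a)‖ - δ
    · obtain ⟨y, h2, h3⟩ := ContinuousLinearMap.exists_lt_apply_of_lt_opNorm
        (f.comp (ContinuousLinearMap.single ℂ (fun _ : S => N) a)) (r := _ - δ)
        (sub_lt_self _ hδ0)
      exact ⟨y, h2.le, h3.le⟩
    · push Not at h
      exact ⟨0, by simp, h.le.trans (norm_nonneg _)⟩
  choose y hy1 hy2 using h1
  choose lam hl1 hl2 using exists_phase
  set z : S → N := fun a =>
    lam (f.comp (ContinuousLinearMap.single ℂ (fun _ : S => N) a) (y a)) • y a with hz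
  have hzn : ‖z‖ ≤ 1 := by
    rw [pi_norm_le_iff_of_nonneg zero_le_one]
    intro a
    rw [hz, norm_smul]
    calc _ ≤ 1 * 1 := mul_le_mul (hl1 _) (hy1 a) (norm_nonneg _) zero_le_one
      _ = 1 := one_mul 1
  have hzs : z = ∑ a, ContinuousLinearMap.single ℂ (fun _ : S => N) a (z a) := by
    ext b
    rw [Finset.sum_apply]
    simp [Pi.single_apply]
  have hfz : f z = ((∑ a, ‖f.comp (ContinuousLinearMap.single ℂ (fun _ : S => N) a) (y a)‖ : ℝ) :
      ℂ) := by
    rw [hzs, map_sum]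
    push_cast
    refine Finset.sum_congr rfl (fun a _ => ?_)
    have h5 : f (ContinuousLinearMap.single ℂ (fun _ : S => N) a (z a)) =
        lam (f.comp (ContinuousLinearMap.single ℂ (fun _ : S => N) a) (y a)) •
          f.comp (ContinuousLinearMap.single ℂ (fun _ : S => N) a) (y a) := by
      rw [← map_smul]
      rfl
    rw [h5, smul_eq_mul]
    exact hl2 _
  have h3 : ∑ a, ‖f.comp (ContinuousLinearMap.single ℂ (fun _ : S => N) a) (y a)‖ ≤ ‖f‖ := by
    have h4 : ‖f z‖ ≤ ‖f‖ := by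
      refine (f.le_opNorm z).trans ?_
      exact mul_le_of_le_one_right (norm_nonneg _) hzn
    rw [hfz, Complex.norm_real, Real.norm_eq_abs] at h4
    exact (le_abs_self _).trans h4
  calc ∑ a, ‖f.comp (ContinuousLinearMap.single ℂ (fun _ : S => N) a)‖
      ≤ ∑ a, (‖f.comp (ContinuousLinearMap.single ℂ (fun _ : S => N) a) (y a)‖ + δ) :=
        Finset.sum_le_sum (fun a _ => by linarith [hy2 a])
    _ = ∑ a, ‖f.comp (ContinuousLinearMap.single ℂ (fun _ : S => N) a) (y a)‖ +
        Fintype.card S * δ := by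
        rw [Finset.sum_add_distrib, Finset.sum_const, nsmul_eq_mul]
        rfl
    _ ≤ ‖f‖ + ε := by
        refine add_le_add h3 ?_
        rw [hδ, mul_div_assoc', div_le_iff₀ (by positivity)]
        nlinarith [(Nat.cast_nonneg (Fintype.card S) : (0 : ℝ) ≤ _)]

/-- a finite net in the unit ball of a corner -/
theorem exists_net [DecidableEq I] (e : HilbertBasis I ℂ H) (F : Finset I) : ∃ t : Finset (Op H),
    (∀ a ∈ t, ‖a‖ ≤ 1 ∧ P e F * a * P e F = a) ∧
    ∀ a : Op H, ‖a‖ ≤ 1 → P e F * a * P e F = a → ∃ b ∈ t, ‖a - b‖ ≤ 1 / 2 := by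
  set S : Set (Op H) := {a | ‖a‖ ≤ 1 ∧ P e F * a * P e F = a} with hS
  have hcont : Continuous (fun c : F → F → ℂ => ∑ i : F, ∑ j : F, c i j • E e (i : I) (j : I)) := by
    refine continuous_finsetSum _ (fun i _ => continuous_finsetSum _ (fun j _ => ?_))
    have h0 : Continuous (fun c : F → F → ℂ => c i j) := by fun_prop
    exact h0.smul continuous_const
  have hcpt : IsCompact ((fun c : F → F → ℂ => ∑ i : F, ∑ j : F, c i j • E e (i : I) (j : I)) ''
      (Metric.closedBall 0 1)) :=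
    (isCompact_closedBall (0 : F → F → ℂ) 1).image hcont
  have hsub : S ⊆ (fun c : F → F → ℂ => ∑ i : F, ∑ j : F, c i j • E e (i : I) (j : I)) ''
      (Metric.closedBall 0 1) := by
    rintro a ⟨h1, h2⟩
    refine ⟨fun i j => inner ℂ (e i) (a (e j)), ?_, ?_⟩
    · rw [mem_closedBall_zero_iff, pi_norm_le_iff_of_nonneg zero_le_one]
      intro i
      rw [pi_norm_le_iff_of_nonneg zero_le_one]
      intro j
      refine (norm_inner_le_norm _ _).trans ?_
      rw [norm_e, one_mul]
      refine (a.le_opNorm _).trans ?_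
      rw [norm_e, mul_one]
      exact h1
    · change ∑ i : F, ∑ j : F, inner ℂ (e (i : I)) (a (e (j : I))) • E e (i : I) (j : I) = a
      have h3 : a = ∑ j ∈ F, P e F * a * E e j j := by
        conv_lhs => rw [← h2]
        rw [P, Finset.mul_sum]
      conv_rhs => rw [h3]
      rw [Finset.sum_comm]
      rw [← Finset.sum_coe_sort F (fun j => P e F * a * E e j j)]
      refine Finset.sum_congr rfl (fun j _ => ?_)
      rw [P_mul_mul_E]
      rw [← Finset.sum_coe_sort F (fun i => inner ℂ (e i) (a (e (j : I))) • E e i (j : I))]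
  have htb : TotallyBounded S := hcpt.totallyBounded.subset hsub
  obtain ⟨t, ht1, ht2, ht3⟩ := Metric.finite_approx_of_totallyBounded htb (1 / 2) (by norm_num)
  refine ⟨ht2.toFinset, fun a ha => ht1 (ht2.mem_toFinset.1 ha), fun a h1 h2 => ?_⟩
  have h3 := ht3 (⟨h1, h2⟩ : a ∈ S)
  rw [mem_iUnion₂] at h3
  obtain ⟨b, hb, hab⟩ := h3
  refine ⟨b, ht2.mem_toFinset.2 hb, ?_⟩
  rw [Metric.mem_ball, dist_eq_norm] at hab
  exact hab.le

end

end Pool.Agent.H83.KH
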