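import Pool.Agent.H83.KH.Ext

/-! # The extension operator, part 2 (helper83, for MP_216d05_an) -/

namespace Pool.Agent.H83.KH

open Filter Topology Set InnerProductSpace

noncomputable section

set_option linter.unusedSectionVars false

universe u

variable {H : Type u} [NormedAddCommGroup H] [InnerProductSpace ℂ H] [CompleteSpace H]
variable {I : Type u}

namespace RM

variable (W : RM H) (e : HilbertBasis I ℂ H)

/-- `x ↦ e_jj x` into the essential part -/
def eD (j : I) : W.D →L[ℂ] W.ess e :=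
  (W.act (E e j j)).codRestrict _ (fun x => by
    classical
    refine W.mem_ess_of_P (F := {j}) ?_
    rw [← act_mul, P, Finset.sum_singleton, E_mul, if_pos rfl])

@[simp] theorem coe_eD (j : I) (x : W.D) : (W.eD e j x : W.D) = W.act (E e j j) x := rfl

/-- partial sums of the extension operator -/
def EF (M : KM H) (g : W.ess e →L[ℂ] M.M) (F : Finset I) (u : (W.B e).D) : M.M :=
  ∑ i ∈ F, ∑ j ∈ F, M.act (kE e i j) (g (W.X e i j u))

theorem isLinearMap_EF (M : KM H) (g : W.ess e →L[ℂ] M.M) (F : Finset I) :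
    IsLinearMap ℂ (W.EF e M g F) where
  map_add := fun x y => by
    simp only [EF, map_add, Finset.sum_add_distrib]
  map_smul := fun c x => by
    simp only [EF, map_smul, Finset.smul_sum]

theorem xD_tD [DecidableEq I] (i j : I) (F : Finset I) (u : (W.B e).D) :
    W.xD e i j (W.tD e F u) = if i ∈ F ∧ j ∈ F then W.xD e i j u else 0 := by
  ext y
  rw [xD_apply, tD_apply, cD_apply, act_apply, cB_gen]
  by_cases hj : j ∈ F
  · rw [if_pos hj, r_gen, cf_comp_P]
    by_cases hi : i ∈ F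
    · rw [if_pos hi, if_pos ⟨hi, hj⟩]; rfl
    · rw [if_neg hi, if_neg (fun h => hi h.1), gen_zero, map_zero]; rfl
  · rw [if_neg hj, if_neg (fun h => hj h.2), map_zero, map_zero]; rfl

theorem X_tD [DecidableEq I] (i j : I) (F : Finset I) (u : (W.B e).D) :
    W.X e i j (W.tD e F u) = if i ∈ F ∧ j ∈ F then W.X e i j u else 0 := by
  apply Subtype.ext
  rw [coe_X, xD_tD]
  split_ifs <;> rfl

theorem EF_tD [DecidableEq I] (M : KM H) (g : W.ess e →L[ℂ] M.M) {F F' : Finset I} (h : F ⊆ F')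
    (u : (W.B e).D) : W.EF e M g F' (W.tD e F u) = W.EF e M g F u := by
  rw [EF, EF]
  simp only [X_tD]
  symm
  calc ∑ i ∈ F, ∑ j ∈ F, M.act (kE e i j) (g (W.X e i j u))
      = ∑ i ∈ F, ∑ j ∈ F', M.act (kE e i j)
          (g (if i ∈ F ∧ j ∈ F then W.X e i j u else 0)) := by
        refine Finset.sum_congr rfl (fun i hi => ?_)
        refine Finset.sum_subset_zero_on_sdiff h (fun j hj => ?_) (fun j hj => ?_)
        · rw [if_neg (fun h => (Finset.mem_sdiff.1 hj).2 h.2), map_zero, map_zero]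
        · rw [if_pos ⟨hi, hj⟩]
    _ = ∑ i ∈ F', ∑ j ∈ F', M.act (kE e i j)
          (g (if i ∈ F ∧ j ∈ F then W.X e i j u else 0)) := by
        refine Finset.sum_subset_zero_on_sdiff h (fun i hi => ?_) (fun i hi => rfl)
        refine Finset.sum_eq_zero (fun j _ => ?_)
        rw [if_neg (fun h => (Finset.mem_sdiff.1 hi).2 h.1), map_zero, map_zero]

/-- `tD F u = ∑ e_ij ⊗ X i j u` -/
theorem tD_eq_sum [DecidableEq I] (F : Finset I) (u : (W.B e).D) :
    W.tD e F u = ∑ i ∈ F, ∑ j ∈ F, (W.B e).act (E e i j) (W.sD e (W.xD e i j u)) := by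
  ext ψ
  rw [ap_sum]
  simp only [ap_sum, act_sD, xD_apply]
  rw [tD_apply, cD_apply, act_apply]
  have h : (W.B e).r (P e F) (W.cB e F ψ) =
      ∑ i ∈ F, ∑ j ∈ F, W.gen e (cf e i) j (mp ψ (E e i j)) := by
    apply mp_ext
    intro a
    rw [mp_r, mp_cB', mp_sum]
    have h1 : P e F * a * P e F = ∑ j ∈ F, P e F * a * E e j j := by
      rw [P, Finset.mul_sum]
    rw [h1, map_sum]
    simp only [P_mul_mul_E, map_sum, mp_sum, map_smul]
    rw [Finset.sum_comm]
    refine Finset.sum_congr rfl (fun i _ => Finset.sum_congr rfl (fun j _ => ?_))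
    rw [mp_gen, cf_apply, ← bal, E_mul, if_pos rfl]
  rw [h, map_sum]
  refine Finset.sum_congr rfl (fun i _ => ?_)
  rw [map_sum]

theorem X_act_sD [DecidableEq I] (i j : I) (a : Op H) (x : W.D) :
    W.X e i j ((W.B e).act a (W.sD e x)) = inner ℂ (e i) (a (e j)) • W.eD e j x := by
  apply Subtype.ext
  ext y
  change ap (W.xD e i j ((W.B e).act a (W.sD e x))) y = _
  rw [xD_apply, act_sD, mp_gen, map_smul, cf_apply]
  rfl

theorem EF_act_sD [DecidableEq I] (M : KM H) (g : W.ess e →L[ℂ] M.M) (F : Finset I) {a : Op H}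
    (ha : P e F * a * P e F = a) (x : W.D) :
    W.EF e M g F ((W.B e).act a (W.sD e x)) = ∑ j ∈ F, M.act (kb e a j j) (g (W.eD e j x)) := by
  rw [EF, Finset.sum_comm]
  refine Finset.sum_congr rfl (fun j hj => ?_)
  have h1 : kb e a j j = ∑ i ∈ F, inner ℂ (e i) (a (e j)) • kE e i j := by
    apply Kc.ext'
    rw [op_sum, op_kb]
    simp only [op_smul, op_kE]
    rw [← P_mul_mul_E]
    congr 1
    conv_lhs => rw [← ha]
    conv_rhs => rw [← ha]
    rw [← mul_assoc, ← mul_assoc, P_mul_P, Finset.inter_self]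
  rw [h1, map_sum, _root_.sum_apply]
  refine Finset.sum_congr rfl (fun i _ => ?_)
  rw [X_act_sD, map_smul, map_smul, map_smul, _root_.smul_apply]

theorem norm_EF_act_sD_le [DecidableEq I] (M : KM H) (g : W.ess e →L[ℂ] M.M) (F : Finset I)
    {a : Op H} (ha : P e F * a * P e F = a) (ha1 : ‖a‖ ≤ 1) (x : W.D) :
    ‖W.EF e M g F ((W.B e).act a (W.sD e x))‖ ≤ ‖M.act‖ * ‖g‖ * ‖x‖ := by
  rw [EF_act_sD W e M g F ha]
  refine norm_diag_le F (fun j l => M.act (kb e a j j) (g (W.eD e l x))) (fun S => ?_)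
  have h1 : ∑ j ∈ F, ∑ l ∈ F, (sg S j * sg S l) • M.act (kb e a j j) (g (W.eD e l x)) =
      M.act (∑ j ∈ F, sg S j • kb e a j j) (g (∑ l ∈ F, sg S l • W.eD e l x)) := by
    rw [map_sum, _root_.sum_apply]
    refine Finset.sum_congr rfl (fun j _ => ?_)
    rw [map_sum, map_sum]
    refine Finset.sum_congr rfl (fun l _ => ?_)
    simp only [map_smul, _root_.smul_apply, smul_smul]
    rw [mul_comm]
  rw [h1]
  have h2 : ‖∑ j ∈ F, sg S j • kb e a j j‖ ≤ 1 := by
    rw [← norm_op, op_sum]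
    have : ∑ j ∈ F, (sg S j • kb e a j j).op = a * Dg e F S := by
      rw [Dg, Finset.mul_sum]
      refine Finset.sum_congr rfl (fun j _ => ?_)
      rw [op_smul, op_kb, mul_smul_comm]
    rw [this]
    refine (norm_mul_le _ _).trans ?_
    calc ‖a‖ * ‖Dg e F S‖ ≤ 1 * 1 := mul_le_mul ha1 (norm_Dg_le e F S) (norm_nonneg _) zero_le_one
      _ = 1 := one_mul 1
  have h3 : ‖∑ l ∈ F, sg S l • W.eD e l x‖ ≤ ‖x‖ := by
    have h4 : ((∑ l ∈ F, sg S l • W.eD e l x : W.ess e) : W.D) = W.act (Dg e F S) x := by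
      rw [Dg, map_sum, _root_.sum_apply, Submodule.coe_sum]
      refine Finset.sum_congr rfl (fun l _ => ?_)
      rw [map_smul]
      rfl
    calc ‖∑ l ∈ F, sg S l • W.eD e l x‖ = ‖W.act (Dg e F S) x‖ := by
          rw [← h4]; rfl
      _ ≤ ‖Dg e F S‖ * ‖x‖ := W.norm_act_le _ _
      _ ≤ 1 * ‖x‖ := mul_le_mul_of_nonneg_right (norm_Dg_le e F S) (norm_nonneg _)
      _ = ‖x‖ := one_mul _
  calc ‖M.act (∑ j ∈ F, sg S j • kb e a j j) (g (∑ l ∈ F, sg S l • W.eD e l x))‖
      ≤ ‖M.act‖ * ‖∑ j ∈ F, sg S j • kb e a j j‖ * ‖g (∑ l ∈ F, sg S l • W.eD e l x)‖ :=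
        M.act.le_opNorm₂ _ _
    _ ≤ ‖M.act‖ * 1 * (‖g‖ * ‖x‖) := by
        refine mul_le_mul (mul_le_mul_of_nonneg_left h2 (norm_nonneg M.act)) ?_ (norm_nonneg _)
          (by positivity)
        exact (g.le_opNorm _).trans (mul_le_mul_of_nonneg_left h3 (norm_nonneg _))
    _ = ‖M.act‖ * ‖g‖ * ‖x‖ := by ring

theorem exists_repr [DecidableEq I] (F : Finset I) (u : (W.B e).D) :
    ∃ (t : Finset (Op H)) (f : t → W.D), (∀ a ∈ t, ‖a‖ ≤ 1 ∧ P e F * a * P e F = a) ∧
      ∑ a : t, ‖f a‖ ≤ 2 * ‖u‖ ∧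
      W.tD e F u = ∑ a : t, (W.B e).act (a : Op H) (W.sD e (f a)) := by
  classical
  obtain ⟨t, ht1, ht2⟩ := exists_net e F
  set L : (W.B e).Y →L[ℂ] (t → W.Y) := ContinuousLinearMap.pi
    (fun a : t => (ContinuousLinearMap.apply ℂ W.Y (a : Op H)).comp (W.mpL e)) with hL
  have hLa : ∀ ψ (a : t), L ψ a = mp ψ (a : Op H) := fun ψ a => rfl
  have hmp : ∀ (ψ : (W.B e).Y) (a : Op H),
      mp ((W.B e).r (P e F) (W.cB e F ψ)) a = mp ψ (P e F * a * P e F) := by
    intro ψ a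
    rw [mp_r, mp_cB']
  have hbound : ∀ ψ, ‖ap (W.tD e F u) ψ‖ ≤ (2 * ‖u‖) * ‖L ψ‖ := by
    intro ψ
    set φ := (W.B e).r (P e F) (W.cB e F ψ) with hφ
    have h1 : ‖φ‖ ≤ 2 * ‖L ψ‖ := by
      have h2 : ‖φ‖ ≤ ‖L ψ‖ + 1 / 2 * ‖φ‖ := by
        refine W.norm_B_le e (by positivity) (fun a => ?_)
        by_cases ha : a = 0
        · rw [ha, map_zero, norm_zero, norm_zero, mul_zero]
        have ha' : ‖a‖ ≠ 0 := norm_ne_zero_iff.2 ha
        set b : Op H := ((‖a‖ : ℂ)⁻¹) • a with hb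
        have hb1 : ‖b‖ ≤ 1 := by
          rw [hb, norm_smul, norm_inv, Complex.norm_real, norm_norm, inv_mul_cancel₀ ha']
        have hab : a = (‖a‖ : ℂ) • b := by
          rw [hb, smul_smul, mul_inv_cancel₀ (by exact_mod_cast ha'), one_smul]
        set b' : Op H := P e F * b * P e F with hb'
        have hPP : P e F * P e F = P e F := by rw [P_mul_P, Finset.inter_self]
        have hb'1 : ‖b'‖ ≤ 1 := by
          rw [hb']
          calc ‖P e F * b * P e F‖ ≤ ‖P e F * b‖ * ‖P e F‖ := norm_mul_le _ _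
            _ ≤ (‖P e F‖ * ‖b‖) * ‖P e F‖ :=
                mul_le_mul_of_nonneg_right (norm_mul_le _ _) (norm_nonneg _)
            _ ≤ (1 * 1) * 1 := by
                refine mul_le_mul (mul_le_mul (norm_P_le e F) hb1 (norm_nonneg _) zero_le_one)
                  (norm_P_le e F) (norm_nonneg _) (by norm_num)
            _ = 1 := by norm_num
        have hb'2 : P e F * b' * P e F = b' := by
          rw [hb']
          calc P e F * (P e F * b * P e F) * P e F = (P e F * P e F) * b * (P e F * P e F) := by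
                simp only [mul_assoc]
            _ = _ := by rw [hPP]
        obtain ⟨c, hc, hbc⟩ := ht2 b' hb'1 hb'2
        have h3 : mp φ b = mp φ c + mp φ (b' - c) := by
          have h4 : mp φ b = mp φ b' := by
            rw [hφ, hmp, hmp, hb'2]
          rw [h4, ← map_add]
          congr 1
          abel
        have h5 : ‖mp φ b‖ ≤ ‖L ψ‖ + 1 / 2 * ‖φ‖ := by
          rw [h3]
          refine (norm_add_le _ _).trans (add_le_add ?_ ?_)
          · rw [hφ, hmp, (ht1 c hc).2]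
            exact norm_le_pi_norm (L ψ) ⟨c, hc⟩
          · refine (W.norm_mp_le e _ _).trans ?_
            rw [mul_comm]
            exact mul_le_mul_of_nonneg_right hbc (norm_nonneg _)
        rw [hab, map_smul, norm_smul, norm_smul, Complex.norm_real, norm_norm]
        have h6 : ‖b‖ = 1 := by
          rw [hb, norm_smul, norm_inv, Complex.norm_real, norm_norm, inv_mul_cancel₀ ha']
        rw [h6, mul_one, mul_comm]
        exact mul_le_mul_of_nonneg_right h5 (norm_nonneg _)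
      linarith
    have h2 : ap (W.tD e F u) ψ = ap u φ := rfl
    rw [h2]
    calc ‖ap u φ‖ ≤ ‖u‖ * ‖φ‖ := norm_ap_le _ _
      _ ≤ ‖u‖ * (2 * ‖L ψ‖) := mul_le_mul_of_nonneg_left h1 (norm_nonneg _)
      _ = (2 * ‖u‖) * ‖L ψ‖ := by ring
  obtain ⟨f, hf1, hf2⟩ := exists_dominated L (ap (W.tD e F u)) (by positivity) hbound
  refine ⟨t, fun a => f.comp (ContinuousLinearMap.single ℂ (fun _ : t => W.Y) a), ht1, ?_, ?_⟩
  · exact (sum_norm_le_of_pi f).trans hf1
  · ext ψ
    rw [hf2, ap_sum]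
    simp only [act_sD]
    have h1 : L ψ = ∑ a : t, ContinuousLinearMap.single ℂ (fun _ : t => W.Y) a (mp ψ (a : Op H)) := by
      ext b
      rw [Finset.sum_apply]
      simp [Pi.single_apply, hLa]
    rw [h1, map_sum]
    rfl

/-- the main estimate -/
theorem norm_EF_le (M : KM H) (g : W.ess e →L[ℂ] M.M) (F : Finset I) (u : (W.B e).D) :
    ‖W.EF e M g F u‖ ≤ (2 * ‖M.act‖ * ‖g‖) * ‖u‖ := by
  classical
  obtain ⟨t, f, h1, h2, h3⟩ := W.exists_repr e F u
  rw [← EF_tD W e M g (Finset.Subset.refl F) u, h3]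
  have h4 : W.EF e M g F (∑ a : t, (W.B e).act (a : Op H) (W.sD e (f a))) =
      ∑ a : t, W.EF e M g F ((W.B e).act (a : Op H) (W.sD e (f a))) := by
    exact map_sum (IsLinearMap.mk' _ (W.isLinearMap_EF e M g F)) _ _
  rw [h4]
  calc ‖∑ a : t, W.EF e M g F ((W.B e).act (a : Op H) (W.sD e (f a)))‖
      ≤ ∑ a : t, ‖M.act‖ * ‖g‖ * ‖f a‖ := by
        refine (norm_sum_le _ _).trans (Finset.sum_le_sum (fun a _ => ?_))
        exact W.norm_EF_act_sD_le e M g F (h1 a a.2).2 (h1 a a.2).1 (f a)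
    _ = ‖M.act‖ * ‖g‖ * ∑ a : t, ‖f a‖ := by rw [Finset.mul_sum]
    _ ≤ ‖M.act‖ * ‖g‖ * (2 * ‖u‖) := mul_le_mul_of_nonneg_left h2 (by positivity)
    _ = (2 * ‖M.act‖ * ‖g‖) * ‖u‖ := by ring

section ext

theorem cauchy_EF (M : KM H) (g : W.ess e →L[ℂ] M.M) (u : (W.B e).ess e) :
    ∃ w, Tendsto (fun F => W.EF e M g F (u : (W.B e).D)) atTop (𝓝 w) := by
  classical
  have h1 : CauchySeq (fun F => W.EF e M g F (u : (W.B e).D)) := by
    rw [Metric.cauchySeq_iff']
    intro ε hε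
    set K := 2 * ‖M.act‖ * ‖g‖ with hK
    have hK0 : 0 ≤ K := by positivity
    have h2 := W.tendsto_tD e u
    rw [Metric.tendsto_nhds] at h2
    obtain ⟨F0, hF0⟩ := (h2 (ε / (K + 1)) (by positivity)).exists
    refine ⟨F0, fun F hF => ?_⟩
    have h3 : W.EF e M g F (u : (W.B e).D) - W.EF e M g F0 (u : (W.B e).D) =
        W.EF e M g F ((u : (W.B e).D) - W.tD e F0 (u : (W.B e).D)) := by
      rw [(W.isLinearMap_EF e M g F).map_sub, EF_tD W e M g hF]
    rw [dist_eq_norm, h3]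
    refine (W.norm_EF_le e M g F _).trans_lt ?_
    rw [dist_eq_norm, norm_sub_rev] at hF0
    rw [lt_div_iff₀ (by positivity)] at hF0
    have h4 := norm_nonneg ((u : (W.B e).D) - W.tD e F0 (u : (W.B e).D))
    nlinarith
  exact cauchySeq_tendsto_of_complete h1

/-- the extension operator `E(g)` -/
def Ex (M : KM H) (g : W.ess e →L[ℂ] M.M) : (W.B e).ess e →L[ℂ] M.M :=
  (exists_limit atTop (fun F (u : (W.B e).ess e) => W.EF e M g F (u : (W.B e).D))
    (fun F => ⟨fun _ _ => (W.isLinearMap_EF e M g F).map_add _ _,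
      fun _ _ => (W.isLinearMap_EF e M g F).map_smul _ _⟩)
    (2 * ‖M.act‖ * ‖g‖) (fun F _ => W.norm_EF_le e M g F _) (W.cauchy_EF e M g)).choose

theorem tendsto_Ex (M : KM H) (g : W.ess e →L[ℂ] M.M) (u : (W.B e).ess e) :
    Tendsto (fun F => W.EF e M g F (u : (W.B e).D)) atTop (𝓝 (W.Ex e M g u)) :=
  (exists_limit atTop (fun F (u : (W.B e).ess e) => W.EF e M g F (u : (W.B e).D))
    (fun F => ⟨fun _ _ => (W.isLinearMap_EF e M g F).map_add _ _,
      fun _ _ => (W.isLinearMap_EF e M g F).map_smul _ _⟩)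
    (2 * ‖M.act‖ * ‖g‖) (fun F _ => W.norm_EF_le e M g F _) (W.cauchy_EF e M g)).choose_spec.1 u

end ext

end RM

end

end Pool.Agent.H83.KH
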