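import Pool.Agent.H83.KH.Ext2

/-! # Properties of the extension operator (helper83, for MP_216d05_an) -/

namespace Pool.Agent.H83.KH

open Filter Topology Set InnerProductSpace

noncomputable section

set_option linter.unusedSectionVars false

universe u

variable {H : Type u} [NormedAddCommGroup H] [InnerProductSpace ℂ H] [CompleteSpace H]
variable {I : Type u}

/-- `f` commutes with the matrix units -/
def EL (e : HilbertBasis I ℂ H) {M M' : KM H} (f : M.M →L[ℂ] M'.M) : Prop :=
  ∀ i j x, f (M.act (kE e i j) x) = M'.act (kE e i j) (f x)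

/-- `f` commutes with the diagonal matrix units -/
def DL (e : HilbertBasis I ℂ H) {M M' : KM H} (f : M.M →L[ℂ] M'.M) : Prop :=
  ∀ j x, f (M.act (kE e j j) x) = M'.act (kE e j j) (f x)

theorem EL.DL {e : HilbertBasis I ℂ H} {M M' : KM H} {f : M.M →L[ℂ] M'.M} (h : EL e f) :
    DL e f := fun j x => h j j x

theorem EL.comp {e : HilbertBasis I ℂ H} {M M' M'' : KM H} {f : M.M →L[ℂ] M'.M}
    {g : M'.M →L[ℂ] M''.M} (hg : EL e g) (hf : EL e f) : EL e (M := M) (M' := M'') (g.comp f) := by
  intro i j x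
  rw [ContinuousLinearMap.comp_apply, hf, hg]; rfl

theorem DL.comp {e : HilbertBasis I ℂ H} {M M' M'' : KM H} {f : M.M →L[ℂ] M'.M}
    {g : M'.M →L[ℂ] M''.M} (hg : DL e g) (hf : DL e f) : DL e (M := M) (M' := M'') (g.comp f) := by
  intro j x
  rw [ContinuousLinearMap.comp_apply, hf, hg]; rfl

theorem EL.sub {e : HilbertBasis I ℂ H} {M M' : KM H} {f g : M.M →L[ℂ] M'.M}
    (hf : EL e f) (hg : EL e g) : EL e (M := M) (M' := M') (f - g) := by
  intro i j x
  rw [_root_.sub_apply, _root_.sub_apply, hf, hg, map_sub]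

theorem DL.sub {e : HilbertBasis I ℂ H} {M M' : KM H} {f g : M.M →L[ℂ] M'.M}
    (hf : DL e f) (hg : DL e g) : DL e (M := M) (M' := M') (f - g) := by
  intro j x
  rw [_root_.sub_apply, _root_.sub_apply, hf, hg, map_sub]

theorem EL_id (e : HilbertBasis I ℂ H) (M : KM H) :
    EL e (M := M) (M' := M) (ContinuousLinearMap.id ℂ M.M) := fun _ _ _ => rfl

namespace RM

variable (W : RM H) (e : HilbertBasis I ℂ H)

/-- the essential part as a `K(H)`-module -/
abbrev K : KM H := KM.ofEss W e

theorem EF_act_E [DecidableEq I] (M : KM H) (g : W.ess e →L[ℂ] M.M) {F : Finset I} {k l : I}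
    (hk : k ∈ F) (hl : l ∈ F) (u : (W.B e).D) :
    W.EF e M g F ((W.B e).act (E e k l) u) = M.act (kE e k l) (W.EF e M g F u) := by
  have h1 : ∀ i j, W.X e i j ((W.B e).act (E e k l) u) = if i = k then W.X e l j u else 0 := by
    intro i j
    apply Subtype.ext
    rw [coe_X, xD_act_E]
    split_ifs <;> rfl
  have h2 : W.EF e M g F ((W.B e).act (E e k l) u) =
      ∑ j ∈ F, M.act (kE e k j) (g (W.X e l j u)) := by
    rw [EF, Finset.sum_eq_single k]
    · simp only [h1, if_true]
    · intro i _ hik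
      refine Finset.sum_eq_zero (fun j _ => ?_)
      rw [h1, if_neg hik, map_zero, map_zero]
    · intro h; exact absurd hk h
  have h3 : M.act (kE e k l) (W.EF e M g F u) =
      ∑ j ∈ F, M.act (kE e k j) (g (W.X e l j u)) := by
    rw [EF, map_sum, Finset.sum_eq_single l]
    · rw [map_sum]
      refine Finset.sum_congr rfl (fun j _ => ?_)
      rw [← M.act_mul, kE_mul, if_pos rfl]
    · intro i _ hil
      rw [map_sum]
      refine Finset.sum_eq_zero (fun j _ => ?_)
      rw [← M.act_mul, kE_mul, if_neg (Ne.symm hil), map_zero]; rfl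
    · intro h; exact absurd hl h
  rw [h2, h3]

theorem Ex_EL (M : KM H) (g : W.ess e →L[ℂ] M.M) :
    EL e (M := (W.B e).K e) (M' := M) (W.Ex e M g) := by
  classical
  intro k l (u : (W.B e).ess e)
  refine tendsto_nhds_unique (W.tendsto_Ex e M g _) ?_
  have h1 : Tendsto (fun F => M.act (kE e k l) (W.EF e M g F (u : (W.B e).D))) atTop
      (𝓝 (M.act (kE e k l) (W.Ex e M g u))) :=
    ((M.act (kE e k l)).continuous.tendsto _).comp (W.tendsto_Ex e M g u)
  refine h1.congr' ?_
  filter_upwards [eventually_ge_atTop ({k, l} : Finset I)] with F hF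
  exact (W.EF_act_E e M g (hF (by simp)) (hF (by simp)) _).symm

theorem Ex_comp (M M' : KM H) (g : W.ess e →L[ℂ] M.M) (f : M.M →L[ℂ] M'.M) (hf : EL e f) :
    f.comp (W.Ex e M g) = W.Ex e M' (f.comp g) := by
  ext u
  refine tendsto_nhds_unique ?_ (W.tendsto_Ex e M' _ u)
  have h1 : Tendsto (fun F => f (W.EF e M g F (u : (W.B e).D))) atTop
      (𝓝 (f (W.Ex e M g u))) := (f.continuous.tendsto _).comp (W.tendsto_Ex e M g u)
  refine h1.congr (fun F => ?_)
  rw [EF, EF, map_sum]
  refine Finset.sum_congr rfl (fun i _ => ?_)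
  rw [map_sum]
  refine Finset.sum_congr rfl (fun j _ => ?_)
  rw [hf]; rfl

theorem Ex_comp_s (M : KM H) (f : (W.B e).ess e →L[ℂ] M.M)
    (hf : EL e (M := (W.B e).K e) (M' := M) f) : W.Ex e M (f.comp (W.s e)) = f := by
  classical
  ext u
  refine tendsto_nhds_unique (W.tendsto_Ex e M _ u) ?_
  set v : Finset I → (W.B e).ess e := fun F =>
    ∑ i ∈ F, ∑ j ∈ F, (W.B e).ea e (E e i j) (W.s e (W.X e i j (u : (W.B e).D))) with hv
  have h1 : ∀ F, (v F : (W.B e).D) = W.tD e F (u : (W.B e).D) := by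
    intro F
    rw [tD_eq_sum, hv]
    simp only [Submodule.coe_sum]
    rfl
  have h2 : Tendsto v atTop (𝓝 u) := by
    rw [tendsto_subtype_rng]
    refine (W.tendsto_tD e u).congr (fun F => (h1 F).symm)
  have h3 : Tendsto (fun F => f (v F)) atTop (𝓝 (f u)) := (f.continuous.tendsto _).comp h2
  refine h3.congr (fun F => ?_)
  rw [EF, hv]
  simp only [map_sum]
  refine Finset.sum_congr rfl (fun i _ => Finset.sum_congr rfl (fun j _ => ?_))
  exact hf i j _

theorem Ex_s (M : KM H) (g : W.ess e →L[ℂ] M.M)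
    (hg : DL e (M := W.K e) (M' := M) g) (x : W.ess e) : W.Ex e M g (W.s e x) = g x := by
  classical
  refine tendsto_nhds_unique (W.tendsto_Ex e M _ _) ?_
  have h1 : Tendsto (fun F => g (W.ea e (P e F) x)) atTop (𝓝 (g x)) :=
    (g.continuous.tendsto _).comp (W.tendsto_ea_P e x)
  refine h1.congr (fun F => ?_)
  rw [P, map_sum, _root_.sum_apply, map_sum, EF]
  refine Finset.sum_congr rfl (fun i hi => ?_)
  have h2 : ∀ j, W.X e i j (W.s e x : (W.B e).D) = if i = j then W.ea e (E e j j) x else 0 := by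
    intro j
    apply Subtype.ext
    rw [coe_X, coe_s, xD_sD]
    split_ifs <;> rfl
  rw [Finset.sum_eq_single i]
  · rw [h2, if_pos rfl]
    have h3 : g (W.ea e (E e i i) (W.ea e (E e i i) x)) =
      M.act (kE e i i) (g (W.ea e (E e i i) x)) := hg i (W.ea e (E e i i) x)
    refine Eq.trans ?_ h3
    rw [← ea_mul, E_mul, if_pos rfl]
  · intro j _ hj
    rw [h2, if_neg (Ne.symm hj), map_zero, map_zero]
  · intro h; exact absurd hi h

theorem s_DL : DL e (M := W.K e) (M' := (W.B e).K e) (W.s e) := by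
  classical
  intro j x
  exact (W.ea_E_s e j x).symm

/-- maps commuting with matrix units between essential modules are `B(H)`-linear -/
theorem EL.map_ea {W' : RM H} {f : W.ess e →L[ℂ] W'.ess e}
    (hf : EL e (M := W.K e) (M' := W'.K e) f) (b : Op H) (x : W.ess e) :
    f (W.ea e b x) = W'.ea e b (f x) := by
  classical
  have hf' : ∀ i j x, f (W.ea e (E e i j) x) = W'.ea e (E e i j) (f x) := hf
  -- first for `b E_jj`
  have h1 : ∀ j y, f (W.ea e (b * E e j j) y) = W'.ea e (b * E e j j) (f y) := by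
    intro j y
    have h2 : ∀ k, W'.ea e (E e k k) (f (W.ea e (b * E e j j) y)) =
        W'.ea e (E e k k) (W'.ea e (b * E e j j) (f y)) := by
      intro k
      rw [← hf', ← ea_mul, ← ea_mul]
      have h3 : E e k k * (b * E e j j) = inner ℂ (e k) (b (e j)) • E e k j := by
        have h4 := P_mul_mul_E e {k} b j
        rw [P, Finset.sum_singleton, Finset.sum_singleton] at h4
        rw [← mul_assoc, h4]
      rw [h3, map_smul, map_smul, _root_.smul_apply, _root_.smul_apply, map_smul, hf']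
    refine tendsto_nhds_unique (W'.tendsto_ea_P e _) ?_
    refine (W'.tendsto_ea_P e _).congr (fun F => ?_)
    rw [P, map_sum, _root_.sum_apply, _root_.sum_apply]
    exact Finset.sum_congr rfl (fun k _ => (h2 k).symm)
  have h2 : ∀ F, f (W.ea e b (W.ea e (P e F) x)) = W'.ea e b (W'.ea e (P e F) (f x)) := by
    intro F
    rw [← ea_mul, ← ea_mul, P, Finset.mul_sum, map_sum, map_sum, _root_.sum_apply,
      _root_.sum_apply, map_sum]
    exact Finset.sum_congr rfl (fun j _ => h1 j x)
  have h3 : Tendsto (fun F => f (W.ea e b (W.ea e (P e F) x))) atTop (𝓝 (f (W.ea e b x))) :=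
    ((f.comp (W.ea e b)).continuous.tendsto _).comp (W.tendsto_ea_P e x)
  have h4 : Tendsto (fun F => W'.ea e b (W'.ea e (P e F) (f x))) atTop (𝓝 (W'.ea e b (f x))) :=
    ((W'.ea e b).continuous.tendsto _).comp (W'.tendsto_ea_P e (f x))
  refine tendsto_nhds_unique h3 (h4.congr (fun F => (h2 F).symm))

end RM

end

end Pool.Agent.H83.KH
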