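import Pool.Agent.H83.KH.Base
import Pool.Agent.H83.KH.Cmp
import Pool.Agent.H83.Dim.Conv

/-! # Main theorem: `dg A = ∞` (helper83, for MP_216d05_an) -/

namespace Pool.Agent.H83.KH

open Filter Topology Set InnerProductSpace

noncomputable section

set_option linter.unusedSectionVars false

universe u

variable {H : Type u} [NormedAddCommGroup H] [InnerProductSpace ℂ H] [CompleteSpace H]

/-- the data of the concrete complex -/
def mkData {I : Type u} (e : HilbertBasis I ℂ H) {A : Type u} [NonUnitalNormedRing A]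
    [NormedSpace ℂ A] (ι : Kc H →L[ℂ] A) (hι : ∀ x y, ι (x * y) = ι x * ι y)
    (j : A →L[ℂ] Op H) (hj : ∀ x y, j (x * y) = j x * j y) (hji : ∀ x, j (ι x) = x.op) :
    Data H e A where
  ι := ι
  hι := hι
  j := j
  hj := hj
  hji := hji
  C := Ck (Y0 H) e
  X := Xk (Y0 H) e
  aB := fun k => (Yk (Y0 H) e k).ea e
  aB_mul := fun k a b x => (Yk (Y0 H) e k).ea_mul e a b x
  haB := fun _ _ _ => rfl
  hdB := fun k b u => RM.EL.map_ea (Yk (Y0 H) e (k + 1)) e (dk_EL (Xk (Y0 H) e) k) b u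

theorem no_finite_resolution {I : Type u} [Infinite I] (e : HilbertBasis I ℂ H) {A : Type u}
    [NonUnitalNormedRing A] [NormedSpace ℂ A] (ι : Kc H →L[ℂ] A)
    (hι : ∀ x y, ι (x * y) = ι x * ι y) (j : A →L[ℂ] Op H)
    (hj : ∀ x y, j (x * y) = j x * j y) (hji : ∀ x, j (ι x) = x.op)
    (R : Dim.Resolution ((mkData e ι hι j hj hji).Cm 0)) (n : ℕ) :
    ¬ ∀ k, n < k → Subsingleton (R.P k) := by
  intro hn
  obtain ⟨k, hk⟩ := (mkData e ι hι j hj hji).exists_EqSec R n hn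
  exact not_EqSec e k hk

/-- conversion of resolutions -/
def ofRes {A : Type u} [NonUnitalNormedRing A] [NormedSpace ℂ A] (Y : Dim.LMod A)
    (R : HD.Resolution (HD.ofD Y)) : Dim.Resolution Y where
  P := fun k => HD.toD (R.P k)
  ε := ⟨R.ε.bdd.toContinuousLinearMap, R.ε.map_act⟩
  d := fun k => ⟨(R.d k).bdd.toContinuousLinearMap, (R.d k).map_act⟩
  projective := fun k => HD.proj_toD (R.projective k)
  ε_d := R.ε_d
  d_d := R.d_d
  s₀ := R.s₀_bdd.toContinuousLinearMap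
  s := fun k => (R.s_bdd k).toContinuousLinearMap
  ε_s₀ := R.ε_s₀
  split₀ := R.split₀
  split := R.split

theorem dg_top (hH : ¬ FiniteDimensional ℂ H) {A : Type u}
    [NonUnitalNormedRing A] [NormedSpace ℂ A] (ι : Kc H →L[ℂ] A)
    (hι : ∀ x y, ι (x * y) = ι x * ι y) (j : A →L[ℂ] Op H)
    (hj : ∀ x y, j (x * y) = j x * j y) (hji : ∀ x, j (ι x) = x.op) : HD.dg A = ⊤ := by
  obtain ⟨w, e, -⟩ := exists_hilbertBasis ℂ H
  have hinf : Infinite w := by
    by_contra hfin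
    rw [not_infinite_iff_finite] at hfin
    have : Fintype w := Fintype.ofFinite w
    exact hH (Module.Basis.finiteDimensional_of_finite e.toOrthonormalBasis.toBasis)
  set Y : Dim.LMod A := (mkData e ι hι j hj hji).Cm 0 with hY
  have h1 : HD.dh (HD.ofD Y) = ⊤ := by
    rw [HD.dh]
    simp only [iInf_eq_top]
    rintro n ⟨R, hR⟩
    exact absurd hR (no_finite_resolution e ι hι j hj hji (ofRes Y R) n)
  exact top_le_iff.1 (h1.ge.trans (le_iSup (fun X : HD.LMod A => HD.dh X) (HD.ofD Y)))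

/-- `dg K(H) = ∞` -/
theorem dg_compacts (hH : ¬ FiniteDimensional ℂ H) : HD.dg (Kc H) = ⊤ :=
  dg_top hH (ContinuousLinearMap.id ℂ (Kc H)) (fun _ _ => rfl) (inc H) (fun _ _ => rfl)
    (fun _ => rfl)

/-- `dg B(H) = ∞` -/
theorem dg_bounded (hH : ¬ FiniteDimensional ℂ H) : HD.dg (H →L[ℂ] H) = ⊤ :=
  dg_top hH (inc H) (fun _ _ => rfl) (ContinuousLinearMap.id ℂ (Op H)) (fun _ _ => rfl)
    (fun _ => rfl)

end

end Pool.Agent.H83.KH
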