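import Mathlib

/-! # Matrix units on a Hilbert space (helper83, for MP_216d05_an) -/

namespace Pool.Agent.H83.KH

open Filter Topology Set InnerProductSpace

noncomputable section

universe u

/-- bounded operators on `H` -/
abbrev Op (H : Type u) [NormedAddCommGroup H] [InnerProductSpace ℂ H] := H →L[ℂ] H

variable {H : Type u} [NormedAddCommGroup H] [InnerProductSpace ℂ H]
variable {I : Type u}

section

variable (e : HilbertBasis I ℂ H)

/-- matrix units -/
def E (i j : I) : Op H := rankOne ℂ (e i) (e j)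

theorem E_apply (i j : I) (x : H) : E e i j x = inner ℂ (e j) x • e i := rfl

theorem norm_e (i : I) : ‖e i‖ = 1 := e.orthonormal.1 i

theorem inner_e [DecidableEq I] (i j : I) : inner ℂ (e i) (e j) = if i = j then (1 : ℂ) else 0 :=
  orthonormal_iff_ite.1 e.orthonormal i j

theorem E_e [DecidableEq I] (i j k : I) : E e i j (e k) = if j = k then e i else 0 := by
  rw [E_apply, inner_e]
  split_ifs <;> simp

theorem norm_E (i j : I) : ‖E e i j‖ = 1 := by
  rw [E, norm_rankOne, norm_e, norm_e, mul_one]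

theorem mul_E (b : Op H) (i j : I) : b * E e i j = rankOne ℂ (b (e i)) (e j) :=
  comp_rankOne _ _ _

theorem mul_E_apply (b : Op H) (i j : I) (x : H) :
    (b * E e i j) x = inner ℂ (e j) x • b (e i) := by
  rw [mul_E]; rfl

theorem E_mul [DecidableEq I] (i j k l : I) :
    E e i j * E e k l = if j = k then E e i l else 0 := by
  ext x
  rw [mul_E_apply, E_e]
  split_ifs with h
  · rfl
  · simp

theorem norm_sum_E_le {S : Type*} (s : Finset S) {p q : S → I} (hp : Set.InjOn p s)
    (hq : Set.InjOn q s) (c : S → ℂ) (hc : ∀ t ∈ s, ‖c t‖ ≤ 1) :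
    ‖∑ t ∈ s, c t • E e (p t) (q t)‖ ≤ 1 := by
  classical
  refine ContinuousLinearMap.opNorm_le_bound _ zero_le_one (fun x => ?_)
  rw [one_mul]
  have hp' : Orthonormal ℂ (fun t : s => e (p t)) := by
    refine e.orthonormal.comp (fun t : s => p t) ?_
    intro a b hab
    exact Subtype.ext (hp a.2 b.2 hab)
  have hq' : Orthonormal ℂ (fun t : s => e (q t)) := by
    refine e.orthonormal.comp (fun t : s => q t) ?_
    intro a b hab
    exact Subtype.ext (hq a.2 b.2 hab)
  have h1 : (∑ t ∈ s, c t • E e (p t) (q t)) x =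
      ∑ t : s, (c t * inner ℂ (e (q t)) x) • e (p t) := by
    rw [_root_.sum_apply, ← Finset.sum_coe_sort]
    refine Finset.sum_congr rfl (fun t _ => ?_)
    rw [_root_.smul_apply, E_apply, smul_smul]
  rw [h1]
  have h2 : ‖∑ t : s, (c t * inner ℂ (e (q t)) x) • e (p t)‖ ^ 2 =
      ∑ t : s, ‖c t * inner ℂ (e (q t)) x‖ ^ 2 := by
    have h3 := hp'.inner_sum (fun t : s => c t * inner ℂ (e (q t)) x)
      (fun t : s => c t * inner ℂ (e (q t)) x) Finset.univ
    rw [inner_self_eq_norm_sq_to_K] at h3
    have h4 : ∀ z : ℂ, (starRingEnd ℂ) z * z = ((‖z‖ ^ 2 : ℝ) : ℂ) := by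
      intro z
      rw [← Complex.normSq_eq_conj_mul_self, Complex.normSq_eq_norm_sq]
    simp only [h4] at h3
    apply Complex.ofReal_injective
    push_cast
    push_cast at h3
    exact h3
  have h5 : ∑ t : s, ‖c t * inner ℂ (e (q t)) x‖ ^ 2 ≤ ‖x‖ ^ 2 := by
    refine le_trans (Finset.sum_le_sum (fun t _ => ?_))
      (hq'.sum_inner_products_le (s := Finset.univ) x)
    rw [norm_mul]
    have := hc t t.2
    have h6 : ‖c t‖ * ‖inner ℂ (e (q t)) x‖ ≤ ‖inner ℂ (e (q t)) x‖ :=
      mul_le_of_le_one_left (norm_nonneg _) this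
    exact pow_le_pow_left₀ (by positivity) h6 2
  rw [← h2] at h5
  exact le_of_sq_le_sq h5 (norm_nonneg _)

/-- finite rank coordinate projections -/
def P (F : Finset I) : Op H := ∑ i ∈ F, E e i i

theorem norm_P_le (F : Finset I) : ‖P e F‖ ≤ 1 := by
  have := norm_sum_E_le e F (p := id) (q := id) (injOn_id _) (injOn_id _) (fun _ => 1)
    (fun _ _ => by simp)
  simpa [P] using this

theorem P_apply (F : Finset I) (x : H) : P e F x = ∑ i ∈ F, inner ℂ (e i) x • e i := by
  rw [P, _root_.sum_apply]; rfl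

theorem P_mul_E [DecidableEq I] (F : Finset I) (i j : I) :
    P e F * E e i j = if i ∈ F then E e i j else 0 := by
  rw [P, Finset.sum_mul]
  simp only [E_mul]
  split_ifs with h
  · rw [Finset.sum_eq_single i]
    · simp
    · intro b _ hb
      rw [if_neg hb]
    · intro h'; exact absurd h h'
  · apply Finset.sum_eq_zero
    intro b hb
    rw [if_neg]
    rintro rfl
    exact h hb

theorem E_mul_P [DecidableEq I] (F : Finset I) (i j : I) :
    E e i j * P e F = if j ∈ F then E e i j else 0 := by
  rw [P, Finset.mul_sum]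
  simp only [E_mul]
  split_ifs with h
  · rw [Finset.sum_eq_single j]
    · simp
    · intro b _ hb
      rw [if_neg (Ne.symm hb)]
    · intro h'; exact absurd h h'
  · apply Finset.sum_eq_zero
    intro b hb
    rw [if_neg]
    rintro rfl
    exact h hb

theorem P_mul_P [DecidableEq I] (F G : Finset I) : P e F * P e G = P e (F ∩ G) := by
  conv_lhs => rw [P, Finset.sum_mul]
  simp only [E_mul_P]
  rw [← Finset.sum_filter, Finset.filter_mem_eq_inter]; rfl

theorem P_e [DecidableEq I] (F : Finset I) (j : I) : P e F (e j) = if j ∈ F then e j else 0 := by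
  rw [P_apply]
  simp only [inner_e]
  split_ifs with h
  · rw [Finset.sum_eq_single j]
    · simp
    · intro b _ hb
      rw [if_neg hb, zero_smul]
    · intro h'; exact absurd h h'
  · apply Finset.sum_eq_zero
    intro b hb
    rw [if_neg, zero_smul]
    rintro rfl
    exact h hb

theorem tendsto_P (x : H) : Tendsto (fun F => P e F x) atTop (𝓝 x) := by
  have h := e.hasSum_repr x
  simp only [e.repr_apply_apply] at h
  simp only [P_apply]
  exact h

theorem norm_rankOne_le (v w : H) : ‖rankOne ℂ v w‖ ≤ ‖v‖ * ‖w‖ := (norm_rankOne v w).le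

/-- `P F * k → k` for `k = b * E i j` -/
theorem tendsto_P_mul (b : Op H) (i j : I) :
    Tendsto (fun F => P e F * (b * E e i j)) atTop (𝓝 (b * E e i j)) := by
  rw [tendsto_iff_norm_sub_tendsto_zero]
  have h := (tendsto_iff_norm_sub_tendsto_zero.1 (tendsto_P e (b (e i))))
  refine squeeze_zero (fun _ => norm_nonneg _) (fun F => ?_) h
  have h2 : P e F * (b * E e i j) - b * E e i j = rankOne ℂ (P e F (b (e i)) - b (e i)) (e j) := by
    rw [mul_E, map_sub]
    congr 1
    exact comp_rankOne _ _ _
  rw [h2, norm_rankOne, norm_e, mul_one]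

/-- column expansion -/
theorem P_mul_mul_E (F : Finset I) (b : Op H) (j : I) :
    P e F * b * E e j j = ∑ i ∈ F, inner ℂ (e i) (b (e j)) • E e i j := by
  ext x
  rw [mul_E_apply, _root_.sum_apply]
  change inner ℂ (e j) x • P e F (b (e j)) = _
  rw [P_apply, Finset.smul_sum]
  refine Finset.sum_congr rfl (fun i _ => ?_)
  rw [_root_.smul_apply, E_apply, smul_smul, smul_smul, mul_comm]

end

/-- rows of operators are square summable -/
theorem row_sq_le [CompleteSpace H] (e : HilbertBasis I ℂ H) (F : Finset I) (b : Op H) (i : I) :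
    ∑ j ∈ F, ‖inner ℂ (e i) (b (e j))‖ ^ 2 ≤ ‖b‖ ^ 2 := by
  have h1 : ∀ j, ‖inner ℂ (e i) (b (e j))‖ = ‖inner ℂ (e j) (ContinuousLinearMap.adjoint b (e i))‖ := by
    intro j
    rw [← ContinuousLinearMap.adjoint_inner_left, ← inner_conj_symm, RCLike.norm_conj]
  simp only [h1]
  refine (e.orthonormal.sum_inner_products_le (s := F) _).trans ?_
  refine pow_le_pow_left₀ (norm_nonneg _) ?_ 2
  refine (ContinuousLinearMap.le_opNorm _ _).trans ?_
  rw [norm_e, mul_one, LinearIsometryEquiv.norm_map]

/-- columns of operators are square summable -/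
theorem col_sq_le (e : HilbertBasis I ℂ H) (F : Finset I) (b : Op H) (j : I) :
    ∑ i ∈ F, ‖inner ℂ (e i) (b (e j))‖ ^ 2 ≤ ‖b‖ ^ 2 := by
  refine (e.orthonormal.sum_inner_products_le (s := F) _).trans ?_
  refine pow_le_pow_left₀ (norm_nonneg _) ?_ 2
  refine (ContinuousLinearMap.le_opNorm _ _).trans ?_
  rw [norm_e, mul_one]

end

end Pool.Agent.H83.KH
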