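import Pool.Agent.H83.KH.Mat
import Pool.Agent.H83.Dim.Bidim

/-! # Right modules, their duals, and the functor `B` (helper83, for MP_216d05_an) -/

namespace Pool.Agent.H83.KH

open Filter Topology Set InnerProductSpace

noncomputable section

set_option linter.unusedSectionVars false

universe u

/-- A contractive unital right module over `B(H)`: `r b y = y · b`. -/
structure RM (H : Type u) [NormedAddCommGroup H] [InnerProductSpace ℂ H] where
  /-- the underlying space -/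
  Y : Type u
  [grp : NormedAddCommGroup Y]
  [spc : NormedSpace ℂ Y]
  /-- the action -/
  r : Op H →L[ℂ] Y →L[ℂ] Y
  r_mul : ∀ a b y, r (a * b) y = r b (r a y)
  r_one : ∀ y, r 1 y = y
  norm_r : ∀ b y, ‖r b y‖ ≤ ‖b‖ * ‖y‖

attribute [instance] RM.grp RM.spc

variable {H : Type u} [NormedAddCommGroup H] [InnerProductSpace ℂ H]
variable {I : Type u}

namespace RM

variable (W : RM H)

/-- the dual space -/
def D : Type u := W.Y →L[ℂ] ℂ

instance : NormedAddCommGroup W.D := inferInstanceAs (NormedAddCommGroup (W.Y →L[ℂ] ℂ))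
instance : NormedSpace ℂ W.D := inferInstanceAs (NormedSpace ℂ (W.Y →L[ℂ] ℂ))
instance : CompleteSpace W.D := inferInstanceAs (CompleteSpace (W.Y →L[ℂ] ℂ))

variable {W}

/-- view an element of the dual as a map -/
def ap (x : W.D) : W.Y →L[ℂ] ℂ := x

@[ext] theorem D_ext {x x' : W.D} (h : ∀ y, ap x y = ap x' y) : x = x' :=
  ContinuousLinearMap.ext h

@[simp] theorem ap_add (x x' : W.D) (y : W.Y) : ap (x + x') y = ap x y + ap x' y := rfl
@[simp] theorem ap_sub (x x' : W.D) (y : W.Y) : ap (x - x') y = ap x y - ap x' y := rfl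
@[simp] theorem ap_smul (c : ℂ) (x : W.D) (y : W.Y) : ap (c • x) y = c * ap x y := rfl
@[simp] theorem ap_zero (y : W.Y) : ap (0 : W.D) y = 0 := rfl

theorem norm_ap (x : W.D) : ‖ap x‖ = ‖x‖ := rfl

theorem norm_ap_le (x : W.D) (y : W.Y) : ‖ap x y‖ ≤ ‖x‖ * ‖y‖ := (ap x).le_opNorm y

theorem norm_D_le {x : W.D} {C : ℝ} (hC : 0 ≤ C) (h : ∀ y, ‖ap x y‖ ≤ C * ‖y‖) : ‖x‖ ≤ C :=
  ContinuousLinearMap.opNorm_le_bound (ap x) hC h

variable (W)

/-- `ap` as a bounded linear map -/
def apL : W.D →L[ℂ] (W.Y →L[ℂ] ℂ) := ContinuousLinearMap.id ℂ (W.Y →L[ℂ] ℂ)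

theorem apL_apply (x : W.D) : W.apL x = ap x := rfl

theorem ap_sum {S : Type*} (s : Finset S) (x : S → W.D) (y : W.Y) :
    ap (∑ t ∈ s, x t) y = ∑ t ∈ s, ap (x t) y := by
  rw [← apL_apply, map_sum, _root_.sum_apply]; rfl

/-- the left action on the dual space -/
def act : Op H →L[ℂ] W.D →L[ℂ] W.D :=
  (ContinuousLinearMap.compL ℂ W.Y W.Y ℂ).flip.comp W.r

@[simp] theorem act_apply (b : Op H) (x : W.D) (y : W.Y) : ap (W.act b x) y = ap x (W.r b y) := rfl

theorem act_mul (a b : Op H) (x : W.D) : W.act (a * b) x = W.act a (W.act b x) := by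
  ext y
  simp only [act_apply, W.r_mul]

theorem act_one (x : W.D) : W.act 1 x = x := by
  ext y
  simp only [act_apply, W.r_one]

theorem norm_act_le (b : Op H) (x : W.D) : ‖W.act b x‖ ≤ ‖b‖ * ‖x‖ := by
  refine norm_D_le (by positivity) (fun y => ?_)
  rw [act_apply]
  refine (norm_ap_le _ _).trans ?_
  calc ‖x‖ * ‖W.r b y‖ ≤ ‖x‖ * (‖b‖ * ‖y‖) :=
        mul_le_mul_of_nonneg_left (W.norm_r b y) (norm_nonneg _)
    _ = ‖b‖ * ‖x‖ * ‖y‖ := by ring

variable (e : HilbertBasis I ℂ H)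

theorem norm_act_P_le (F : Finset I) (x : W.D) : ‖W.act (P e F) x‖ ≤ ‖x‖ := by
  refine (W.norm_act_le _ _).trans ?_
  exact mul_le_of_le_one_left (norm_nonneg _) (norm_P_le e F)

/-- the essential part of the dual module -/
def ess : Submodule ℂ W.D where
  carrier := {x | Tendsto (fun F => W.act (P e F) x) atTop (𝓝 x)}
  add_mem' := by
    intro x y hx hy
    change Tendsto (fun F => W.act (P e F) (x + y)) atTop (𝓝 (x + y))
    simp only [map_add]
    exact Tendsto.add hx hy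
  zero_mem' := by
    change Tendsto (fun F => W.act (P e F) 0) atTop (𝓝 0)
    simp only [map_zero]
    exact tendsto_const_nhds
  smul_mem' := by
    intro c x hx
    change Tendsto (fun F => W.act (P e F) (c • x)) atTop (𝓝 (c • x))
    simp only [map_smul]
    exact Tendsto.const_smul hx c

theorem mem_ess {x : W.D} : x ∈ W.ess e ↔ Tendsto (fun F => W.act (P e F) x) atTop (𝓝 x) :=
  Iff.rfl

theorem isClosed_ess : IsClosed (W.ess e : Set W.D) := by
  rw [← isSeqClosed_iff_isClosed]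
  intro x y hx hy
  change Tendsto (fun F => W.act (P e F) y) atTop (𝓝 y)
  rw [Metric.tendsto_nhds]
  intro ε hε
  rw [Metric.tendsto_atTop] at hy
  obtain ⟨n, hn⟩ := hy (ε / 3) (by positivity)
  have h1 := hn n le_rfl
  have h2 := hx n
  change Tendsto (fun F => W.act (P e F) (x n)) atTop (𝓝 (x n)) at h2
  rw [Metric.tendsto_nhds] at h2
  filter_upwards [h2 (ε / 3) (by positivity)] with G h3
  rw [dist_eq_norm] at h1 h3 ⊢
  calc ‖W.act (P e G) y - y‖
      = ‖-(W.act (P e G) (x n - y)) + (W.act (P e G) (x n) - x n) + (x n - y)‖ := by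
        rw [map_sub]; congr 1; abel
    _ ≤ ‖-(W.act (P e G) (x n - y))‖ + ‖W.act (P e G) (x n) - x n‖ + ‖x n - y‖ :=
        norm_add₃_le
    _ < ε := by
        rw [norm_neg]
        have := W.norm_act_P_le e G (x n - y)
        linarith

instance : IsClosed (W.ess e : Set W.D) := W.isClosed_ess e

instance : CompleteSpace (W.ess e) := (W.isClosed_ess e).completeSpace_coe

variable {e}

theorem mem_ess_of_P [DecidableEq I] {x : W.D} {F : Finset I} (h : W.act (P e F) x = x) :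
    x ∈ W.ess e := by
  refine tendsto_const_nhds.congr' ?_
  filter_upwards [eventually_ge_atTop F] with G hG
  rw [← h, ← act_mul, P_mul_P, Finset.inter_eq_right.2 hG]

theorem act_bP_mem (b : Op H) (i j : I) (x : W.D) : W.act (b * E e i j) x ∈ W.ess e := by
  change Tendsto (fun F => W.act (P e F) (W.act (b * E e i j) x)) atTop _
  simp only [← act_mul]
  have h1 : Continuous (fun b : Op H => W.act b x) := (W.act.flip x).continuous
  exact (h1.tendsto _).comp (tendsto_P_mul e b i j)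

theorem act_mul_P_mem (b : Op H) (F : Finset I) (x : W.D) : W.act (b * P e F) x ∈ W.ess e := by
  rw [P, Finset.mul_sum, map_sum, _root_.sum_apply]
  exact Submodule.sum_mem _ (fun i _ => W.act_bP_mem b i i x)

theorem act_mem (b : Op H) {x : W.D} (hx : x ∈ W.ess e) : W.act b x ∈ W.ess e := by
  have h1 : Tendsto (fun F => W.act (b * P e F) x) atTop (𝓝 (W.act b x)) := by
    simp only [act_mul]
    exact ((W.act b).continuous.tendsto _).comp hx
  exact (W.isClosed_ess e).mem_of_tendsto h1 (Eventually.of_forall (fun F => W.act_mul_P_mem b F x))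

variable (e)

/-- the action on the essential part -/
def ea : Op H →L[ℂ] W.ess e →L[ℂ] W.ess e :=
  Dim.restrAct W.act (W.ess e) (fun b _ hx => W.act_mem b hx)

@[simp] theorem coe_ea (b : Op H) (x : W.ess e) : (W.ea e b x : W.D) = W.act b x := rfl

theorem ea_mul (a b : Op H) (x : W.ess e) : W.ea e (a * b) x = W.ea e a (W.ea e b x) :=
  Subtype.ext (W.act_mul a b x)

theorem ea_one (x : W.ess e) : W.ea e 1 x = x := Subtype.ext (W.act_one x)

theorem norm_ea_le (b : Op H) (x : W.ess e) : ‖W.ea e b x‖ ≤ ‖b‖ * ‖x‖ := W.norm_act_le b x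

theorem tendsto_ea_P (x : W.ess e) : Tendsto (fun F => W.ea e (P e F) x) atTop (𝓝 x) := by
  rw [tendsto_subtype_rng]
  exact x.2

/-! ### the functor `B` -/

/-- `Op H →L W.Y` -/
def Z : Type u := Op H →L[ℂ] W.Y

instance : NormedAddCommGroup W.Z := inferInstanceAs (NormedAddCommGroup (Op H →L[ℂ] W.Y))
instance : NormedSpace ℂ W.Z := inferInstanceAs (NormedSpace ℂ (Op H →L[ℂ] W.Y))

/-- view as a map -/
def az {W : RM H} (ψ : W.Z) : Op H →L[ℂ] W.Y := ψ

/-- `az` as a bounded linear map -/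
def azL : W.Z →L[ℂ] (Op H →L[ℂ] W.Y) := ContinuousLinearMap.id ℂ (Op H →L[ℂ] W.Y)

@[ext] theorem Z_ext {W : RM H} {ψ φ : W.Z} (h : ∀ a, az ψ a = az φ a) : ψ = φ :=
  ContinuousLinearMap.ext h

/-- the generators `a ↦ f (a e_j) • (y · e_jj)` -/
def psi (f : H →L[ℂ] ℂ) (j : I) (y : W.Y) : W.Z :=
  (f.comp (ContinuousLinearMap.apply ℂ H (e j))).smulRight (W.r (E e j j) y)

theorem psi_apply (f : H →L[ℂ] ℂ) (j : I) (y : W.Y) (a : Op H) :
    az (W.psi e f j y) a = f (a (e j)) • W.r (E e j j) y := rfl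

/-- the space of the right module `B W` -/
def BS : Submodule ℂ W.Z :=
  Submodule.span ℂ {ψ | ∃ f j y, ψ = W.psi e f j y}

theorem psi_mem (f : H →L[ℂ] ℂ) (j : I) (y : W.Y) : W.psi e f j y ∈ W.BS e :=
  Submodule.subset_span ⟨f, j, y, rfl⟩

/-- the right action of `B(H)` on `Op H →L W.Y` -/
def rr : Op H →L[ℂ] W.Z →L[ℂ] W.Z :=
  (ContinuousLinearMap.compL ℂ (Op H) (Op H) W.Y).flip.comp (ContinuousLinearMap.mul ℂ (Op H))

theorem rr_apply (b a : Op H) (ψ : W.Z) : az (W.rr b ψ) a = az ψ (b * a) := rfl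

theorem rr_psi (b : Op H) (f : H →L[ℂ] ℂ) (j : I) (y : W.Y) :
    W.rr b (W.psi e f j y) = W.psi e (f.comp b) j y := rfl

theorem rr_mem (b : Op H) {ψ : W.Z} (hψ : ψ ∈ W.BS e) : W.rr b ψ ∈ W.BS e := by
  refine Submodule.span_induction (p := fun ψ _ => W.rr b ψ ∈ W.BS e) ?_ ?_ ?_ ?_ hψ
  · rintro _ ⟨f, j, y, rfl⟩
    rw [rr_psi]
    exact W.psi_mem e _ _ _
  · rw [map_zero]; exact Submodule.zero_mem _
  · intro x y _ _ hx hy
    rw [map_add]; exact Submodule.add_mem _ hx hy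
  · intro c x _ hx
    rw [map_smul]; exact Submodule.smul_mem _ _ hx

/-- the right module `B W` -/
def B : RM H where
  Y := W.BS e
  r := Dim.restrAct W.rr (W.BS e) (fun b _ hψ => W.rr_mem e b hψ)
  r_mul := fun a b ψ => Subtype.ext (by
    apply Z_ext
    intro c
    change az (ψ : W.Z) ((a * b) * c) = az (ψ : W.Z) (a * (b * c))
    rw [mul_assoc])
  r_one := fun ψ => Subtype.ext (by
    apply Z_ext
    intro c
    change az (ψ : W.Z) (1 * c) = _
    rw [one_mul])
  norm_r := fun b ψ => by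
    change ‖W.rr b (ψ : W.Z)‖ ≤ ‖b‖ * ‖(ψ : W.Z)‖
    refine ContinuousLinearMap.opNorm_le_bound (az (W.rr b (ψ : W.Z))) (by positivity)
      (fun a => ?_)
    rw [rr_apply]
    calc ‖az (ψ : W.Z) (b * a)‖ ≤ ‖(ψ : W.Z)‖ * ‖b * a‖ :=
          ContinuousLinearMap.le_opNorm _ _
      _ ≤ ‖(ψ : W.Z)‖ * (‖b‖ * ‖a‖) :=
          mul_le_mul_of_nonneg_left (norm_mul_le _ _) (norm_nonneg _)
      _ = ‖b‖ * ‖(ψ : W.Z)‖ * ‖a‖ := by ring

variable {e}

/-- view an element of `B W` as a map -/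
def mp {W : RM H} (ψ : (W.B e).Y) : Op H →L[ℂ] W.Y := az (show W.BS e from ψ).1

variable (e)

/-- `mp` as a bounded linear map -/
def mpL : (W.B e).Y →L[ℂ] (Op H →L[ℂ] W.Y) := W.azL.comp (W.BS e).subtypeL

theorem mpL_apply (ψ : (W.B e).Y) : W.mpL e ψ = mp ψ := rfl

@[simp] theorem mp_add (ψ φ : (W.B e).Y) (a : Op H) : mp (ψ + φ) a = mp ψ a + mp φ a := rfl
@[simp] theorem mp_sub (ψ φ : (W.B e).Y) (a : Op H) : mp (ψ - φ) a = mp ψ a - mp φ a := rfl
@[simp] theorem mp_smul (c : ℂ) (ψ : (W.B e).Y) (a : Op H) : mp (c • ψ) a = c • mp ψ a := rfl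
@[simp] theorem mp_zero (a : Op H) : mp (0 : (W.B e).Y) a = 0 := rfl

theorem mp_sum {S : Type*} (s : Finset S) (ψ : S → (W.B e).Y) (a : Op H) :
    mp (∑ t ∈ s, ψ t) a = ∑ t ∈ s, mp (ψ t) a := by
  rw [← mpL_apply, map_sum, _root_.sum_apply]; rfl

theorem norm_mp (ψ : (W.B e).Y) : ‖mp ψ‖ = ‖ψ‖ := rfl

theorem norm_mp_le (ψ : (W.B e).Y) (a : Op H) : ‖mp ψ a‖ ≤ ‖ψ‖ * ‖a‖ := (mp ψ).le_opNorm a

theorem norm_B_le {ψ : (W.B e).Y} {C : ℝ} (hC : 0 ≤ C) (h : ∀ a, ‖mp ψ a‖ ≤ C * ‖a‖) :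
    ‖ψ‖ ≤ C := ContinuousLinearMap.opNorm_le_bound (mp ψ) hC h

@[simp] theorem mp_r (b a : Op H) (ψ : (W.B e).Y) : mp ((W.B e).r b ψ) a = mp ψ (b * a) := rfl

variable {e W} in
theorem mp_ext {ψ φ : (W.B e).Y} (h : ∀ a, mp ψ a = mp φ a) : ψ = φ :=
  Subtype.ext (Z_ext h)

/-- generators as elements of `B W` -/
def gen (f : H →L[ℂ] ℂ) (j : I) : W.Y →L[ℂ] (W.B e).Y :=
  LinearMap.mkContinuous
    { toFun := fun y => (⟨W.psi e f j y, W.psi_mem e f j y⟩ : W.BS e)
      map_add' := fun x y => Subtype.ext (by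
        apply Z_ext
        intro a
        change f (a (e j)) • W.r (E e j j) (x + y) =
          f (a (e j)) • W.r (E e j j) x + f (a (e j)) • W.r (E e j j) y
        rw [map_add, smul_add])
      map_smul' := fun c x => Subtype.ext (by
        apply Z_ext
        intro a
        change f (a (e j)) • W.r (E e j j) (c • x) = c • (f (a (e j)) • W.r (E e j j) x)
        rw [map_smul, smul_comm]) }
    ‖f‖ (fun y => by
      change ‖W.psi e f j y‖ ≤ _
      refine ContinuousLinearMap.opNorm_le_bound (az (W.psi e f j y)) (by positivity)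
        (fun a => ?_)
      rw [psi_apply, norm_smul]
      have h1 : ‖f (a (e j))‖ ≤ ‖f‖ * ‖a‖ := by
        refine (f.le_opNorm _).trans (mul_le_mul_of_nonneg_left ?_ (norm_nonneg _))
        refine (a.le_opNorm _).trans ?_
        rw [norm_e, mul_one]
      have h2 : ‖W.r (E e j j) y‖ ≤ ‖y‖ := by
        refine (W.norm_r _ _).trans ?_
        rw [norm_E, one_mul]
      calc ‖f (a (e j))‖ * ‖W.r (E e j j) y‖ ≤ (‖f‖ * ‖a‖) * ‖y‖ :=
            mul_le_mul h1 h2 (norm_nonneg _) (by positivity)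
        _ = ‖f‖ * ‖y‖ * ‖a‖ := by ring)

@[simp] theorem mp_gen (f : H →L[ℂ] ℂ) (j : I) (y : W.Y) (a : Op H) :
    mp (W.gen e f j y) a = f (a (e j)) • W.r (E e j j) y := rfl

theorem r_gen (b : Op H) (f : H →L[ℂ] ℂ) (j : I) (y : W.Y) :
    (W.B e).r b (W.gen e f j y) = W.gen e (f.comp b) j y := rfl

variable {W e} in
theorem B_induction {p : (W.B e).Y → Prop} (h1 : ∀ f j y, p (W.gen e f j y)) (h0 : p 0)
    (ha : ∀ x y, p x → p y → p (x + y)) (hs : ∀ (c : ℂ) x, p x → p (c • x)) (ψ : (W.B e).Y) :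
    p ψ := by
  obtain ⟨ψ, hψ⟩ := ψ
  refine Submodule.span_induction (p := fun ψ hψ => p (⟨ψ, hψ⟩ : W.BS e)) ?_ ?_ ?_ ?_ hψ
  · rintro _ ⟨f, j, y, rfl⟩
    exact h1 f j y
  · exact h0
  · intro x y hx hy h2 h3
    exact ha _ _ h2 h3
  · intro c x hx h2
    exact hs c _ h2

/-- elements of `B W` are balanced over the diagonal -/
theorem bal [DecidableEq I] (ψ : (W.B e).Y) (a : Op H) (k : I) :
    mp ψ (a * E e k k) = W.r (E e k k) (mp ψ a) := by
  induction ψ using B_induction with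
  | h1 f j y =>
      rw [mp_gen, mp_gen, map_smul, ← W.r_mul, mul_E_apply, E_mul, inner_e]
      by_cases hjk : k = j
      · subst hjk; simp
      · rw [if_neg hjk, if_neg (Ne.symm hjk)]; simp
  | h0 => simp
  | ha x y hx hy => simp only [mp_add, hx, hy, map_add]
  | hs c x hx => simp only [mp_smul, hx, map_smul]

theorem bal_P [DecidableEq I] (ψ : (W.B e).Y) (a : Op H) (F : Finset I) :
    mp ψ (a * P e F) = W.r (P e F) (mp ψ a) := by
  rw [P, Finset.mul_sum, map_sum, map_sum, _root_.sum_apply]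
  exact Finset.sum_congr rfl (fun k _ => W.bal e ψ a k)

theorem gen_E [DecidableEq I] (f : H →L[ℂ] ℂ) (j k : I) (y : W.Y) :
    W.gen e f j (W.r (E e k k) y) = if k = j then W.gen e f j y else 0 := by
  apply mp_ext
  intro a
  rw [mp_gen, ← W.r_mul, E_mul]
  split_ifs with h
  · subst h; rfl
  · rw [map_zero, _root_.zero_apply, smul_zero]; rfl

theorem gen_P [DecidableEq I] (f : H →L[ℂ] ℂ) (j : I) (F : Finset I) (y : W.Y) :
    W.gen e f j (W.r (P e F) y) = if j ∈ F then W.gen e f j y else 0 := by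
  rw [P, map_sum, _root_.sum_apply, map_sum]
  simp only [gen_E]
  rw [Finset.sum_ite_eq']

/-! ### the map `s` -/

/-- evaluation at `1` -/
def ev1 : (W.B e).Y →L[ℂ] W.Y := (ContinuousLinearMap.apply ℂ W.Y (1 : Op H)).comp (W.mpL e)

theorem ev1_apply (ψ : (W.B e).Y) : W.ev1 e ψ = mp ψ 1 := rfl

/-- `s x = 1 ⊗ x` -/
def sD : W.D →L[ℂ] (W.B e).D := (ContinuousLinearMap.compL ℂ _ _ ℂ).flip (W.ev1 e)

@[simp] theorem sD_apply (x : W.D) (ψ : (W.B e).Y) : ap (W.sD e x) ψ = ap x (mp ψ 1) := rfl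

theorem act_sD (b : Op H) (x : W.D) (ψ : (W.B e).Y) :
    ap ((W.B e).act b (W.sD e x)) ψ = ap x (mp ψ b) := by
  rw [act_apply, sD_apply, mp_r, mul_one]

theorem act_E_sD [DecidableEq I] (k : I) (x : W.D) :
    (W.B e).act (E e k k) (W.sD e x) = W.sD e (W.act (E e k k) x) := by
  ext ψ
  rw [act_sD, sD_apply, act_apply, ← bal, one_mul]

theorem act_P_sD [DecidableEq I] (F : Finset I) (x : W.D) :
    (W.B e).act (P e F) (W.sD e x) = W.sD e (W.act (P e F) x) := by
  ext ψ
  rw [act_sD, sD_apply, act_apply, ← bal_P, one_mul]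

theorem sD_mem {x : W.D} (hx : x ∈ W.ess e) : W.sD e x ∈ (W.B e).ess e := by
  classical
  change Tendsto (fun F => (W.B e).act (P e F) (W.sD e x)) atTop _
  simp only [act_P_sD]
  exact ((W.sD e).continuous.tendsto _).comp hx

/-- `s` on the essential parts -/
def s : W.ess e →L[ℂ] (W.B e).ess e :=
  ((W.sD e).comp (W.ess e).subtypeL).codRestrict _ (fun x => W.sD_mem e x.2)

@[simp] theorem coe_s (x : W.ess e) : (W.s e x : (W.B e).D) = W.sD e x := rfl

theorem ea_E_s [DecidableEq I] (k : I) (x : W.ess e) :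
    (W.B e).ea e (E e k k) (W.s e x) = W.s e (W.ea e (E e k k) x) :=
  Subtype.ext (W.act_E_sD e k x)

/-! ### coordinates -/

/-- the coordinate functional `x ↦ ⟪e i, x⟫` -/
def cf (i : I) : H →L[ℂ] ℂ := innerSL ℂ (e i)

theorem cf_apply (i : I) (x : H) : cf e i x = inner ℂ (e i) x := rfl

theorem norm_cf (i : I) : ‖cf e i‖ = 1 := by
  rw [cf, innerSL_apply_norm, norm_e]

theorem cf_comp_E [DecidableEq I] (i k l : I) :
    (cf e i).comp (E e k l) = if i = k then cf e l else 0 := by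
  ext x
  rw [ContinuousLinearMap.comp_apply, E_apply, map_smul, cf_apply, inner_e]
  split_ifs with h
  · simp [cf_apply]
  · simp

theorem cf_comp_P [DecidableEq I] (i : I) (F : Finset I) :
    (cf e i).comp (P e F) = if i ∈ F then cf e i else 0 := by
  have h : (cf e i).comp (P e F) = ∑ k ∈ F, (cf e i).comp (E e k k) := by
    ext x
    simp [P, _root_.sum_apply]
  rw [h]
  simp only [cf_comp_E]
  rw [Finset.sum_ite_eq]

/-- the `(i,j)` coordinate of an element of the dual of `B W` -/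
def xD (i j : I) : (W.B e).D →L[ℂ] W.D :=
  (ContinuousLinearMap.compL ℂ _ _ ℂ).flip (W.gen e (cf e i) j)

@[simp] theorem xD_apply (i j : I) (u : (W.B e).D) (y : W.Y) :
    ap (W.xD e i j u) y = ap u (W.gen e (cf e i) j y) := rfl

theorem act_E_xD [DecidableEq I] (i j k : I) (u : (W.B e).D) :
    W.act (E e k k) (W.xD e i j u) = if k = j then W.xD e i j u else 0 := by
  ext y
  rw [act_apply, xD_apply, gen_E]
  split_ifs with h
  · rfl
  · rw [map_zero]; rfl

theorem act_P_xD [DecidableEq I] (i j : I) (F : Finset I) (u : (W.B e).D) :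
    W.act (P e F) (W.xD e i j u) = if j ∈ F then W.xD e i j u else 0 := by
  ext y
  rw [act_apply, xD_apply, gen_P]
  split_ifs with h
  · rfl
  · rw [map_zero]; rfl

theorem xD_mem (i j : I) (u : (W.B e).D) : W.xD e i j u ∈ W.ess e := by
  classical
  refine W.mem_ess_of_P (F := {j}) ?_
  rw [act_P_xD, if_pos (Finset.mem_singleton_self j)]

/-- coordinates as elements of the essential part -/
def X (i j : I) : (W.B e).D →L[ℂ] W.ess e :=
  (W.xD e i j).codRestrict _ (fun u => W.xD_mem e i j u)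

@[simp] theorem coe_X (i j : I) (u : (W.B e).D) : (W.X e i j u : W.D) = W.xD e i j u := rfl

theorem gen_zero (j : I) (y : W.Y) : W.gen e 0 j y = 0 := by
  apply mp_ext
  intro a
  rw [mp_gen, _root_.zero_apply, zero_smul]; rfl

theorem xD_act_E [DecidableEq I] (i j k l : I) (u : (W.B e).D) :
    W.xD e i j ((W.B e).act (E e k l) u) = if i = k then W.xD e l j u else 0 := by
  ext y
  rw [xD_apply, act_apply, r_gen, cf_comp_E]
  split_ifs with h
  · rfl
  · rw [gen_zero, map_zero]; rfl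

theorem xD_sD [DecidableEq I] (i j : I) (x : W.D) :
    W.xD e i j (W.sD e x) = if i = j then W.act (E e j j) x else 0 := by
  ext y
  rw [xD_apply, sD_apply, mp_gen, ContinuousLinearMap.one_apply, cf_apply, inner_e]
  split_ifs with h
  · rw [one_smul]; rfl
  · rw [zero_smul, map_zero]; rfl

end RM

end

end Pool.Agent.H83.KH
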